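import Pool.Agent.Lib.MP_777c16_ag.Semi

open CategoryTheory AlgebraicGeometry Limits TopologicalSpace Opposite Pretriangulated

universe u

set_option linter.unusedVariables false
set_option linter.unusedSectionVars false

namespace Pool.Agent.Lib.MP_777c16_ag

section

variable {X : Scheme.{u}}

/-- derived stalk functor -/
noncomputable abbrev DST (z : X) :
    DerivedCategory X.Modules ⥤ DerivedCategory (ModuleCat.{u} (X.presheaf.stalk z)) :=
  (stalkF z).mapDerivedCategory

/-- derived skyscraper functor -/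
noncomputable abbrev DSK (z : X) :
    DerivedCategory (ModuleCat.{u} (X.presheaf.stalk z)) ⥤ DerivedCategory X.Modules :=
  (skyF z).mapDerivedCategory

/-- the derived stalk-skyscraper adjunction -/
noncomputable abbrev DADJ (z : X) : DST z ⊣ DSK z := adjDerived (stalkSkyAdj z)

lemma isZero_iff_DST (K : DerivedCategory X.Modules) :
    IsZero K ↔ ∀ z : X, IsZero ((DST z).obj K) := by
  constructor
  · intro h z
    exact (DST z).map_isZero h
  · intro h
    rw [isZero_iff_homology]
    intro n
    rw [isZero_iff_stalks]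
    intro z
    exact (isZero_mapDerived_iff (stalkF z) K).1 (h z) n

lemma isIso_map_iff_isZero_cone {T T' : Type*} [Category T] [Preadditive T] [HasZeroObject T]
    [HasShift T ℤ] [∀ n : ℤ, (shiftFunctor T n).Additive] [Pretriangulated T]
    [Category T'] [Preadditive T'] [HasZeroObject T']
    [HasShift T' ℤ] [∀ n : ℤ, (shiftFunctor T' n).Additive] [Pretriangulated T']
    (F : T ⥤ T') [F.CommShift ℤ] [F.IsTriangulated]
    {A B C : T} {φ : A ⟶ B} {i : B ⟶ C} {p : C ⟶ A⟦(1 : ℤ)⟧}
    (hT : Triangle.mk φ i p ∈ distTriang T) : IsIso (F.map φ) ↔ IsZero (F.obj C) :=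
  (Triangle.isZero₃_iff_isIso₁ _ (F.map_distinguished _ hT)).symm

lemma isIso_iff_DST {A B : DerivedCategory X.Modules} (φ : A ⟶ B) :
    IsIso φ ↔ ∀ z : X, IsIso ((DST z).map φ) := by
  constructor
  · intro h z
    infer_instance
  · intro h
    obtain ⟨C, i, p, hT⟩ := distinguished_cocone_triangle φ
    have : IsZero C := by
      rw [isZero_iff_DST]
      intro z
      exact (isIso_map_iff_isZero_cone (DST z) hT).1 (h z)
    exact (Triangle.isZero₃_iff_isIso₁ _ hT).1 this

/-- the stalk of a skyscraper sheaf at its point -/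
instance isIso_stalkSky_counit (x : X) : IsIso (stalkSkyAdj x).counit := by
  rw [NatTrans.isIso_iff_isIso_app]
  intro N
  have key : ∀ (V : X.Opens) (hx : x ∈ V) (s : Γ(skyObj x N, V)),
      ((stalkSkyAdj x).counit.app N).hom (germF x (skyObj x N) V hx s) = skyEval x N hx s := by
    intro V hx s
    exact stalkSkyEquiv_symm_germF x (𝟙 (skyObj x N)) V hx s
  rw [ConcreteCategory.isIso_iff_bijective]
  constructor
  · rw [injective_iff_map_eq_zero]
    intro a ha
    obtain ⟨V, hx, s, rfl⟩ := exists_germF x (skyObj x N) a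
    have h1 : skyEval x N hx s = 0 := (key V hx s).symm.trans ha
    have h2 : s = 0 := by
      apply sky_ext
      intro hx
      exact h1
    rw [h2]
    exact map_zero (ConcreteCategory.hom (TopCat.Presheaf.germ (skyObj x N).presheaf V x hx))
  · intro n
    refine ⟨germF x (skyObj x N) ⊤ trivial (skyMk x N (fun _ => n)), ?_⟩
    exact key _ _ _

instance isIso_DADJ_counit (x : X) : IsIso (DADJ x).counit := isIso_adjDerived_counit _

lemma isZero_stalk_sky {x z : X} (hx : IsClosed ({x} : Set X)) (hz : z ≠ x)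
    (N : ModuleCat.{u} (X.presheaf.stalk x)) : IsZero ((stalkF z).obj ((skyF x).obj N)) := by
  rw [IsZero.iff_id_eq_zero]
  apply stalkF_hom_ext
  intro V hV m
  let W : X.Opens := V ⊓ ⟨{x}ᶜ, hx.isOpen_compl⟩
  have hW : z ∈ W := ⟨hV, hz⟩
  rw [← germF_res z _ (homOfLE (inf_le_left : W ≤ V)) hW]
  have : ((skyF x).obj N).presheaf.map (homOfLE (inf_le_left : W ≤ V)).op m = 0 := by
    apply sky_ext
    intro hxW
    exact absurd rfl hxW.2
  rw [this]
  have h0 : germF z ((skyF x).obj N) W hW 0 = 0 := by
    exact map_zero (ConcreteCategory.hom (TopCat.Presheaf.germ ((skyF x).obj N).presheaf _ z hW))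
  rw [h0, map_zero, map_zero]

lemma isZero_DST_DSK {x z : X} (hx : IsClosed ({x} : Set X)) (hz : z ≠ x)
    (N : DerivedCategory (ModuleCat.{u} (X.presheaf.stalk x))) :
    IsZero ((DST z).obj ((DSK x).obj N)) := by
  rw [isZero_mapDerived_iff]
  intro n
  obtain ⟨e⟩ := nonempty_homology_mapDerived (skyF x) N n
  exact ((stalkF z).mapIso e).isZero_iff.2 (isZero_stalk_sky hx hz _)

/-- objects supported at a closed point are determined by their stalk -/
lemma isIso_DADJ_unit {x : X} (hx : IsClosed ({x} : Set X)) (G : DerivedCategory X.Modules)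
    (hG : ∀ z : X, z ≠ x → IsZero ((DST z).obj G)) : IsIso ((DADJ x).unit.app G) := by
  rw [isIso_iff_DST]
  intro z
  by_cases hz : z = x
  · subst hz
    have h := (DADJ z).left_triangle_components G
    have h2 : (DST z).map ((DADJ z).unit.app G) = inv ((DADJ z).counit.app ((DST z).obj G)) :=
      IsIso.eq_inv_of_inv_hom_id h
    rw [h2]
    infer_instance
  · exact ⟨0, (hG z hz).eq_of_src _ _, (isZero_DST_DSK hx hz _).eq_of_src _ _⟩

lemma vanish_iff_equiv {T T' : Type*} [Category T] [Category T'] [Preadditive T] [Preadditive T']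
    {L : T ⥤ T'} {Rt : T' ⥤ T} (adj : L ⊣ Rt) [L.Additive] {A : T} {B : T'} :
    (∀ φ : L.obj A ⟶ B, φ = 0) ↔ (∀ φ : A ⟶ Rt.obj B, φ = 0) := by
  constructor
  · intro h φ
    rw [← (adj.homEquiv A B).apply_symm_apply φ, h ((adj.homEquiv A B).symm φ), ← h ((adj.homEquiv A B).symm 0)]
    simp
  · intro h φ
    apply (adj.homEquiv A B).injective
    rw [h (adj.homEquiv A B φ), h (adj.homEquiv A B 0)]

end

end Pool.Agent.Lib.MP_777c16_ag
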