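import Mathlib.AlgebraicGeometry.Modules.Sheaf
import Mathlib.Algebra.Category.ModuleCat.Sheaf.Free
import Mathlib.Algebra.Homology.DerivedCategory.ExactFunctor
import Mathlib.Algebra.Homology.DerivedCategory.TStructure
import Mathlib.Algebra.Homology.DerivedCategory.FullyFaithful

/-!
# Perfect complexes on schemes

The definitions used in the statement of the result: the derived category of sheaves of modules
on a scheme, finite locally free modules, strictly perfect complexes, perfect complexes and the
category of perfect complexes.
-/

open CategoryTheory AlgebraicGeometry Limits TopologicalSpace

universe u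

namespace Pool.Agent.Lib.MP_777c16_ag

/-- The derived category of the abelian category of sheaves of modules on a scheme exists
(this is the standard choice of a localization of the category of cochain complexes with respect
to quasi-isomorphisms). -/
noncomputable instance hdcModules (X : Scheme.{u}) : HasDerivedCategory.{u + 1} X.Modules :=
  HasDerivedCategory.standard _

noncomputable instance hdcModuleCat (R : Type u) [CommRing R] :
    HasDerivedCategory.{u + 1} (ModuleCat.{u} R) :=
  HasDerivedCategory.standard _

section exactness

variable {U X : Scheme.{u}} (f : U ⟶ X) [IsOpenImmersion f]

set_option backward.isDefEq.respectTransparency.types false in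
instance restrict_isRightAdjoint : (Scheme.Modules.restrictFunctor f).IsRightAdjoint := by
  unfold Scheme.Modules.restrictFunctor
  refine @SheafOfModules.instIsRightAdjointPushforward _ _ _ _ _ _ _ _ _ _ _ ?_ ?_ ?_
  · exact PresheafOfModules.instIsRightAdjointPushforward _
  · infer_instance
  · infer_instance

instance restrict_preservesFiniteLimits :
    PreservesFiniteLimits (Scheme.Modules.restrictFunctor f) := inferInstance

instance restrict_preservesFiniteColimits :
    PreservesFiniteColimits (Scheme.Modules.restrictFunctor f) := inferInstance

instance restrict_additive : (Scheme.Modules.restrictFunctor f).Additive where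
  map_add := rfl

end exactness

/-- A sheaf of modules is free of finite rank if it is isomorphic to a finite direct sum of
copies of the structure sheaf. -/
def IsFiniteFree {X : Scheme.{u}} (M : X.Modules) : Prop :=
  ∃ (I : Type u) (_ : Finite I), Nonempty (M ≅ SheafOfModules.free (R := X.ringCatSheaf) I)

/-- A sheaf of modules is finite locally free if every point has an open neighbourhood on which
it is free of finite rank. -/
def IsFiniteLocallyFree {X : Scheme.{u}} (M : X.Modules) : Prop :=
  ∀ x : X, ∃ U : X.Opens, x ∈ U ∧ IsFiniteFree ((Scheme.Modules.restrictFunctor U.ι).obj M)

/-- Bounded complexes of finite locally free modules. -/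
structure IsStrictlyPerfect {X : Scheme.{u}} (K : CochainComplex X.Modules ℤ) : Prop where
  bounded : ∃ a b : ℤ, K.IsStrictlyGE a ∧ K.IsStrictlyLE b
  locallyFree : ∀ i : ℤ, IsFiniteLocallyFree (K.X i)

/-- An object of the derived category of sheaves of modules is perfect if every point has an open
neighbourhood on which it becomes isomorphic (in the derived category) to a bounded complex of
finite locally free modules. -/
def IsPerfect {X : Scheme.{u}} : ObjectProperty (DerivedCategory X.Modules) := fun E =>
  ∀ x : X, ∃ U : X.Opens, x ∈ U ∧ ∃ K : CochainComplex (U : Scheme.{u}).Modules ℤ,
    IsStrictlyPerfect K ∧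
      Nonempty ((Scheme.Modules.restrictFunctor U.ι).mapDerivedCategory.obj E ≅
        DerivedCategory.Q.obj K)

end Pool.Agent.Lib.MP_777c16_ag
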