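import Pool.Agent.Lib.MP_777c16_ag.Special1
import Mathlib.Algebra.Homology.Additive

open CategoryTheory AlgebraicGeometry Limits TopologicalSpace Opposite Pretriangulated

universe u

set_option linter.unusedVariables false
set_option linter.unusedSectionVars false

namespace Pool.Agent.Lib.MP_777c16_ag

lemma isIso_app_sigma {C D : Type*} [Category C] [Category D] {G₁ G₂ : C ⥤ D} (α : G₁ ⟶ G₂)
    {I : Type*} (Z : I → C) [HasCoproduct Z] [PreservesColimit (Discrete.functor Z) G₁]
    [PreservesColimit (Discrete.functor Z) G₂] (h : ∀ i, IsIso (α.app (Z i))) :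
    IsIso (α.app (∐ Z)) := by
  let c := colimit.cocone (Discrete.functor Z)
  have hc : IsColimit c := colimit.isColimit _
  have h1 : IsColimit (G₁.mapCocone c) := isColimitOfPreserves G₁ hc
  have h2 : IsColimit (G₂.mapCocone c) := isColimitOfPreserves G₂ hc
  let w : Discrete.functor Z ⋙ G₁ ≅ Discrete.functor Z ⋙ G₂ :=
    Discrete.natIso (fun i => @asIso _ _ _ _ (α.app (Z i.as)) (h i.as))
  have h3 : α.app (∐ Z) = (h1.coconePointsIsoOfNatIso h2 w).hom := by
    apply h1.hom_ext
    intro i
    rw [IsColimit.comp_coconePointsIsoOfNatIso_hom]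
    exact α.naturality (Sigma.ι Z i.as)
  rw [h3]
  infer_instance

section

variable {X : Scheme.{u}} {z y : X} (h : z ⤳ y)

lemma isIso_of_three {C D : Type*} [Category C] [Category D] {G₁ G₂ : C ⥤ D} (α : G₁ ⟶ G₂)
    {A B : C} (f : A ⟶ B) (h1 : IsIso (G₁.map f)) (h2 : IsIso (G₂.map f)) :
    IsIso (α.app A) ↔ IsIso (α.app B) := by
  have hn := α.naturality f
  constructor
  · intro h3
    have : α.app B = inv (G₁.map f) ≫ α.app A ≫ G₂.map f := by
      rw [IsIso.eq_inv_comp, hn]
    rw [this]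
    infer_instance
  · intro h3
    have : α.app A = G₁.map f ≫ α.app B ≫ inv (G₂.map f) := by
      rw [← Category.assoc, IsIso.eq_comp_inv, hn]
    rw [this]
    infer_instance

variable {U : Scheme.{u}} (f : U ⟶ X) [IsOpenImmersion f]

lemma isIso_spNat_counit (hy : y ∈ f.opensRange) (M : X.Modules) :
    IsIso ((spNat h).app ((shriek f).obj ((Scheme.Modules.restrictFunctor f).obj M))) ↔
      IsIso ((spNat h).app M) := by
  have hz : z ∈ f.opensRange := h.mem_open f.opensRange.2 hy
  have h1 := isIso_stalk_shriek_counit f M hy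
  have h2 := isIso_stalk_shriek_counit f M hz
  apply isIso_of_three (spNat h) ((shriekAdj f).counit.app M)
  · exact @Functor.map_isIso _ _ _ _ _ _ (ModuleCat.extendScalars (spRing h)) _ h1
  · exact h2

lemma isIso_spNat_shriek_unit (hy : y ∈ f.opensRange) :
    IsIso ((spNat h).app ((shriek f).obj (unitX U))) := by
  have h1 := (isIso_spNat_counit h f hy (unitX X)).2 (isIso_spNat_unit h)
  exact (NatTrans.isIso_app_iff_of_iso (spNat h) ((shriek f).mapIso (restrictUnit f))).1 h1

lemma isIso_spNat_shriek_free (hy : y ∈ f.opensRange) {M : U.Modules} (hM : IsFiniteFree M) :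
    IsIso ((spNat h).app ((shriek f).obj M)) := by
  obtain ⟨I, hI, ⟨e⟩⟩ := hM
  have e1 : M ≅ freeX U I := e
  have h1 : IsIso ((Functor.whiskerLeft (shriek f) (spNat h)).app (∐ fun (_ : I) => unitX U)) := by
    apply isIso_app_sigma
    intro i
    exact isIso_spNat_shriek_unit h f hy
  exact (NatTrans.isIso_app_iff_of_iso (Functor.whiskerLeft (shriek f) (spNat h)) e1).2 h1

lemma isIso_spNat_of_restrict (hy : y ∈ f.opensRange) {N : X.Modules}
    (hN : IsFiniteFree ((Scheme.Modules.restrictFunctor f).obj N)) :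
    IsIso ((spNat h).app N) :=
  (isIso_spNat_counit h f hy N).1 (isIso_spNat_shriek_free h f hy hN)

lemma isIso_spNat_shriek (hy : y ∈ f.opensRange) {M : U.Modules}
    (hM : IsFiniteLocallyFree M) : IsIso ((spNat h).app ((shriek f).obj M)) := by
  obtain ⟨w, rfl⟩ := hy
  obtain ⟨V, hV, hfree⟩ := hM w
  have h1 : f w ∈ (V.ι ≫ f).opensRange := ⟨⟨w, hV⟩, rfl⟩
  apply isIso_spNat_of_restrict h (V.ι ≫ f) h1
  have e : (Scheme.Modules.restrictFunctor (V.ι ≫ f)).obj ((shriek f).obj M) ≅
      (Scheme.Modules.restrictFunctor V.ι).obj M :=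
    (Scheme.Modules.restrictFunctorComp V.ι f).app _ ≪≫
      (Scheme.Modules.restrictFunctor V.ι).mapIso (asIso ((shriekAdj f).unit.app M)).symm
  exact hfree.of_iso e.symm

end

section contractible

variable {C : Type*} [Category C] [Abelian C] [HasDerivedCategory C]

lemma isZero_Q_of_homotopy {K : CochainComplex C ℤ} (H : Homotopy (𝟙 K) 0) :
    IsZero (DerivedCategory.Q.obj K) := by
  rw [IsZero.iff_id_eq_zero]
  have h1 : (HomotopyCategory.quotient C (ComplexShape.up ℤ)).map (𝟙 K) =
      (HomotopyCategory.quotient C (ComplexShape.up ℤ)).map 0 :=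
    HomotopyCategory.eq_of_homotopy _ _ H
  have h2 : DerivedCategory.Q.map (𝟙 K) = 0 := by
    rw [← cancel_epi ((DerivedCategory.quotientCompQhIso C).hom.app K),
      ← DerivedCategory.quotientCompQhIso_hom_naturality, h1, Functor.map_zero, Functor.map_zero,
      zero_comp, comp_zero]
  rw [← CategoryTheory.Functor.map_id, h2]

end contractible

section

variable {X : Scheme.{u}} {z y : X} (h : z ⤳ y)

instance extendScalars_additive {R S : Type u} [CommRing R] [CommRing S] (ρ : R →+* S) :
    (ModuleCat.extendScalars.{u, u, u} ρ).Additive :=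
  (ModuleCat.extendRestrictScalarsAdj ρ).left_adjoint_additive

/-- vanishing of the stalk of a perfect complex is preserved by generization -/
theorem isZero_DST_of_specializes {P : DerivedCategory X.Modules} (hP : IsPerfect P)
    (h : z ⤳ y) (hy : IsZero ((DST y).obj P)) : IsZero ((DST z).obj P) := by
  obtain ⟨U, hyU, K, ⟨⟨a, b, ha, hb⟩, hK⟩, ⟨e⟩⟩ := hP y
  have hy' : y ∈ U.ι.opensRange := mem_opensRange_ι.2 hyU
  have hz' : z ∈ U.ι.opensRange := h.mem_open U.ι.opensRange.2 hy'
  let Gy := shriek U.ι ⋙ stalkF y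
  let Gz := shriek U.ι ⋙ stalkF z
  let Fy := (Gy.mapHomologicalComplex (ComplexShape.up ℤ)).obj K
  let Fz := (Gz.mapHomologicalComplex (ComplexShape.up ℤ)).obj K
  have hgood : IsGoodCx Fy a b := by
    refine ⟨fun i => ?_, fun i => ?_, ?_, ?_⟩
    · exact (isFP_stalk_shriek U.ι hy' (hK i)).1
    · exact (isFP_stalk_shriek U.ι hy' (hK i)).2
    · rw [CochainComplex.isStrictlyGE_iff]
      intro i hi
      exact Gy.map_isZero (CochainComplex.isZero_of_isStrictlyGE K a i hi)
    · rw [CochainComplex.isStrictlyLE_iff]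
      intro i hi
      exact Gy.map_isZero (CochainComplex.isZero_of_isStrictlyLE K b i hi)
  have ey : (DST y).obj P ≅ DerivedCategory.Q.obj Fy :=
    (DTRiso U.ι hy' P).symm ≪≫ (DT U.ι y).mapIso e ≪≫ Gy.mapDerivedCategoryFactors.app K
  have ez : (DST z).obj P ≅ DerivedCategory.Q.obj Fz :=
    (DTRiso U.ι hz' P).symm ≪≫ (DT U.ι z).mapIso e ≪≫ Gz.mapDerivedCategoryFactors.app K
  have hFy : IsZero (DerivedCategory.Q.obj Fy) := IsZero.of_iso hy ey.symm
  have := hgood.isKProjective
  obtain ⟨H⟩ := homotopy_of_map_eq_zero (𝟙 Fy) (hFy.eq_of_src _ _)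
  let E := ModuleCat.extendScalars (spRing h)
  let EF := (E.mapHomologicalComplex (ComplexShape.up ℤ)).obj Fy
  have H1 : Homotopy (𝟙 EF) 0 := by
    have H2 := E.mapHomotopy H
    exact (Homotopy.ofEq (by simp [EF])).trans (H2.trans (Homotopy.ofEq (by simp)))
  have hiso : ∀ i, IsIso ((spNat h).app ((shriek U.ι).obj (K.X i))) := fun i =>
    isIso_spNat_shriek h U.ι hy' (hK i)
  let eEF : EF ≅ Fz := HomologicalComplex.Hom.isoOfComponents
    (fun i => @asIso _ _ _ _ ((spNat h).app ((shriek U.ι).obj (K.X i))) (hiso i))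
    (fun i j _ => ((spNat h).naturality ((shriek U.ι).map (K.d i j))).symm)
  have h4 : IsZero (DerivedCategory.Q.obj EF) := isZero_Q_of_homotopy H1
  exact IsZero.of_iso (IsZero.of_iso h4 (DerivedCategory.Q.mapIso eEF).symm) ez

end

end Pool.Agent.Lib.MP_777c16_ag
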