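import Pool.Agent.Lib.MP_777c16_ag.PartB
import Pool.Agent.Lib.MP_777c16_ag.Special2
import Mathlib.RingTheory.KrullDimension.Polynomial
import Mathlib.RingTheory.KrullDimension.Field
import Mathlib.Topology.KrullDimension
import Mathlib.AlgebraicGeometry.Morphisms.QuasiCompact
import Mathlib.AlgebraicGeometry.Morphisms.Separated

open CategoryTheory AlgebraicGeometry Limits TopologicalSpace Opposite RingTheory.Sequence

universe u

set_option linter.unusedVariables false
set_option linter.unusedSectionVars false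

namespace Pool.Agent.Lib.MP_777c16_ag

/-- chains of irreducible closed subsets can be seen on an affine open -/
lemma exists_affine_chain (X : Scheme.{u}) (p : LTSeries (IrreducibleCloseds X)) :
    ∃ U : X.Opens, IsAffineOpen U ∧ (p.length : WithBot ℕ∞) ≤ topologicalKrullDim U := by
  obtain ⟨x, hx⟩ := p.head.isIrreducible.nonempty
  obtain ⟨U, hU, hxU, -⟩ := exists_isAffineOpen_mem_and_subset (X := X) (x := x) (U := ⊤) trivial
  refine ⟨U, hU, ?_⟩
  let f : U → X := Subtype.val
  have hf : Topology.IsOpenEmbedding f := U.2.isOpenEmbedding_subtypeVal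
  have hmem : ∀ i, (f ⁻¹' (p i : Set X)).Nonempty := fun i =>
    ⟨⟨x, hxU⟩, (LTSeries.head_le p i) hx⟩
  let q : LTSeries {V : IrreducibleCloseds X // (f ⁻¹' V).Nonempty} :=
    { length := p.length
      toFun := fun i => ⟨p i, hmem i⟩
      step := fun i => p.step i }
  let r := q.map (IrreducibleCloseds.orderIsoOfIsOpenEmbedding f hf).symm
    (IrreducibleCloseds.orderIsoOfIsOpenEmbedding f hf).symm.strictMono
  exact Order.LTSeries.length_le_krullDim r

lemma topologicalKrullDim_affine {X : Scheme.{u}} {U : X.Opens} (hU : IsAffineOpen U) :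
    topologicalKrullDim U = ringKrullDim Γ(X, U) := by
  rw [← PrimeSpectrum.topologicalKrullDim_eq_ringKrullDim Γ(X, U)]
  exact IsHomeomorph.topologicalKrullDim_eq _ hU.isoSpec.hom.homeomorph.isHomeomorph

section

variable (k : Type u) [Field k] {X : Scheme.{u}} (s : X ⟶ Spec (.of k)) [LocallyOfFiniteType s]

include k s in
lemma affine_facts {U : X.Opens} (hU : IsAffineOpen U) :
    IsNoetherianRing Γ(X, U) ∧ IsJacobsonRing Γ(X, U) ∧
      ∃ n : ℕ, ringKrullDim Γ(X, U) ≤ n := by
  have h1 : (s.appLE ⊤ U le_top).hom.FiniteType := s.finiteType_appLE (isAffineOpen_top _) hU _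
  have h2 : ((Scheme.ΓSpecIso (.of k)).inv ≫ s.appLE ⊤ U le_top).hom.FiniteType := by
    rw [CommRingCat.hom_comp]
    exact h1.comp (RingHom.FiniteType.of_surjective _
      (ConcreteCategory.bijective_of_isIso (Scheme.ΓSpecIso (.of k)).inv).2)
  algebraize [((Scheme.ΓSpecIso (.of k)).inv ≫ s.appLE ⊤ U le_top).hom]
  have h3 : Algebra.FiniteType k Γ(X, U) := h2
  refine ⟨Algebra.FiniteType.isNoetherianRing k _, isJacobsonRing_of_finiteType (A := k), ?_⟩
  obtain ⟨n, f, hf⟩ := Algebra.FiniteType.iff_quotient_mvPolynomial''.1 h3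
  refine ⟨n, (ringKrullDim_le_of_surjective f.toRingHom hf).trans ?_⟩
  rw [MvPolynomial.ringKrullDim_of_isNoetherianRing, ringKrullDim_eq_zero_of_field k]
  simp

include s in
lemma jacobsonSpace_of_field : JacobsonSpace X := LocallyOfFiniteType.jacobsonSpace s

include k s in
/-- Part (A) for schemes locally of finite type over a field. -/
theorem exists_star (p : LTSeries (IrreducibleCloseds X)) :
    ∃ (d : ℤ) (K : DerivedCategory X.Modules), (p.length : ℤ) ≤ d ∧ IsPerfect K ∧ ¬ IsZero K ∧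
      Star d K := by
  obtain ⟨U₀, hU₀, hdim⟩ := exists_affine_chain X p
  rw [topologicalKrullDim_affine hU₀] at hdim
  obtain ⟨hN, hJ, n, hn⟩ := affine_facts k s hU₀
  obtain ⟨d, hd⟩ : ∃ d : ℕ, ringKrullDim Γ(X, U₀) = d := by
    generalize ringKrullDim Γ(X, U₀) = D at hdim hn
    induction D with
    | bot => exact absurd hdim (by simp)
    | coe D =>
      have h1 : D ≤ (n : ℕ∞) := by exact_mod_cast hn
      obtain ⟨d, hd⟩ := ENat.ne_top_iff_exists.1 (ne_top_of_le_ne_top (ENat.natCast_ne_top n) h1)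
      exact ⟨d, by rw [← hd]; rfl⟩
  have hpd : p.length ≤ d := by
    rw [hd] at hdim
    exact_mod_cast hdim
  obtain ⟨l, hl, hreg, m, hm, hmin⟩ := exists_regular_seq d Γ(X, U₀) hd
  let m' : PrimeSpectrum Γ(X, U₀) := ⟨m, hm.isPrime⟩
  let x : X := hU₀.fromSpec m'
  have hxU₀ : x ∈ U₀ := by
    have h1 : x ∈ Set.range hU₀.fromSpec := ⟨m', rfl⟩
    rw [hU₀.range_fromSpec] at h1
    exact h1
  have hprime : hU₀.primeIdealOf ⟨x, hxU₀⟩ = m' := by
    apply hU₀.fromSpec.isOpenEmbedding.injective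
    exact hU₀.fromSpec_primeIdealOf ⟨x, hxU₀⟩
  have hx : IsClosed ({x} : Set X) := by
    have hJS : JacobsonSpace X := jacobsonSpace_of_field k s
    have h1 := hU₀.fromSpec.isOpenEmbedding.preimage_closedPoints
    have h2 : m' ∈ closedPoints (Spec Γ(X, U₀)) :=
      (PrimeSpectrum.isClosed_singleton_iff_isMaximal m').2 hm
    rw [← h1] at h2
    exact h2
  have hmin' : (hU₀.primeIdealOf ⟨x, hxU₀⟩).asIdeal ∈ (Ideal.ofList l).minimalPrimes := by
    rw [hprime]
    exact hmin
  obtain ⟨U, hxU, l', hlen, hiso, hNx, hreg', hlm, hrad⟩ := geomData hx hU₀ hxU₀ l hmin'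
  obtain ⟨K, hK, hK0, hstar⟩ := partA U hx hxU l' hiso (hreg' hreg) hlm
  refine ⟨(l'.length : ℤ), K, ?_, hK, hK0, hstar⟩
  rw [hlen, hl]
  exact_mod_cast hpd

include k s in
/-- Part (B) for schemes of finite type over a field. -/
theorem star_bound [QuasiCompact s] {K : DerivedCategory X.Modules} (hK : IsPerfect K)
    (hK0 : ¬ IsZero K) (d : ℤ) (hstar : Star d K) (n : ℕ) (hn : (n : ℤ) ≤ d) :
    (n : WithBot ℕ∞) ≤ topologicalKrullDim X := by
  -- a closed point in the support
  obtain ⟨z, hz⟩ : ∃ z : X, ¬ IsZero ((DST z).obj K) := by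
    by_contra h
    push Not at h
    exact hK0 ((isZero_iff_DST K).2 h)
  have hcomp : CompactSpace X := by
    have := QuasiCompact.compactSpace_of_compactSpace s
    exact this
  obtain ⟨y, hy, hyc⟩ := IsClosed.exists_closed_singleton (S := closure ({z} : Set X))
    isClosed_closure ⟨z, subset_closure rfl⟩
  have hzy : z ⤳ y := specializes_iff_mem_closure.2 hy
  have hyK : ¬ IsZero ((DST y).obj K) := fun h => hz (isZero_DST_of_specializes hK hzy h)
  obtain ⟨U₀, hU₀, hyU₀, -⟩ := exists_isAffineOpen_mem_and_subset (X := X) (x := y) (U := ⊤) trivial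
  obtain ⟨hN, hJ, -⟩ := affine_facts k s hU₀
  have hmax := hU₀.primeIdealOf_isMaximal_of_isClosed ⟨y, hyU₀⟩ hyc
  obtain ⟨S, hS, hcard⟩ := Ideal.exists_finset_card_eq_height_of_isNoetherianRing
    (hU₀.primeIdealOf ⟨y, hyU₀⟩).asIdeal
  have hmin : (hU₀.primeIdealOf ⟨y, hyU₀⟩).asIdeal ∈ (Ideal.ofList S.toList).minimalPrimes := by
    have h1 : Ideal.ofList S.toList = Ideal.span (S : Set Γ(X, U₀)) := by
      rw [Ideal.ofList]
      congr 1
      ext a
      simp
    rw [h1]
    exact hS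
  obtain ⟨U, hxU, l', hlen, hiso, hNx, hreg', hlm, hrad⟩ := geomData hyc hU₀ hyU₀ S.toList hmin
  have h1 := partB U hyc hxU l' hiso hlm hrad hK d hstar hyK
  have h2 : n ≤ S.card := by
    have h3 : (n : ℤ) ≤ (l'.length : ℤ) := hn.trans h1
    rw [hlen, Finset.length_toList] at h3
    exact_mod_cast h3
  calc (n : WithBot ℕ∞) ≤ (S.card : WithBot ℕ∞) := by exact_mod_cast h2
    _ = ((hU₀.primeIdealOf ⟨y, hyU₀⟩).asIdeal.height : WithBot ℕ∞) := by
        rw [← hcard]; rfl
    _ ≤ ringKrullDim Γ(X, U₀) := Ideal.height_le_ringKrullDim_of_isPrime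
    _ = topologicalKrullDim U₀ := (topologicalKrullDim_affine hU₀).symm
    _ ≤ topologicalKrullDim X := topologicalKrullDim_subspace_le X U₀

end

end Pool.Agent.Lib.MP_777c16_ag
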