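import Pool.Agent.Lib.MP_777c16_ag.LocalAlg7
import Mathlib.CategoryTheory.Linear.LinearFunctor

open CategoryTheory AlgebraicGeometry Limits TopologicalSpace Opposite

universe u

set_option linter.unusedVariables false

namespace Pool.Agent.Lib.MP_777c16_ag

variable {X : Scheme.{u}}

/-- restriction of a global function to an open subset -/
noncomputable def gres (V : X.Opens) : Γ(X, ⊤) →+* Γ(X, V) :=
  (X.presheaf.map (homOfLE le_top).op).hom

lemma map_gres {V W : X.Opens} (i : V ⟶ W) (g : Γ(X, ⊤)) :
    X.presheaf.map i.op (gres W g) = gres V g := by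
  have h : X.presheaf.map (homOfLE le_top).op ≫ X.presheaf.map i.op =
      X.presheaf.map (homOfLE (le_top : V ≤ ⊤)).op := by
    rw [← Functor.map_comp]
    rfl
  exact congrArg (fun φ => φ.hom g) h

/-- multiplication of a morphism by a global function -/
noncomputable def gsmul {M N : X.Modules} (g : Γ(X, ⊤)) (φ : M ⟶ N) : M ⟶ N :=
  modHomMk (fun V m => gres V g • φ.app V m)
    (fun V a b => by rw [map_add, smul_add])
    (fun V r a => by rw [Scheme.Modules.Hom.app_smul, smul_comm])
    (fun {V W} i a => by
      rw [Scheme.Modules.map_smul, map_gres]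
      congr 1
      exact congrArg (fun φ => φ a) (φ.mapPresheaf.naturality i.op))

lemma gsmul_app {M N : X.Modules} (g : Γ(X, ⊤)) (φ : M ⟶ N) (V : X.Opens) (m : Γ(M, V)) :
    (gsmul g φ).app V m = gres V g • φ.app V m := rfl

lemma modHom_ext' {M N : X.Modules} {φ ψ : M ⟶ N}
    (h : ∀ (V : X.Opens) (m : Γ(M, V)), φ.app V m = ψ.app V m) : φ = ψ := by
  apply Scheme.Modules.hom_ext
  intro V
  ext m
  exact h V m

noncomputable instance modHomModule (M N : X.Modules) : Module Γ(X, ⊤) (M ⟶ N) where
  smul := gsmul
  one_smul φ := modHom_ext' fun V m => by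
    change gres V 1 • φ.app V m = _
    rw [map_one, one_smul]
  mul_smul g h φ := modHom_ext' fun V m => by
    change gres V (g * h) • φ.app V m = gres V g • gres V h • φ.app V m
    rw [map_mul, mul_smul]
  smul_zero g := modHom_ext' fun V m => by
    change gres V g • (0 : Γ(N, V)) = 0
    rw [smul_zero]
  smul_add g φ ψ := modHom_ext' fun V m => by
    change gres V g • (φ.app V m + ψ.app V m) = gres V g • φ.app V m + gres V g • ψ.app V m
    rw [smul_add]
  add_smul g h φ := modHom_ext' fun V m => by
    change gres V (g + h) • φ.app V m = gres V g • φ.app V m + gres V h • φ.app V m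
    rw [map_add, add_smul]
  zero_smul φ := modHom_ext' fun V m => by
    change gres V 0 • φ.app V m = 0
    rw [map_zero, zero_smul]

lemma smul_app' {M N : X.Modules} (g : Γ(X, ⊤)) (φ : M ⟶ N) (V : X.Opens) (m : Γ(M, V)) :
    (g • φ).app V m = gres V g • φ.app V m := rfl

noncomputable instance modLinear : CategoryTheory.Linear Γ(X, ⊤) X.Modules where
  homModule M N := modHomModule M N
  smul_comp M N P g φ ψ := modHom_ext' fun V m => by
    change ψ.app V (gres V g • φ.app V m) = gres V g • ψ.app V (φ.app V m)
    rw [Scheme.Modules.Hom.app_smul]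
  comp_smul M N P φ g ψ := rfl

end Pool.Agent.Lib.MP_777c16_ag
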