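import Mathlib.RingTheory.Regular.Flat
import Mathlib.RingTheory.Jacobson.Ring
import Mathlib.RingTheory.Ideal.KrullsHeightTheorem
import Mathlib.RingTheory.KrullDimension.Regular
import Mathlib.RingTheory.KrullDimension.NonZeroDivisors
import Mathlib.RingTheory.Ideal.AssociatedPrime.Finiteness
import Mathlib.RingTheory.Regular.IsSMulRegular
import Mathlib.Algebra.Homology.DerivedCategory.Linear
import Mathlib.CategoryTheory.Triangulated.Functor
import Mathlib.CategoryTheory.Triangulated.TriangleShift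
import Mathlib.AlgebraicGeometry.Modules.Sheaf
import Mathlib.Algebra.Homology.DerivedCategory.ExactFunctor
import Mathlib.Algebra.Homology.DerivedCategory.TStructure
import Mathlib.Algebra.Category.ModuleCat.Stalk
import Mathlib.Topology.Sheaves.Abelian
import Mathlib.CategoryTheory.Abelian.Exact
import Mathlib.Algebra.Category.Grp.FilteredColimits
import Mathlib.Algebra.Category.Grp.Limits
import Mathlib.Topology.Sheaves.AddCommGrpCat
import Mathlib.Algebra.Homology.DerivedCategory.HomologySequence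
import Mathlib.CategoryTheory.Localization.Adjunction
import Pool.Agent.Lib.MP_777c16_ag.Defs
import Mathlib.CategoryTheory.Adjunction.Triple
import Mathlib.CategoryTheory.Adjunction.Additive
import Mathlib.RingTheory.Regular.Category
import Mathlib.Algebra.Homology.DerivedCategory.KProjective
import Mathlib.Algebra.Category.ModuleCat.Projective
import Mathlib.RingTheory.LocalRing.Module
import Mathlib.CategoryTheory.Triangulated.TStructure.TruncLTGE
import Mathlib.Algebra.Homology.DerivedCategory.FullyFaithful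
import Mathlib.RingTheory.Ideal.AssociatedPrime.Basic
import Mathlib.RingTheory.SimpleModule.Basic
import Mathlib.Algebra.Homology.ShortComplex.Linear

section
open RingTheory.Sequence Pointwise

universe u

set_option linter.unusedVariables false
set_option linter.unusedSectionVars false

namespace Pool.Agent.Lib.MP_777c16_ag

section

variable (A : Type u) [CommRing A] [IsNoetherianRing A]

/-- In a Jacobson ring of dimension `d + 1` there are maximal ideals of height `d + 1` outside of
any finite set. -/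
lemma exists_maximal_avoid [IsJacobsonRing A] (d : ℕ) (hd : ringKrullDim A = d + 1)
    (S : Set (Ideal A)) (hS : S.Finite) :
    ∃ m : Ideal A, m.IsMaximal ∧ m.height = ringKrullDim A ∧ m ∉ S := by
  have hfin : FiniteRingKrullDim A := by
    rw [finiteRingKrullDim_iff_ne_bot_and_top, hd]
    have h0 : ((d : WithBot ℕ∞) + 1) = (((d + 1 : ℕ) : ℕ∞) : WithBot ℕ∞) := by push_cast; rfl
    rw [h0]
    exact ⟨WithBot.coe_ne_bot, fun h => ENat.natCast_ne_top (d + 1) (WithBot.coe_injective h)⟩
  obtain ⟨p, hp, hph⟩ := Ideal.exists_isMaximal_height (R := A)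
  have hpp := hp.isPrime
  have h1 : ¬ (p.height ≤ (d : ℕ∞)) := by
    rw [hd] at hph
    intro h
    have h2 : p.height = (d : ℕ∞) + 1 := by exact_mod_cast hph
    rw [h2] at h
    exact absurd h (by
      rw [not_le]
      exact_mod_cast Nat.lt_succ_self d)
  rw [Ideal.height_le_iff] at h1
  push Not at h1
  obtain ⟨q, hq, hqp, hqh⟩ := h1
  by_contra hcon
  push Not at hcon
  have hqm : ¬ q.IsMaximal := fun h => hqp.ne (h.eq_of_le hp.ne_top hqp.le)
  have hsub : ∀ m : Ideal A, q ≤ m → m.IsMaximal → m ∈ S := by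
    intro m hqm' hm
    have hmp := hm.isPrime
    apply hcon m hm
    have hlt : q < m := lt_of_le_of_ne hqm' (fun h => hqm (h ▸ hm))
    have h3 := Ideal.height_add_one_le_of_lt_of_isPrime hlt
    have h4 : (d : ℕ∞) + 1 ≤ m.height := le_trans (by gcongr) h3
    apply le_antisymm Ideal.height_le_ringKrullDim_of_isPrime
    rw [hd]
    exact_mod_cast h4
  have hT : {m : Ideal A | q ≤ m ∧ m.IsMaximal}.Finite :=
    hS.subset (fun m hm => hsub m hm.1 hm.2)
  have h5 : q.jacobson = q := by
    rw [← Ideal.radical_eq_jacobson]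
    exact hq.isRadical.radical
  have h6 : hT.toFinset.inf id ≤ q := by
    conv_rhs => rw [← h5]
    rw [Ideal.jacobson]
    apply le_sInf
    intro m hm
    exact Finset.inf_le (f := id) (hT.mem_toFinset.2 hm)
  obtain ⟨m, hm, hmq⟩ := (hq.inf_le' (s := hT.toFinset) (f := id)).1 h6
  have hm' := hT.mem_toFinset.1 hm
  exact hqm ((le_antisymm hm'.1 hmq) ▸ hm'.2)

end

/-- Existence of regular sequences cutting out an isolated maximal ideal. -/
lemma exists_regular_seq (d : ℕ) : ∀ (A : Type u) [CommRing A] [IsNoetherianRing A]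
    [IsJacobsonRing A], ringKrullDim A = d →
    ∃ l : List A, l.length = d ∧ IsWeaklyRegular A l ∧
      ∃ m : Ideal A, m.IsMaximal ∧ m ∈ (Ideal.ofList l).minimalPrimes := by
  induction d with
  | zero =>
    intro A _ _ _ hd
    have hnt : Nontrivial A := by
      rw [← not_subsingleton_iff_nontrivial]
      intro h
      rw [ringKrullDim_eq_bot_of_subsingleton] at hd
      exact absurd hd (by simp)
    have hle : Ring.KrullDimLE 0 A := by
      rw [Ring.krullDimLE_iff, hd]
    obtain ⟨m, hm⟩ := Ideal.exists_maximal A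
    refine ⟨[], rfl, IsWeaklyRegular.nil A A, m, hm, ?_⟩
    rw [Ideal.ofList_nil]
    refine ⟨⟨hm.isPrime, bot_le⟩, ?_⟩
    rintro q ⟨hq, _⟩ hqm
    exact (hq.isMaximal'.eq_of_le hm.ne_top hqm).ge
  | succ d ih =>
    intro A _ _ _ hd
    have hd' : ringKrullDim A = d + 1 := by rw [hd]; push_cast; rfl
    obtain ⟨m₀, hm₀, hh, hass⟩ := exists_maximal_avoid A d hd' (associatedPrimes A A)
      (associatedPrimes.finite A A)
    have hm₀p := hm₀.isPrime
    have h1 : ¬ ((m₀ : Set A) ⊆ ⋃ p ∈ associatedPrimes A A, (p : Set A)) := by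
      rw [Ideal.subset_iUnion_iff_mem_of_isMaximal_of_finite (associatedPrimes.finite A A) m₀ m₀
        (fun I hI _ _ => hI.isPrime) hm₀.ne_top hm₀.ne_top]
      exact hass
    obtain ⟨g, hg, hg2⟩ := Set.not_subset.1 h1
    rw [biUnion_associatedPrimes_eq_compl_nonZeroDivisors, Set.mem_compl_iff, not_not] at hg2
    have hg3 : g ∈ nonZeroDivisors A := hg2
    have hgr : IsSMulRegular A g := by
      intro a b hab
      have h2 : (a - b) * g = 0 := by
        have : g * a = g * b := hab
        rw [sub_mul, mul_comm a g, mul_comm b g, this, sub_self]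
      exact sub_eq_zero.1 ((mem_nonZeroDivisors_iff_right.1 hg3) _ h2)
    let B := A ⧸ Ideal.span {g}
    have hB : ringKrullDim B = d := by
      have h2 := Module.ringKrullDim_quotient_add_one_of_mem_nonZeroDivisors hg3 hh hg
      rw [hd'] at h2
      exact ENat.WithBot.add_natCast_cancel.mp h2
    obtain ⟨l', hl', hreg, m', hm', hmin⟩ := ih B hB
    let π : A →+* B := Ideal.Quotient.mk (Ideal.span {g})
    have hπ : Function.Surjective π := Ideal.Quotient.mk_surjective
    obtain ⟨l, rfl⟩ := (List.map_surjective_iff.2 hπ) l'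
    refine ⟨g :: l, by simpa using hl', ?_, m'.comap π, ?_, ?_⟩
    · rw [isWeaklyRegular_cons_iff]
      refine ⟨hgr, ?_⟩
      have h4 : g • (⊤ : Submodule A A) = Ideal.span {g} := by
        rw [← Submodule.ideal_span_singleton_smul]
        simp
      have h5 : IsWeaklyRegular B l :=
        (isWeaklyRegular_map_algebraMap_iff (R := A) (S := B) (M := B) l).1 hreg
      exact ((Submodule.quotEquivOfEq _ _ h4).isWeaklyRegular_congr l).2 h5
    · exact Ideal.comap_isMaximal_of_surjective π hπ
    · have h3 : (Ideal.ofList (l.map π)).comap π = Ideal.ofList (g :: l) := by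
        rw [← Ideal.map_ofList, Ideal.comap_map_of_surjective π hπ, Ideal.ofList_cons, sup_comm]
        congr 1
        exact Ideal.mk_ker
      rw [← h3, Ideal.comap_minimalPrimes_eq_of_surjective hπ]
      exact ⟨m', hmin, rfl⟩

end Pool.Agent.Lib.MP_777c16_ag
end

section
open CategoryTheory Limits Pretriangulated

set_option linter.unusedVariables false
set_option linter.unusedSectionVars false

namespace Pool.Agent.Lib.MP_777c16_ag

section Kos

variable {S : Type*} [CommRing S] {T : Type*} [Category T] [Preadditive T] [HasZeroObject T]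
  [HasShift T ℤ] [∀ n : ℤ, (shiftFunctor T n).Additive] [Pretriangulated T]
  [CategoryTheory.Linear S T] [∀ n : ℤ, Functor.Linear S (shiftFunctor T n)]

/-- `B` is a cone of multiplication by `g` on `A`. -/
def IsCone (g : S) (A B : T) : Prop :=
  ∃ (i : A ⟶ B) (p : B ⟶ A⟦(1 : ℤ)⟧), Triangle.mk (g • 𝟙 A) i p ∈ distTriang T

lemma exists_isCone (g : S) (A : T) : ∃ B, IsCone g A B := by
  obtain ⟨B, i, p, h⟩ := distinguished_cocone_triangle (g • 𝟙 A)
  exact ⟨B, i, p, h⟩

/-- iterated cones, starting with the first element of the list -/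
def IsKos : List S → T → T → Prop
  | [], A, B => Nonempty (A ≅ B)
  | (g :: l), A, B => ∃ A', IsCone g A A' ∧ IsKos l A' B

/-- iterated cones, starting with the last element of the list -/
def IsKosR : List S → T → T → Prop
  | [], A, B => Nonempty (A ≅ B)
  | (g :: l), A, B => ∃ B', IsKosR l A B' ∧ IsCone g B' B

lemma exists_isKos (l : List S) (A : T) : ∃ B, IsKos l A B := by
  induction l generalizing A with
  | nil => exact ⟨A, ⟨Iso.refl _⟩⟩
  | cons g l ih =>
    obtain ⟨A', hA'⟩ := exists_isCone g A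
    obtain ⟨B, hB⟩ := ih A'
    exact ⟨B, A', hA', hB⟩

lemma exists_isKosR (l : List S) (A : T) : ∃ B, IsKosR l A B := by
  induction l generalizing A with
  | nil => exact ⟨A, ⟨Iso.refl _⟩⟩
  | cons g l ih =>
    obtain ⟨B', hB'⟩ := ih A
    obtain ⟨B, hB⟩ := exists_isCone g B'
    exact ⟨B, B', hB', hB⟩

lemma smul_comm_hom (g : S) {A B : T} (f : A ⟶ B) : (g • 𝟙 A) ≫ f = f ≫ (g • 𝟙 B) := by simp


section raw

variable {A B C : T} {f : A ⟶ B} {g : B ⟶ C} {h : C ⟶ A⟦(1 : ℤ)⟧}

omit [CategoryTheory.Linear S T] [∀ n : ℤ, Functor.Linear S (shiftFunctor T n)] in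
lemma dt_zero12 (hT : Triangle.mk f g h ∈ distTriang T) : f ≫ g = 0 :=
  comp_distTriang_mor_zero₁₂ _ hT

lemma dt_zero23 (hT : Triangle.mk f g h ∈ distTriang T) : g ≫ h = 0 :=
  comp_distTriang_mor_zero₂₃ _ hT

lemma dt_zero31 (hT : Triangle.mk f g h ∈ distTriang T) : h ≫ f⟦(1 : ℤ)⟧' = 0 :=
  comp_distTriang_mor_zero₃₁ _ hT

/-- a map out of `B` killed by `f` factors through `C` -/
lemma dt_yo2 (hT : Triangle.mk f g h ∈ distTriang T) {X : T} (φ : B ⟶ X) (hφ : f ≫ φ = 0) :
    ∃ ψ : C ⟶ X, φ = g ≫ ψ := Triangle.yoneda_exact₂ _ hT φ hφ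

/-- a map out of `C` killed by `g` factors through `A⟦1⟧` -/
lemma dt_yo3 (hT : Triangle.mk f g h ∈ distTriang T) {X : T} (φ : C ⟶ X) (hφ : g ≫ φ = 0) :
    ∃ ψ : A⟦(1 : ℤ)⟧ ⟶ X, φ = h ≫ ψ := Triangle.yoneda_exact₃ _ hT φ hφ

/-- a map out of `A⟦1⟧` killed by `h` factors through `B⟦1⟧` -/
lemma dt_yo1 (hT : Triangle.mk f g h ∈ distTriang T) {X : T} (φ : A⟦(1 : ℤ)⟧ ⟶ X)
    (hφ : h ≫ φ = 0) : ∃ ψ : B⟦(1 : ℤ)⟧ ⟶ X, φ = f⟦(1 : ℤ)⟧' ≫ ψ := by
  obtain ⟨ψ, hψ⟩ : ∃ ψ : B⟦(1 : ℤ)⟧ ⟶ X, φ = (-(f⟦(1 : ℤ)⟧')) ≫ ψ :=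
    Triangle.yoneda_exact₃ _ (rot_of_distTriang _ hT) φ hφ
  exact ⟨-ψ, hψ.trans (by rw [Preadditive.neg_comp, Preadditive.comp_neg])⟩

/-- a map into `B` killed by `g` factors through `A` -/
lemma dt_co2 (hT : Triangle.mk f g h ∈ distTriang T) {X : T} (φ : X ⟶ B) (hφ : φ ≫ g = 0) :
    ∃ ψ : X ⟶ A, φ = ψ ≫ f := Triangle.coyoneda_exact₂ _ hT φ hφ

/-- a map into `C` killed by `h` factors through `B` -/
lemma dt_co3 (hT : Triangle.mk f g h ∈ distTriang T) {X : T} (φ : X ⟶ C) (hφ : φ ≫ h = 0) :
    ∃ ψ : X ⟶ B, φ = ψ ≫ g := Triangle.coyoneda_exact₃ _ hT φ hφ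

/-- a map into `A⟦1⟧` killed by `f⟦1⟧` factors through `C` -/
lemma dt_co1 (hT : Triangle.mk f g h ∈ distTriang T) {X : T} (φ : X ⟶ A⟦(1 : ℤ)⟧)
    (hφ : φ ≫ f⟦(1 : ℤ)⟧' = 0) : ∃ ψ : X ⟶ C, φ = ψ ≫ h := by
  refine Triangle.coyoneda_exact₃ _ (rot_of_distTriang _ hT) φ ?_
  change φ ≫ (-(f⟦(1 : ℤ)⟧')) = 0
  rw [Preadditive.comp_neg, hφ, neg_zero]

end raw

lemma IsCone.vanish_iff {g : S} {A A' G G' : T} (hA : IsCone g A A') (hG : IsCone g G G') :
    (∀ f : A' ⟶ G⟦(1 : ℤ)⟧, f = 0) ↔ (∀ f : A ⟶ G', f = 0) := by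
  obtain ⟨i, p, hT⟩ := hA
  obtain ⟨i', q, hT'⟩ := hG
  have hqg : q ≫ (g • 𝟙 (G⟦(1 : ℤ)⟧)) = 0 := by
    have := dt_zero31 hT'
    rwa [Functor.map_smul, CategoryTheory.Functor.map_id] at this
  have hpg : p ≫ (g • 𝟙 (A⟦(1 : ℤ)⟧)) = 0 := by
    have := dt_zero31 hT
    rwa [Functor.map_smul, CategoryTheory.Functor.map_id] at this
  have hig' : (g • 𝟙 G) ≫ i' = 0 := dt_zero12 hT'
  have hig : (g • 𝟙 A) ≫ i = 0 := dt_zero12 hT
  constructor
  · intro H f
    have h1 : (g • 𝟙 A) ≫ (f ≫ q) = 0 := by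
      rw [smul_comm_hom, Category.assoc, hqg, comp_zero]
    obtain ⟨h, hh⟩ := dt_yo2 hT (f ≫ q) h1
    have h2 : f ≫ q = 0 := by
      rw [hh, H h, comp_zero]
    obtain ⟨f₁, hf₁⟩ := dt_co3 hT' f h2
    have h3 : p ≫ f₁⟦(1 : ℤ)⟧' = 0 := H _
    obtain ⟨h', hh'⟩ := dt_yo1 hT (f₁⟦(1 : ℤ)⟧') h3
    obtain ⟨h'', rfl⟩ := (shiftFunctor T (1 : ℤ)).map_surjective h'
    have h4 : f₁ = (g • 𝟙 A) ≫ h'' := by
      apply (shiftFunctor T (1 : ℤ)).map_injective
      rw [hh', Functor.map_comp]
    rw [hf₁, h4, smul_comm_hom, Category.assoc, hig', comp_zero]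
  · intro H h
    have h1 : (i ≫ h) ≫ (g • 𝟙 (G⟦(1 : ℤ)⟧)) = 0 := by
      rw [← smul_comm_hom, ← Category.assoc, hig, zero_comp]
    obtain ⟨f, hf⟩ := dt_co1 hT' (i ≫ h) (by rwa [Functor.map_smul, CategoryTheory.Functor.map_id])
    have h2 : i ≫ h = 0 := by rw [hf, H f, zero_comp]
    obtain ⟨k, hk⟩ := dt_yo3 hT h h2
    obtain ⟨k', rfl⟩ := (shiftFunctor T (1 : ℤ)).map_surjective k
    obtain ⟨k'', hk''⟩ := dt_co2 hT' k' (H _)
    have : k' = (g • 𝟙 A) ≫ k'' := by rw [hk'', smul_comm_hom]
    rw [hk, this, Functor.map_comp, ← Category.assoc, Functor.map_smul, CategoryTheory.Functor.map_id, hpg,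
      zero_comp]

lemma dt_iso {A B C A' B' C' : T} {f : A ⟶ B} {g : B ⟶ C} {h : C ⟶ A⟦(1 : ℤ)⟧}
    {f' : A' ⟶ B'} {g' : B' ⟶ C'} {h' : C' ⟶ A'⟦(1 : ℤ)⟧}
    (hT : Triangle.mk f g h ∈ distTriang T) (a : A' ≅ A) (b : B' ≅ B) (c : C' ≅ C)
    (h₁ : f' ≫ b.hom = a.hom ≫ f) (h₂ : g' ≫ c.hom = b.hom ≫ g)
    (h₃ : h' ≫ a.hom⟦(1 : ℤ)⟧' = c.hom ≫ h) : Triangle.mk f' g' h' ∈ distTriang T :=
  isomorphic_distinguished _ hT _
    (Triangle.isoMk (Triangle.mk f' g' h') (Triangle.mk f g h) a b c h₁ h₂ h₃)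

/-- an automorphism given by a sign -/
noncomputable def signIso (ε : ℤˣ) (A : T) : A ≅ A where
  hom := ε • 𝟙 A
  inv := ε • 𝟙 A
  hom_inv_id := by
    rw [Linear.units_smul_comp, Linear.comp_units_smul, smul_smul, Int.units_mul_self, one_smul,
      Category.id_comp]
  inv_hom_id := by
    rw [Linear.units_smul_comp, Linear.comp_units_smul, smul_smul, Int.units_mul_self, one_smul,
      Category.id_comp]

lemma dt_units {A B C : T} {f : A ⟶ B} {g : B ⟶ C} {h : C ⟶ A⟦(1 : ℤ)⟧}
    (hT : Triangle.mk f g h ∈ distTriang T) (ε : ℤˣ) :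
    Triangle.mk (ε • f) (ε • g) h ∈ distTriang T := by
  refine dt_iso hT (Iso.refl _) (signIso ε B) (Iso.refl _) ?_ ?_ ?_
  · dsimp [signIso]
    rw [Linear.units_smul_comp, Linear.comp_units_smul, smul_smul, Int.units_mul_self, one_smul,
      Category.comp_id, Category.id_comp]
  · dsimp [signIso]
    rw [Category.comp_id, Linear.units_smul_comp, Category.id_comp]
  · dsimp
    rw [CategoryTheory.Functor.map_id, Category.comp_id, Category.id_comp]

lemma dt_shift {A B C : T} {f : A ⟶ B} {g : B ⟶ C} {h : C ⟶ A⟦(1 : ℤ)⟧}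
    (hT : Triangle.mk f g h ∈ distTriang T) (n : ℤ) :
    ∃ h' : C⟦n⟧ ⟶ A⟦n⟧⟦(1 : ℤ)⟧, Triangle.mk (f⟦n⟧') (g⟦n⟧') h' ∈ distTriang T := by
  have h1 : Triangle.mk (n.negOnePow • f⟦n⟧') (n.negOnePow • g⟦n⟧')
    (n.negOnePow • h⟦n⟧' ≫ (shiftFunctorComm T 1 n).hom.app A) ∈ distTriang T :=
    Triangle.shift_distinguished _ hT n
  have h2 := dt_units h1 n.negOnePow
  rw [smul_smul, smul_smul, Int.units_mul_self, one_smul, one_smul] at h2
  exact ⟨_, h2⟩

lemma IsCone.shift {g : S} {A B : T} (h : IsCone g A B) (n : ℤ) : IsCone g (A⟦n⟧) (B⟦n⟧) := by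
  obtain ⟨i, p, hT⟩ := h
  obtain ⟨p', hT'⟩ := dt_shift hT n
  rw [CategoryTheory.Functor.map_smul, CategoryTheory.Functor.map_id] at hT'
  exact ⟨_, _, hT'⟩

lemma IsCone.of_iso {g : S} {A B A' B' : T} (h : IsCone g A B) (e : A' ≅ A) (e' : B' ≅ B) :
    IsCone g A' B' := by
  obtain ⟨i, p, hT⟩ := h
  exact ⟨e.hom ≫ i ≫ e'.inv, e'.hom ≫ p ≫ e.inv⟦(1 : ℤ)⟧', dt_iso hT e e e' (by simp) (by simp)
    (by simp [← CategoryTheory.Functor.map_comp])⟩

lemma IsCone.map {T' : Type*} [Category T'] [Preadditive T'] [HasZeroObject T']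
    [HasShift T' ℤ] [∀ n : ℤ, (shiftFunctor T' n).Additive] [Pretriangulated T']
    [CategoryTheory.Linear S T'] [∀ n : ℤ, Functor.Linear S (shiftFunctor T' n)]
    (F : T ⥤ T') [F.CommShift ℤ] [F.IsTriangulated] [Functor.Linear S F]
    {g : S} {A B : T} (h : IsCone g A B) : IsCone g (F.obj A) (F.obj B) := by
  obtain ⟨i, p, hT⟩ := h
  have : Triangle.mk (F.map (g • 𝟙 A)) (F.map i) (F.map p ≫ (F.commShiftIso (1 : ℤ)).hom.app A) ∈
    distTriang T' := F.map_distinguished _ hT
  rw [CategoryTheory.Functor.map_smul, CategoryTheory.Functor.map_id] at this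
  exact ⟨_, _, this⟩

lemma IsKos.map {T' : Type*} [Category T'] [Preadditive T'] [HasZeroObject T']
    [HasShift T' ℤ] [∀ n : ℤ, (shiftFunctor T' n).Additive] [Pretriangulated T']
    [CategoryTheory.Linear S T'] [∀ n : ℤ, Functor.Linear S (shiftFunctor T' n)]
    (F : T ⥤ T') [F.CommShift ℤ] [F.IsTriangulated] [Functor.Linear S F]
    {l : List S} {A B : T} (h : IsKos l A B) : IsKos l (F.obj A) (F.obj B) := by
  induction l generalizing A with
  | nil => obtain ⟨e⟩ := h; exact ⟨F.mapIso e⟩
  | cons g l ih =>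
    obtain ⟨A', h1, h2⟩ := h
    exact ⟨F.obj A', h1.map F, ih h2⟩

lemma IsKosR.map {T' : Type*} [Category T'] [Preadditive T'] [HasZeroObject T']
    [HasShift T' ℤ] [∀ n : ℤ, (shiftFunctor T' n).Additive] [Pretriangulated T']
    [CategoryTheory.Linear S T'] [∀ n : ℤ, Functor.Linear S (shiftFunctor T' n)]
    (F : T ⥤ T') [F.CommShift ℤ] [F.IsTriangulated] [Functor.Linear S F]
    {l : List S} {A B : T} (h : IsKosR l A B) : IsKosR l (F.obj A) (F.obj B) := by
  induction l generalizing B with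
  | nil => obtain ⟨e⟩ := h; exact ⟨F.mapIso e⟩
  | cons g l ih =>
    obtain ⟨B', h1, h2⟩ := h
    exact ⟨F.obj B', ih h1, h2.map F⟩

lemma IsKosR.shift {l : List S} {A B : T} (h : IsKosR l A B) (n : ℤ) :
    IsKosR l (A⟦n⟧) (B⟦n⟧) := by
  induction l generalizing B with
  | nil => obtain ⟨e⟩ := h; exact ⟨(shiftFunctor T n).mapIso e⟩
  | cons g l ih =>
    obtain ⟨B', h1, h2⟩ := h
    exact ⟨B'⟦n⟧, ih h1, h2.shift n⟩

lemma IsKos.shift {l : List S} {A B : T} (h : IsKos l A B) (n : ℤ) :
    IsKos l (A⟦n⟧) (B⟦n⟧) := by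
  induction l generalizing A with
  | nil => obtain ⟨e⟩ := h; exact ⟨(shiftFunctor T n).mapIso e⟩
  | cons g l ih =>
    obtain ⟨A', h1, h2⟩ := h
    exact ⟨A'⟦n⟧, h1.shift n, ih h2⟩

lemma vanish_iff_of_iso {A A' B B' : T} (e : A ≅ A') (e' : B ≅ B') :
    (∀ f : A ⟶ B, f = 0) ↔ (∀ f : A' ⟶ B', f = 0) := by
  constructor
  · intro h f
    have := h (e.hom ≫ f ≫ e'.inv)
    rw [← cancel_epi e.hom, ← cancel_mono e'.inv]
    simpa using this
  · intro h f
    have := h (e.inv ≫ f ≫ e'.hom)
    rw [← cancel_epi e.inv, ← cancel_mono e'.hom]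
    simpa using this

/-- The Koszul duality trick: vanishing of homs out of an iterated cone is equivalent to
vanishing of homs into an iterated cone. -/
lemma IsKos.vanish_iff {l : List S} {A B G H : T} (hA : IsKos l A B) (hG : IsKosR l G H) :
    (∀ f : B ⟶ G⟦(l.length : ℤ)⟧, f = 0) ↔ (∀ f : A ⟶ H, f = 0) := by
  induction l generalizing A G H with
  | nil =>
    obtain ⟨e⟩ := hA
    obtain ⟨e'⟩ := hG
    exact vanish_iff_of_iso e.symm ((shiftFunctorZero T ℤ).app G ≪≫ e')
  | cons g l ih =>
    obtain ⟨A', h1, h2⟩ := hA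
    obtain ⟨H', h3, h4⟩ := hG
    rw [← IsCone.vanish_iff h1 h4, ← ih h2 (h3.shift (1 : ℤ))]
    refine vanish_iff_of_iso (Iso.refl _) ((shiftFunctorAdd' T 1 (l.length : ℤ) _ ?_).app G)
    simp [add_comm]

lemma dt_isZero₃ {A B C : T} {f : A ⟶ B} {g : B ⟶ C} {h : C ⟶ A⟦(1 : ℤ)⟧}
    (hT : Triangle.mk f g h ∈ distTriang T) [IsIso f] : IsZero C := by
  rw [IsZero.iff_id_eq_zero]
  have hg : g = 0 := by
    rw [← cancel_epi f, dt_zero12 hT, comp_zero]
  obtain ⟨ψ, hψ⟩ := dt_yo3 hT (𝟙 C) (by rw [hg, zero_comp])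
  have hh : h = 0 := by
    have := dt_zero31 hT
    rw [← cancel_mono (f⟦(1 : ℤ)⟧'), this, zero_comp]
  rw [hψ, hh, zero_comp]

lemma IsCone.isZero_of_isIso {g : S} {A B : T} (h : IsCone g A B) [IsIso (g • 𝟙 A)] :
    IsZero B := by
  obtain ⟨i, p, hT⟩ := h
  exact dt_isZero₃ hT

lemma IsCone.isZero_of_isZero {g : S} {A B : T} (h : IsCone g A B) (hA : IsZero A) :
    IsZero B := by
  obtain ⟨i, p, hT⟩ := h
  have : IsIso (g • 𝟙 A) := ⟨0, hA.eq_of_src _ _, hA.eq_of_src _ _⟩
  exact dt_isZero₃ hT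

lemma IsKos.isZero_of_isZero {l : List S} {A B : T} (h : IsKos l A B) (hA : IsZero A) :
    IsZero B := by
  induction l generalizing A with
  | nil => obtain ⟨e⟩ := h; exact hA.of_iso e.symm
  | cons g l ih => obtain ⟨A', h1, h2⟩ := h; exact ih h2 (h1.isZero_of_isZero hA)

lemma IsKos.isZero_of_mem {l : List S} {A B : T} (h : IsKos l A B) {g : S} (hg : g ∈ l)
    (hiso : ∀ A : T, IsIso (g • 𝟙 A)) : IsZero B := by
  induction l generalizing A with
  | nil => simp at hg
  | cons g' l ih =>
    obtain ⟨A', h1, h2⟩ := h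
    rcases List.mem_cons.1 hg with rfl | hg'
    · have := hiso A
      exact h2.isZero_of_isZero h1.isZero_of_isIso
    · exact ih h2 hg'

lemma IsKosR.isZero_of_mem {l : List S} {A B : T} (h : IsKosR l A B) {g : S} (hg : g ∈ l)
    (hiso : ∀ A : T, IsIso (g • 𝟙 A)) : IsZero B := by
  induction l generalizing B with
  | nil => simp at hg
  | cons g' l ih =>
    obtain ⟨B', h1, h2⟩ := h
    rcases List.mem_cons.1 hg with rfl | hg'
    · have := hiso B'
      exact h2.isZero_of_isIso
    · exact h2.isZero_of_isZero (ih h1 hg')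

/-- closure of a property of objects under iterated cones -/
lemma IsKos.prop {l : List S} {A B : T} (h : IsKos l A B) (P : T → Prop)
    (hiso : ∀ {A B : T}, (A ≅ B) → P A → P B)
    (hcone : ∀ {A B : T} (g : S), g ∈ l → IsCone g A B → P A → P B) (hA : P A) : P B := by
  induction l generalizing A with
  | nil => obtain ⟨e⟩ := h; exact hiso e hA
  | cons g l ih =>
    obtain ⟨A', h1, h2⟩ := h
    exact ih h2 (fun g' hg' hc => hcone g' (List.mem_cons_of_mem _ hg') hc)
      (hcone g List.mem_cons_self h1 hA)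

lemma IsKosR.prop {l : List S} {A B : T} (h : IsKosR l A B) (P : T → Prop)
    (hiso : ∀ {A B : T}, (A ≅ B) → P A → P B)
    (hcone : ∀ {A B : T} (g : S), g ∈ l → IsCone g A B → P A → P B) (hA : P A) : P B := by
  induction l generalizing B with
  | nil => obtain ⟨e⟩ := h; exact hiso e hA
  | cons g l ih =>
    obtain ⟨B', h1, h2⟩ := h
    exact hcone g List.mem_cons_self h2
      (ih h1 (fun g' hg' hc => hcone g' (List.mem_cons_of_mem _ hg') hc))

lemma IsKos.of_iso_left {l : List S} {A A' B : T} (h : IsKos l A B) (e : A' ≅ A) :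
    IsKos l A' B := by
  cases l with
  | nil => obtain ⟨e'⟩ := h; exact ⟨e ≪≫ e'⟩
  | cons g l =>
    obtain ⟨C, h1, h2⟩ := h
    exact ⟨C, h1.of_iso e (Iso.refl _), h2⟩

lemma IsKosR.of_iso_left {l : List S} {A A' B : T} (h : IsKosR l A B) (e : A' ≅ A) :
    IsKosR l A' B := by
  induction l generalizing B with
  | nil => obtain ⟨e'⟩ := h; exact ⟨e ≪≫ e'⟩
  | cons g l ih =>
    obtain ⟨C, h1, h2⟩ := h
    exact ⟨C, ih h1, h2⟩

end Kos

end Pool.Agent.Lib.MP_777c16_ag
end

section
open CategoryTheory AlgebraicGeometry Limits TopologicalSpace Opposite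

universe u

set_option linter.unusedVariables false

namespace Pool.Agent.Lib.MP_777c16_ag

variable {X : Scheme.{u}} (x : X)

noncomputable instance stalkModule (M : X.Modules) :
    Module (X.presheaf.stalk x) ↑(TopCat.Presheaf.stalk M.presheaf x) :=
  PresheafOfModules.instModuleCarrierStalkCommRingCatCarrierAbPresheafOpensCarrier
    (R := X.presheaf) M.val x

lemma germ_smul' (M : X.Modules) (U : X.Opens) (hx : x ∈ U) (r : Γ(X, U)) (m : Γ(M, U)) :
    TopCat.Presheaf.germ M.presheaf U x hx (r • m) =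
      (X.presheaf.germ U x hx r • TopCat.Presheaf.germ M.presheaf U x hx m :
        ↑(TopCat.Presheaf.stalk M.presheaf x)) :=
  PresheafOfModules.germ_smul (R := X.presheaf) M.val x U hx r m

/-- simultaneous representatives -/
lemma exists_germ_pair (M : X.Modules) (r : X.presheaf.stalk x)
    (m : ↑(TopCat.Presheaf.stalk M.presheaf x)) :
    ∃ (U : X.Opens) (hx : x ∈ U) (r' : Γ(X, U)) (m' : Γ(M, U)),
      X.presheaf.germ U x hx r' = r ∧ TopCat.Presheaf.germ M.presheaf U x hx m' = m := by
  obtain ⟨U, hU, r', hr'⟩ := X.presheaf.exists_germ_eq r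
  obtain ⟨V, hV, m', hm'⟩ := TopCat.Presheaf.exists_germ_eq M.presheaf m
  refine ⟨U ⊓ V, ⟨hU, hV⟩, X.presheaf.map (homOfLE inf_le_left).op r',
    M.presheaf.map (homOfLE inf_le_right).op m', ?_, ?_⟩
  · rw [← hr']
    exact TopCat.Presheaf.germ_res_apply X.presheaf (homOfLE inf_le_left) x ⟨hU, hV⟩ r'
  · rw [← hm']
    exact TopCat.Presheaf.germ_res_apply M.presheaf (homOfLE inf_le_right) x ⟨hU, hV⟩ m'

/-- The stalk functor with values in modules over the local ring. -/
noncomputable def stalkF : X.Modules ⥤ ModuleCat.{u} (X.presheaf.stalk x) where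
  obj M := ModuleCat.of _ ↑(TopCat.Presheaf.stalk M.presheaf x)
  map {M N} φ := ModuleCat.ofHom
    { toFun := (TopCat.Presheaf.stalkFunctor Ab x).map φ.mapPresheaf
      map_add' := fun a b => map_add (ConcreteCategory.hom
        ((TopCat.Presheaf.stalkFunctor Ab x).map φ.mapPresheaf)) a b
      map_smul' := by
        intro r m
        obtain ⟨U, hx, r', m', rfl, rfl⟩ := exists_germ_pair x M r m
        rw [← germ_smul']
        erw [TopCat.Presheaf.stalkFunctor_map_germ_apply, TopCat.Presheaf.stalkFunctor_map_germ_apply]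
        simp [germ_smul'] }
  map_id M := by
    ext m
    change (ConcreteCategory.hom ((TopCat.Presheaf.stalkFunctor Ab x).map
      (Scheme.Modules.Hom.mapPresheaf (𝟙 M)))) m = m
    have : (Scheme.Modules.Hom.mapPresheaf (𝟙 M)) = 𝟙 _ := rfl
    rw [this, CategoryTheory.Functor.map_id]
    rfl
  map_comp {M N P} f g := by
    ext m
    change (ConcreteCategory.hom ((TopCat.Presheaf.stalkFunctor Ab x).map
      (Scheme.Modules.Hom.mapPresheaf (f ≫ g)))) m = _
    have : (Scheme.Modules.Hom.mapPresheaf (f ≫ g)) =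
      Scheme.Modules.Hom.mapPresheaf f ≫ Scheme.Modules.Hom.mapPresheaf g := rfl
    rw [this, CategoryTheory.Functor.map_comp]
    rfl

/-- the germ map into `stalkF` -/
noncomputable def germF (M : X.Modules) (U : X.Opens) (hx : x ∈ U) (m : Γ(M, U)) :
    (stalkF x).obj M := TopCat.Presheaf.germ M.presheaf U x hx m

lemma stalkF_map_germF {M N : X.Modules} (φ : M ⟶ N) (U : X.Opens) (hx : x ∈ U) (m : Γ(M, U)) :
    ((stalkF x).map φ).hom (germF x M U hx m) = germF x N U hx (φ.app U m) :=
  TopCat.Presheaf.stalkFunctor_map_germ_apply (F := M.presheaf) (G := N.presheaf) U x hx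
    φ.mapPresheaf m

lemma germF_add (M : X.Modules) (U : X.Opens) (hx : x ∈ U) (m n : Γ(M, U)) :
    germF x M U hx (m + n) = germF x M U hx m + germF x M U hx n :=
  map_add (ConcreteCategory.hom (TopCat.Presheaf.germ M.presheaf U x hx)) m n

lemma germF_smul (M : X.Modules) (U : X.Opens) (hx : x ∈ U) (r : Γ(X, U)) (m : Γ(M, U)) :
    germF x M U hx (r • m) = X.presheaf.germ U x hx r • germF x M U hx m :=
  germ_smul' x M U hx r m

lemma germF_res (M : X.Modules) {U V : X.Opens} (i : U ⟶ V) (hx : x ∈ U) (m : Γ(M, V)) :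
    germF x M U hx (M.presheaf.map i.op m) = germF x M V (leOfHom i hx) m :=
  TopCat.Presheaf.germ_res_apply M.presheaf i x hx m

lemma exists_germF (M : X.Modules) (m : (stalkF x).obj M) :
    ∃ (U : X.Opens) (hx : x ∈ U) (m' : Γ(M, U)), germF x M U hx m' = m :=
  TopCat.Presheaf.exists_germ_eq M.presheaf m

lemma exists_germF₂ (M : X.Modules) (r : X.presheaf.stalk x) (m : (stalkF x).obj M) :
    ∃ (U : X.Opens) (hx : x ∈ U) (r' : Γ(X, U)) (m' : Γ(M, U)),
      X.presheaf.germ U x hx r' = r ∧ germF x M U hx m' = m :=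
  exists_germ_pair x M r m

/-- The abelian presheaf underlying the skyscraper sheaf: sections over `U` are functions from
(the lift of) the proposition `x ∈ U` to `N`. -/
noncomputable def skyAb (N : ModuleCat.{u} (X.presheaf.stalk x)) : (X.Opens)ᵒᵖ ⥤ Ab.{u} where
  obj U := AddCommGrpCat.of (PLift (x ∈ U.unop) → N)
  map {_ _} f := AddCommGrpCat.ofHom
    { toFun := fun s h => s ⟨leOfHom f.unop h.down⟩
      map_zero' := rfl
      map_add' := fun _ _ => rfl }
  map_id _ := rfl
  map_comp _ _ := rfl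

lemma skyAb_ext (N : ModuleCat.{u} (X.presheaf.stalk x)) (U : (X.Opens)ᵒᵖ)
    (s t : PLift (x ∈ U.unop) → N) (h : ∀ hx : x ∈ U.unop, s ⟨hx⟩ = t ⟨hx⟩) : s = t := by
  ext ⟨hx⟩; exact h hx

noncomputable instance skyMod (N : ModuleCat.{u} (X.presheaf.stalk x)) (U : (X.Opens)ᵒᵖ) :
    Module (X.ringCatSheaf.obj.obj U) ((skyAb x N).obj U) :=
  letI : ∀ _ : PLift (x ∈ U.unop), Module (X.presheaf.obj U) N := fun h =>
    Module.compHom N (X.presheaf.germ U.unop x h.down).hom
  (inferInstance : Module (X.presheaf.obj U) (PLift (x ∈ U.unop) → N))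

/-- The presheaf of modules underlying the skyscraper sheaf. -/
noncomputable def skyPre (N : ModuleCat.{u} (X.presheaf.stalk x)) :
    PresheafOfModules.{u} X.ringCatSheaf.obj :=
  PresheafOfModules.ofPresheaf (R := X.ringCatSheaf.obj) (skyAb x N) (by
    intro U V f r s
    apply skyAb_ext
    intro h
    change (X.presheaf.germ U.unop x (leOfHom f.unop h) r •
      (show PLift (x ∈ U.unop) → N from s) ⟨leOfHom f.unop h⟩ : N) =
      X.presheaf.germ V.unop x h (X.presheaf.map f r) •
      (show PLift (x ∈ U.unop) → N from s) ⟨leOfHom f.unop h⟩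
    congr 1
    exact (TopCat.Presheaf.germ_res_apply X.presheaf f.unop x h r).symm)

/-- The skyscraper sheaf of modules. -/
noncomputable def skyObj (N : ModuleCat.{u} (X.presheaf.stalk x)) : X.Modules where
  val := skyPre x N
  isSheaf := by
    change TopCat.Presheaf.IsSheaf (skyAb x N)
    rw [TopCat.Presheaf.isSheaf_iff_isSheafUniqueGluing]
    intro ι U sf hsf
    have key : ∀ (i j : ι) (hi : x ∈ U i) (hj : x ∈ U j),
        (show PLift (x ∈ U i) → N from sf i) ⟨hi⟩ = (show PLift (x ∈ U j) → N from sf j) ⟨hj⟩ := by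
      intro i j hi hj
      exact congrFun (hsf i j) ⟨⟨hi, hj⟩⟩
    have hmem : ∀ h : PLift (x ∈ iSup U), ∃ i, x ∈ U i := fun h => Opens.mem_iSup.1 h.down
    refine ⟨fun h => (show PLift (x ∈ U (hmem h).choose) → N from sf _) ⟨(hmem h).choose_spec⟩,
      ?_, ?_⟩
    · intro i
      apply skyAb_ext
      intro hx
      exact key _ _ _ _
    · intro t ht
      apply skyAb_ext
      intro hx
      exact congrFun (ht (hmem ⟨hx⟩).choose) ⟨(hmem ⟨hx⟩).choose_spec⟩

/-- evaluation of a section of the skyscraper sheaf -/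
noncomputable def skyEval (N : ModuleCat.{u} (X.presheaf.stalk x)) {U : X.Opens} (hx : x ∈ U)
    (s : Γ(skyObj x N, U)) : N := (show PLift (x ∈ U) → N from s) ⟨hx⟩

/-- constructor of a section of the skyscraper sheaf -/
noncomputable def skyMk (N : ModuleCat.{u} (X.presheaf.stalk x)) {U : X.Opens}
    (f : x ∈ U → N) : Γ(skyObj x N, U) := (fun h => f h.down : PLift (x ∈ U) → N)

lemma skyEval_skyMk (N : ModuleCat.{u} (X.presheaf.stalk x)) {U : X.Opens} (hx : x ∈ U)
    (f : x ∈ U → N) : skyEval x N hx (skyMk x N f) = f hx := rfl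

lemma sky_ext (N : ModuleCat.{u} (X.presheaf.stalk x)) {U : X.Opens}
    (s t : Γ(skyObj x N, U)) (h : ∀ hx : x ∈ U, skyEval x N hx s = skyEval x N hx t) : s = t :=
  skyAb_ext x N (op U) s t h

lemma skyEval_add (N : ModuleCat.{u} (X.presheaf.stalk x)) {U : X.Opens} (hx : x ∈ U)
    (s t : Γ(skyObj x N, U)) : skyEval x N hx (s + t) = skyEval x N hx s + skyEval x N hx t := rfl

lemma skyEval_smul (N : ModuleCat.{u} (X.presheaf.stalk x)) {U : X.Opens} (hx : x ∈ U)
    (r : Γ(X, U)) (s : Γ(skyObj x N, U)) :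
    skyEval x N hx (r • s) = X.presheaf.germ U x hx r • skyEval x N hx s := rfl

lemma skyEval_res (N : ModuleCat.{u} (X.presheaf.stalk x)) {U V : X.Opens} (i : U ⟶ V)
    (hx : x ∈ U) (s : Γ(skyObj x N, V)) :
    skyEval x N hx ((skyObj x N).presheaf.map i.op s) = skyEval x N (leOfHom i hx) s := rfl

/-- constructor for morphisms of sheaves of modules -/
noncomputable def modHomMk {M N : X.Modules} (f : ∀ U : X.Opens, Γ(M, U) → Γ(N, U))
    (hadd : ∀ U a b, f U (a + b) = f U a + f U b)
    (hsmul : ∀ U (r : Γ(X, U)) a, f U (r • a) = r • f U a)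
    (hres : ∀ {U V : X.Opens} (i : U ⟶ V) (a : Γ(M, V)),
      f U (M.presheaf.map i.op a) = N.presheaf.map i.op (f V a)) : M ⟶ N :=
  ⟨PresheafOfModules.homMk (M₁ := M.val) (M₂ := N.val)
    { app := fun U => AddCommGrpCat.ofHom (AddMonoidHom.mk' (f U.unop) (hadd U.unop))
      naturality := by
        intro U V i
        ext a
        exact hres i.unop a }
    (fun U r m => hsmul U.unop r m)⟩

@[simp] lemma modHomMk_app {M N : X.Modules} (f : ∀ U : X.Opens, Γ(M, U) → Γ(N, U))
    (hadd hsmul hres) (U : X.Opens) (a : Γ(M, U)) :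
    (modHomMk (M := M) (N := N) f hadd hsmul hres).app U a = f U a := rfl

/-- descent out of a stalk, abelian group version -/
noncomputable def stalkDescAb (F : X.Opensᵒᵖ ⥤ Ab.{u}) (A : Ab.{u})
    (f : ∀ (U : X.Opens) (_ : x ∈ U), F.obj (op U) ⟶ A)
    (hres : ∀ {U V : X.Opens} (i : U ⟶ V) (hx : x ∈ U),
      F.map i.op ≫ f U hx = f V (leOfHom i hx)) :
    TopCat.Presheaf.stalk F x ⟶ A :=
  colimit.desc ((OpenNhds.inclusion x).op ⋙ F)
    { pt := A
      ι := { app := fun U => f U.unop.1 U.unop.2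
             naturality := by
              intro U V i
              exact (hres ((OpenNhds.inclusion x).map i.unop) V.unop.2).trans
                (Category.comp_id _).symm } }

lemma germ_stalkDescAb (F : X.Opensᵒᵖ ⥤ Ab.{u}) (A : Ab.{u})
    (f : ∀ (U : X.Opens) (_ : x ∈ U), F.obj (op U) ⟶ A)
    (hres : ∀ {U V : X.Opens} (i : U ⟶ V) (hx : x ∈ U),
      F.map i.op ≫ f U hx = f V (leOfHom i hx)) (U : X.Opens) (hx : x ∈ U) :
    TopCat.Presheaf.germ F U x hx ≫ stalkDescAb x F A f hres = f U hx :=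
  colimit.ι_desc (F := (OpenNhds.inclusion x).op ⋙ F) _ (op ⟨U, hx⟩)

/-- descent out of a stalk, module version -/
noncomputable def stalkDesc (M : X.Modules) (A : ModuleCat.{u} (X.presheaf.stalk x))
    (f : ∀ (U : X.Opens) (_ : x ∈ U), Γ(M, U) → A)
    (hadd : ∀ U hx a b, f U hx (a + b) = f U hx a + f U hx b)
    (hsmul : ∀ U hx (r : Γ(X, U)) a, f U hx (r • a) = X.presheaf.germ U x hx r • f U hx a)
    (hres : ∀ {U V : X.Opens} (i : U ⟶ V) (hx : x ∈ U) (a : Γ(M, V)),
      f U hx (M.presheaf.map i.op a) = f V (leOfHom i hx) a) :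
    (stalkF x).obj M ⟶ A :=
  let g : TopCat.Presheaf.stalk M.presheaf x ⟶ (forget₂ _ Ab).obj A :=
    stalkDescAb x M.presheaf ((forget₂ _ Ab).obj A)
      (fun U hx => AddCommGrpCat.ofHom (AddMonoidHom.mk' (f U hx) (hadd U hx)))
      (fun i hx => by ext a; exact hres i hx a)
  have hg : ∀ (U : X.Opens) (hx : x ∈ U) (a : Γ(M, U)), g (germF x M U hx a) = f U hx a := by
    intro U hx a
    exact congrArg (fun φ => φ a) (germ_stalkDescAb x M.presheaf ((forget₂ _ Ab).obj A)
      (fun U hx => AddCommGrpCat.ofHom (AddMonoidHom.mk' (f U hx) (hadd U hx)))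
      (fun i hx => by ext a; exact hres i hx a) U hx)
  ModuleCat.ofHom
    { toFun := g
      map_add' := fun a b => map_add (ConcreteCategory.hom g) a b
      map_smul' := by
        intro r m
        obtain ⟨U, hx, r', m', rfl, rfl⟩ := exists_germF₂ x M r m
        refine (congrArg (fun z => g z) (germF_smul x M U hx r' m').symm).trans ?_
        exact (hg U hx (r' • m')).trans ((hsmul U hx r' m').trans
          (congrArg (fun z => X.presheaf.germ U x hx r' • z) (hg U hx m').symm)) }

lemma stalkDesc_germF (M : X.Modules) (A : ModuleCat.{u} (X.presheaf.stalk x))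
    (f : ∀ (U : X.Opens) (_ : x ∈ U), Γ(M, U) → A) (hadd hsmul)
    (hres : ∀ {U V : X.Opens} (i : U ⟶ V) (hx : x ∈ U) (a : Γ(M, V)),
      f U hx (M.presheaf.map i.op a) = f V (leOfHom i hx) a)
    (U : X.Opens) (hx : x ∈ U) (a : Γ(M, U)) :
    (stalkDesc x M A f hadd hsmul hres).hom (germF x M U hx a) = f U hx a :=
  congrArg (fun φ => φ a) (germ_stalkDescAb x M.presheaf ((forget₂ _ Ab).obj A)
      (fun U hx => AddCommGrpCat.ofHom (AddMonoidHom.mk' (f U hx) (hadd U hx)))
      (fun i hx => by ext a; exact hres i hx a) U hx)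

lemma stalkF_hom_ext {M : X.Modules} {A : ModuleCat.{u} (X.presheaf.stalk x)}
    {φ ψ : (stalkF x).obj M ⟶ A}
    (h : ∀ (U : X.Opens) (hx : x ∈ U) (m : Γ(M, U)),
      φ.hom (germF x M U hx m) = ψ.hom (germF x M U hx m)) : φ = ψ := by
  ext m
  obtain ⟨U, hx, m, rfl⟩ := exists_germF x M m
  exact h U hx m

/-- The skyscraper functor. -/
noncomputable def skyF : ModuleCat.{u} (X.presheaf.stalk x) ⥤ X.Modules where
  obj N := skyObj x N
  map {N N'} φ := modHomMk (fun U s => skyMk x N' (fun h => φ.hom (skyEval x N h s)))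
    (fun U a b => sky_ext x _ _ _ (fun hx => map_add φ.hom _ _))
    (fun U r a => sky_ext x _ _ _ (fun hx => map_smul φ.hom _ _))
    (fun i a => sky_ext x _ _ _ (fun hx => rfl))
  map_id N := rfl
  map_comp f g := rfl

lemma skyEval_map {N N' : ModuleCat.{u} (X.presheaf.stalk x)} (φ : N ⟶ N') {U : X.Opens}
    (hx : x ∈ U) (s : Γ(skyObj x N, U)) :
    skyEval x N' hx (((skyF x).map φ).app U s) = φ.hom (skyEval x N hx s) := rfl

/-- the hom equivalence of the adjunction -/
noncomputable def stalkSkyEquiv (M : X.Modules) (N : ModuleCat.{u} (X.presheaf.stalk x)) :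
    ((stalkF x).obj M ⟶ N) ≃ (M ⟶ skyObj x N) where
  toFun := fun φ => modHomMk
    (fun U m => skyMk x N (fun h => φ.hom (germF x M U h m)))
    (fun U a b => sky_ext x _ _ _ (fun hx => by
      rw [skyEval_add, skyEval_skyMk, skyEval_skyMk, skyEval_skyMk, germF_add, map_add]))
    (fun U r a => sky_ext x _ _ _ (fun hx => by
      rw [skyEval_smul, skyEval_skyMk, skyEval_skyMk, germF_smul, map_smul]))
    (fun {U V} i a => sky_ext x _ _ _ (fun hx => by
      rw [skyEval_res, skyEval_skyMk, skyEval_skyMk, germF_res]))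
  invFun := fun ψ => stalkDesc x M N (fun U hx m => skyEval x N hx (ψ.app U m))
    (fun U hx a b => by rw [map_add, skyEval_add])
    (fun U hx r a => by rw [Scheme.Modules.Hom.app_smul, skyEval_smul])
    (fun {U V} i hx a => by
      rw [← skyEval_res x N i hx]
      congr 1
      exact congrArg (fun φ => φ a) (ψ.mapPresheaf.naturality i.op))
  left_inv := fun φ => by
    apply stalkF_hom_ext
    intro U hx m
    rw [stalkDesc_germF]
    rfl
  right_inv := fun ψ => by
    apply Scheme.Modules.hom_ext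
    intro U
    ext m
    apply sky_ext
    intro hx
    rw [modHomMk_app, skyEval_skyMk, stalkDesc_germF]

lemma stalkSkyEquiv_symm_germF {M : X.Modules} {N : ModuleCat.{u} (X.presheaf.stalk x)}
    (ψ : M ⟶ skyObj x N) (U : X.Opens) (hx : x ∈ U) (m : Γ(M, U)) :
    ((stalkSkyEquiv x M N).symm ψ).hom (germF x M U hx m) = skyEval x N hx (ψ.app U m) := by
  dsimp only [stalkSkyEquiv, Equiv.coe_fn_symm_mk]
  rw [stalkDesc_germF]
  exact (fun {U V} i hx a => by
      rw [← skyEval_res x N i hx]
      congr 1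
      exact congrArg (fun φ => φ a) (ψ.mapPresheaf.naturality i.op))

/-- The stalk functor is left adjoint to the skyscraper functor. -/
noncomputable def stalkSkyAdj : stalkF x ⊣ skyF x :=
  Adjunction.mkOfHomEquiv
    { homEquiv := stalkSkyEquiv x
      homEquiv_naturality_left_symm := by
        intro M M' N f g
        apply stalkF_hom_ext
        intro U hx m
        rw [ModuleCat.comp_apply]
        erw [stalkF_map_germF, stalkSkyEquiv_symm_germF, stalkSkyEquiv_symm_germF]
        rfl
      homEquiv_naturality_right := by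
        intro M N N' f g
        rfl }

end Pool.Agent.Lib.MP_777c16_ag
end

section
open CategoryTheory AlgebraicGeometry Limits TopologicalSpace Opposite

universe u

set_option linter.unusedVariables false

namespace Pool.Agent.Lib.MP_777c16_ag

variable {X : Scheme.{u}} (x : X)

instance : (stalkF x).IsLeftAdjoint := (stalkSkyAdj x).isLeftAdjoint
instance : (skyF x).IsRightAdjoint := (stalkSkyAdj x).isRightAdjoint

instance skyF_additive : (skyF x).Additive where
  map_add {N N' f g} := by
    apply Scheme.Modules.hom_ext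
    intro U
    ext m
    rfl

instance stalkF_additive : (stalkF x).Additive where
  map_add {M N f g} := by
    apply stalkF_hom_ext
    intro U hx m
    rw [stalkF_map_germF]
    change _ = ((stalkF x).map f).hom (germF x M U hx m) + ((stalkF x).map g).hom (germF x M U hx m)
    rw [stalkF_map_germF, stalkF_map_germF]
    exact germF_add x N U hx _ _

/-- comparison with the abelian group valued stalks -/
noncomputable def stalkFCompForget : stalkF x ⋙ forget₂ (ModuleCat (X.presheaf.stalk x)) Ab ≅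
    SheafOfModules.toSheaf X.ringCatSheaf ⋙ TopCat.Sheaf.forget Ab.{u} X.carrier ⋙
      TopCat.Presheaf.stalkFunctor Ab.{u} x := Iso.refl _

lemma stalkAux : PreservesFiniteLimits (SheafOfModules.toSheaf X.ringCatSheaf ⋙ TopCat.Sheaf.forget Ab.{u} X.carrier ⋙
      TopCat.Presheaf.stalkFunctor Ab.{u} x) :=
  @comp_preservesFiniteLimits _ _ _ _ _ _ (SheafOfModules.toSheaf X.ringCatSheaf)
    (TopCat.Sheaf.forget Ab.{u} X.carrier ⋙ TopCat.Presheaf.stalkFunctor Ab.{u} x) inferInstance
    (TopCat.Sheaf.instPreservesFiniteLimitsCompPresheafForgetStalkFunctor (C := Ab.{u})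
    (X := X.carrier) x)

instance stalkF_preservesFiniteLimits : PreservesFiniteLimits (stalkF x) :=
  haveI : PreservesFiniteLimits (stalkF x ⋙ forget₂ (ModuleCat (X.presheaf.stalk x)) Ab) :=
    @preservesFiniteLimits_of_natIso _ _ _ _ _ _ (stalkFCompForget x).symm (stalkAux x)
  preservesFiniteLimits_of_reflects_of_preserves _ (forget₂ (ModuleCat (X.presheaf.stalk x)) Ab)

instance stalkF_preservesFiniteColimits : PreservesFiniteColimits (stalkF x) := inferInstance

instance skyF_preservesFiniteLimits : PreservesFiniteLimits (skyF x) := inferInstance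

lemma epi_of_surjective {M N : X.Modules} (f : M ⟶ N)
    (h : ∀ U : X.Opens, Function.Surjective (f.app U)) : Epi f := by
  have : Epi ((Scheme.Modules.toPresheaf X).map f) := by
    rw [NatTrans.epi_iff_epi_app]
    intro U
    rw [AddCommGrpCat.epi_iff_surjective]
    exact h U.unop
  exact (Scheme.Modules.toPresheaf X).epi_of_epi_map this

instance skyF_preservesEpi : (skyF x).PreservesEpimorphisms where
  preserves {N N'} f hf := by
    apply epi_of_surjective
    intro U s
    have hf' : Function.Surjective f.hom := (ModuleCat.epi_iff_surjective f).1 hf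
    refine ⟨skyMk x N (fun h => (hf' (skyEval x N' h s)).choose), ?_⟩
    apply sky_ext
    intro hx
    exact (hf' (skyEval x N' hx s)).choose_spec

instance skyF_preservesFiniteColimits : PreservesFiniteColimits (skyF x) := by
  have : (skyF x).PreservesHomology :=
    (skyF x).preservesHomology_of_preservesEpis_and_kernels
  exact (skyF x).preservesFiniteColimits_of_preservesHomology

end Pool.Agent.Lib.MP_777c16_ag
end

section
open CategoryTheory Limits ZeroObject

universe w₁ w₂ w₃ v₁ v₂ v₃ u₁ u₂ u₃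

set_option linter.unusedVariables false

namespace Pool.Agent.Lib.MP_777c16_ag

variable {C₁ : Type u₁} [Category.{v₁} C₁] [Abelian C₁]
  {C₂ : Type u₂} [Category.{v₂} C₂] [Abelian C₂]
  {C₃ : Type u₃} [Category.{v₃} C₃] [Abelian C₃]

section adj

variable {G : C₁ ⥤ C₂} {F : C₂ ⥤ C₁} (adj : G ⊣ F) [G.Additive] [F.Additive]

/-- The adjunction on cochain complexes induced by an adjunction of additive functors. -/
noncomputable def adjComplex :
    G.mapHomologicalComplex (ComplexShape.up ℤ) ⊣ F.mapHomologicalComplex (ComplexShape.up ℤ) :=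
  Adjunction.mkOfUnitCounit
    { unit :=
        { app := fun K =>
            { f := fun i => adj.unit.app (K.X i)
              comm' := fun i j _ => (adj.unit.naturality (K.d i j)).symm }
          naturality := fun K L f => by
            ext i
            exact adj.unit.naturality (f.f i) }
      counit :=
        { app := fun K =>
            { f := fun i => adj.counit.app (K.X i)
              comm' := fun i j _ => (adj.counit.naturality (K.d i j)).symm }
          naturality := fun K L f => by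
            ext i
            exact adj.counit.naturality (f.f i) }
      left_triangle := by
        ext K i
        simp
        exact adj.left_triangle_components (K.X i)
      right_triangle := by
        ext K i
        simp
        exact adj.right_triangle_components (K.X i) }

@[simp] lemma adjComplex_unit_app_f (K : CochainComplex C₁ ℤ) (i : ℤ) :
    ((adjComplex adj).unit.app K).f i = adj.unit.app (K.X i) := rfl

@[simp] lemma adjComplex_counit_app_f (K : CochainComplex C₂ ℤ) (i : ℤ) :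
    ((adjComplex adj).counit.app K).f i = adj.counit.app (K.X i) := rfl

variable [HasDerivedCategory.{w₁} C₁] [HasDerivedCategory.{w₂} C₂]
  [PreservesFiniteLimits G] [PreservesFiniteColimits G]
  [PreservesFiniteLimits F] [PreservesFiniteColimits F]

noncomputable instance catCommSqDerived : CatCommSq (G.mapHomologicalComplex (ComplexShape.up ℤ)) DerivedCategory.Q
  DerivedCategory.Q G.mapDerivedCategory := ⟨G.mapDerivedCategoryFactors.symm⟩

/-- The adjunction on derived categories induced by an adjunction of exact functors. -/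
noncomputable def adjDerived : G.mapDerivedCategory ⊣ F.mapDerivedCategory :=
  (adjComplex adj).localization DerivedCategory.Q
    (HomologicalComplex.quasiIso C₁ (ComplexShape.up ℤ)) DerivedCategory.Q
    (HomologicalComplex.quasiIso C₂ (ComplexShape.up ℤ)) G.mapDerivedCategory F.mapDerivedCategory

/-- If the counit of the adjunction is an isomorphism, so is the derived counit. -/
lemma isIso_adjDerived_counit [IsIso adj.counit] : IsIso (adjDerived adj).counit := by
  rw [NatTrans.isIso_iff_isIso_app]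
  intro K
  suffices ∀ K : CochainComplex C₂ ℤ, IsIso ((adjDerived adj).counit.app (DerivedCategory.Q.obj K)) by
    have e := DerivedCategory.Q.objObjPreimageIso K
    have h := this (DerivedCategory.Q.objPreimage K)
    exact (NatTrans.isIso_app_iff_of_iso (adjDerived adj).counit e).1 h
  intro K
  have : IsIso ((adjComplex adj).counit.app K) := by
    have : ∀ i, IsIso (((adjComplex adj).counit.app K).f i) := fun i => by
      rw [adjComplex_counit_app_f]; exact NatIso.isIso_app_of_isIso adj.counit (K.X i)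
    exact HomologicalComplex.Hom.isIso_of_components _
  dsimp only [adjDerived]
  rw [Adjunction.localization_counit_app]
  infer_instance

lemma isIso_adjDerived_unit [IsIso adj.unit] : IsIso (adjDerived adj).unit := by
  rw [NatTrans.isIso_iff_isIso_app]
  intro K
  suffices ∀ K : CochainComplex C₁ ℤ, IsIso ((adjDerived adj).unit.app (DerivedCategory.Q.obj K)) by
    have e := DerivedCategory.Q.objObjPreimageIso K
    have h := this (DerivedCategory.Q.objPreimage K)
    exact (NatTrans.isIso_app_iff_of_iso (adjDerived adj).unit e).1 h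
  intro K
  have : IsIso ((adjComplex adj).unit.app K) := by
    have : ∀ i, IsIso (((adjComplex adj).unit.app K).f i) := fun i => by
      rw [adjComplex_unit_app_f]; exact NatIso.isIso_app_of_isIso adj.unit (K.X i)
    exact HomologicalComplex.Hom.isIso_of_components _
  dsimp only [adjDerived]
  rw [Adjunction.localization_unit_app]
  infer_instance

end adj

section homology

variable [HasDerivedCategory.{w₁} C₁] [HasDerivedCategory.{w₂} C₂] [HasDerivedCategory.{w₃} C₃]

lemma isZero_iff_homology (K : DerivedCategory C₁) :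
    IsZero K ↔ ∀ n : ℤ, IsZero ((DerivedCategory.homologyFunctor C₁ n).obj K) := by
  constructor
  · intro h n
    exact Functor.map_isZero _ h
  · intro h
    let f : K ⟶ 0 := 0
    have : IsIso f := by
      rw [DerivedCategory.isIso_iff]
      intro n
      exact isIso_of_source_target_iso_zero _ (h n).isoZero
        ((DerivedCategory.homologyFunctor C₁ n).map_isZero (isZero_zero _)).isoZero
    exact (isZero_zero _).of_iso (asIso f)

variable (F : C₁ ⥤ C₂) [F.Additive] [PreservesFiniteLimits F] [PreservesFiniteColimits F]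

/-- An exact functor commutes with homology (on objects of the derived category). -/
lemma nonempty_homology_mapDerived (K : DerivedCategory C₁) (n : ℤ) :
    Nonempty ((DerivedCategory.homologyFunctor C₂ n).obj (F.mapDerivedCategory.obj K) ≅
      F.obj ((DerivedCategory.homologyFunctor C₁ n).obj K)) := by
  suffices ∀ K : CochainComplex C₁ ℤ, Nonempty ((DerivedCategory.homologyFunctor C₂ n).obj
      (F.mapDerivedCategory.obj (DerivedCategory.Q.obj K)) ≅
      F.obj ((DerivedCategory.homologyFunctor C₁ n).obj (DerivedCategory.Q.obj K))) by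
    have e := DerivedCategory.Q.objObjPreimageIso K
    obtain ⟨e'⟩ := this (DerivedCategory.Q.objPreimage K)
    exact ⟨(DerivedCategory.homologyFunctor C₂ n).mapIso (F.mapDerivedCategory.mapIso e.symm) ≪≫
      e' ≪≫ F.mapIso ((DerivedCategory.homologyFunctor C₁ n).mapIso e)⟩
  intro K
  exact ⟨(DerivedCategory.homologyFunctor C₂ n).mapIso (F.mapDerivedCategoryFactors.app K) ≪≫
    (DerivedCategory.homologyFunctorFactors C₂ n).app _ ≪≫
    (ShortComplex.mapHomologyIso (K.sc n) F) ≪≫
    F.mapIso ((DerivedCategory.homologyFunctorFactors C₁ n).app K).symm⟩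

lemma isZero_mapDerived_iff (K : DerivedCategory C₁) :
    IsZero (F.mapDerivedCategory.obj K) ↔
      ∀ n : ℤ, IsZero (F.obj ((DerivedCategory.homologyFunctor C₁ n).obj K)) := by
  rw [isZero_iff_homology]
  refine forall_congr' fun n => ?_
  obtain ⟨e⟩ := nonempty_homology_mapDerived F K n
  exact e.isZero_iff

variable (G : C₂ ⥤ C₃) [G.Additive] [PreservesFiniteLimits G] [PreservesFiniteColimits G]

/-- the derived functor of a composition of exact functors -/
noncomputable def mapDerivedComp [PreservesFiniteLimits (F ⋙ G)]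
    [PreservesFiniteColimits (F ⋙ G)] :
    (F ⋙ G).mapDerivedCategory ≅ F.mapDerivedCategory ⋙ G.mapDerivedCategory :=
  letI : Localization.Lifting DerivedCategory.Q
      (HomologicalComplex.quasiIso C₁ (ComplexShape.up ℤ))
      ((F ⋙ G).mapHomologicalComplex _ ⋙ DerivedCategory.Q)
      (F.mapDerivedCategory ⋙ G.mapDerivedCategory) :=
    ⟨(Functor.associator _ _ _).symm ≪≫
      Functor.isoWhiskerRight F.mapDerivedCategoryFactors _ ≪≫
      Functor.associator _ _ _ ≪≫
      Functor.isoWhiskerLeft _ G.mapDerivedCategoryFactors ≪≫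
      (Functor.associator _ _ _).symm⟩
  Localization.liftNatIso DerivedCategory.Q
    (HomologicalComplex.quasiIso C₁ (ComplexShape.up ℤ))
    ((F ⋙ G).mapHomologicalComplex _ ⋙ DerivedCategory.Q)
    ((F ⋙ G).mapHomologicalComplex _ ⋙ DerivedCategory.Q) _ _ (Iso.refl _)

end homology

end Pool.Agent.Lib.MP_777c16_ag
end

section
open CategoryTheory AlgebraicGeometry Limits TopologicalSpace Opposite

universe u

set_option linter.unusedVariables false

namespace Pool.Agent.Lib.MP_777c16_ag

section basics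

variable {X : Scheme.{u}}

lemma section_eq_zero {M : X.Modules} (hM : IsZero M) (V : X.Opens) (s : Γ(M, V)) : s = 0 := by
  have h : (𝟙 M : M ⟶ M) = 0 := hM.eq_of_src _ _
  have h2 : (𝟙 M : M ⟶ M).app V s = (0 : M ⟶ M).app V s := by rw [h]
  exact h2

lemma isZero_of_sections {M : X.Modules} (h : ∀ (V : X.Opens) (s : Γ(M, V)), s = 0) :
    IsZero M := by
  rw [IsZero.iff_id_eq_zero]
  apply Scheme.Modules.hom_ext
  intro V
  ext s
  exact (h V _).trans (h V _).symm

lemma isZero_iff_stalks (M : X.Modules) : IsZero M ↔ ∀ x : X, IsZero ((stalkF x).obj M) := by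
  constructor
  · intro h x
    exact (stalkF x).map_isZero h
  · intro h
    have h1 : IsZero ((SheafOfModules.toSheaf X.ringCatSheaf).obj M) := by
      refine (TopCat.Sheaf.isZero_iff_stalkFunctor_obj_isZero _).2 ?_
      intro x
      exact (forget₂ (ModuleCat (X.presheaf.stalk x)) Ab).map_isZero (h x)
    apply isZero_of_sections
    intro V s
    have h2 : (𝟙 ((SheafOfModules.toSheaf X.ringCatSheaf).obj M)) = 0 := h1.eq_of_src _ _
    have h3 := congrArg (fun φ => φ.hom.app (op V) s) h2
    exact h3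

end basics

variable {U X : Scheme.{u}} (f : U ⟶ X) [IsOpenImmersion f]

/-- Extension by zero along an open immersion. -/
noncomputable def shriek : U.Modules ⥤ X.Modules :=
  (Scheme.Modules.restrictFunctor f).leftAdjoint

/-- Extension by zero is left adjoint to restriction. -/
noncomputable def shriekAdj : shriek f ⊣ Scheme.Modules.restrictFunctor f :=
  Adjunction.ofIsRightAdjoint (Scheme.Modules.restrictFunctor f)

instance shriek_isLeftAdjoint : (shriek f).IsLeftAdjoint := (shriekAdj f).isLeftAdjoint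

instance shriek_additive : (shriek f).Additive := (shriekAdj f).left_adjoint_additive

instance shriek_preservesFiniteColimits : PreservesFiniteColimits (shriek f) := inferInstance

instance shriek_unit_isIso : IsIso (shriekAdj f).unit := by
  have := Adjunction.Triple.isIso_unit_iff_isIso_counit
    (F := shriek f) (G := Scheme.Modules.restrictFunctor f) (H := Scheme.Modules.pushforward f)
    ⟨shriekAdj f, Scheme.Modules.restrictAdjunction f⟩
  exact this.2 inferInstance

/-- stalks of the extension by zero vanish outside of the range -/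
lemma isZero_stalk_shriek {z : X} (hz : z ∉ f.opensRange) (M : U.Modules) :
    IsZero ((stalkF z).obj ((shriek f).obj M)) := by
  rw [IsZero.iff_id_eq_zero]
  apply (((shriekAdj f).comp (stalkSkyAdj z)).homEquiv _ _).injective
  apply Scheme.Modules.hom_ext
  intro V
  ext s
  apply sky_ext
  intro hx
  exact absurd (f.image_le_opensRange _ hx) hz

lemma isZero_stalk_of_restrict {N : X.Modules}
    (hN : IsZero ((Scheme.Modules.restrictFunctor f).obj N)) {z : X} (hz : z ∈ f.opensRange) :
    IsZero ((stalkF z).obj N) := by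
  rw [IsZero.iff_id_eq_zero]
  apply stalkF_hom_ext
  intro V hx m
  have hz' : z ∈ f ''ᵁ (f ⁻¹ᵁ V) := by
    obtain ⟨y, rfl⟩ := hz
    exact ⟨y, hx, rfl⟩
  rw [← germF_res z N (homOfLE (f.image_preimage_le V)) hz']
  have : N.presheaf.map (homOfLE (f.image_preimage_le V)).op m = 0 :=
    section_eq_zero hN (f ⁻¹ᵁ V) _
  rw [this]
  have h0 : germF z N (f ''ᵁ (f ⁻¹ᵁ V)) hz' 0 = 0 := by
    exact map_zero (ConcreteCategory.hom (TopCat.Presheaf.germ N.presheaf _ z hz'))
  rw [h0, map_zero, map_zero]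

/-- a morphism whose restriction is an isomorphism is an isomorphism on stalks -/
lemma isIso_stalk_of_restrict {M N : X.Modules} (φ : M ⟶ N)
    (hφ : IsIso ((Scheme.Modules.restrictFunctor f).map φ)) {z : X} (hz : z ∈ f.opensRange) :
    IsIso ((stalkF z).map φ) := by
  obtain ⟨y, rfl⟩ := hz
  have h1 : IsIso ((Scheme.Modules.restrictFunctor f ⋙ Scheme.Modules.toPresheaf _ ⋙
    TopCat.Presheaf.stalkFunctor _ y).map φ) :=
    @Functor.map_isIso _ _ _ _ _ _ (Scheme.Modules.toPresheaf _ ⋙
      TopCat.Presheaf.stalkFunctor _ y) ((Scheme.Modules.restrictFunctor f).map φ) hφ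
  have h2 := (NatIso.isIso_map_iff (Scheme.Modules.restrictStalkNatIso f y) φ).1 h1
  have h3 : IsIso ((forget₂ (ModuleCat (X.presheaf.stalk (f y))) Ab).map ((stalkF (f y)).map φ)) :=
    h2
  exact isIso_of_reflects_iso _ (forget₂ (ModuleCat (X.presheaf.stalk (f y))) Ab)

lemma isIso_restrict_shriek_counit (N : X.Modules) :
    IsIso ((Scheme.Modules.restrictFunctor f).map ((shriekAdj f).counit.app N)) := by
  have h := (shriekAdj f).right_triangle_components N
  have h2 : (Scheme.Modules.restrictFunctor f).map ((shriekAdj f).counit.app N) =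
      inv ((shriekAdj f).unit.app ((Scheme.Modules.restrictFunctor f).obj N)) :=
    IsIso.eq_inv_of_hom_inv_id h
  rw [h2]
  infer_instance

lemma isIso_stalk_shriek_counit (N : X.Modules) {z : X} (hz : z ∈ f.opensRange) :
    IsIso ((stalkF z).map ((shriekAdj f).counit.app N)) :=
  isIso_stalk_of_restrict f _ (isIso_restrict_shriek_counit f N) hz

instance shriek_preservesMono : (shriek f).PreservesMonomorphisms where
  preserves {A B} i hi := by
    rw [Preadditive.mono_iff_isZero_kernel, isZero_iff_stalks]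
    intro z
    by_cases hz : z ∈ f.opensRange
    · apply isZero_stalk_of_restrict f _ hz
      have hm : Mono ((Scheme.Modules.restrictFunctor f).map (kernel.ι ((shriek f).map i))) :=
        inferInstance
      have hm2 : Mono ((Scheme.Modules.restrictFunctor f).map ((shriek f).map i)) := by
        have h3 := (shriekAdj f).unit.naturality i
        have h4 : (Scheme.Modules.restrictFunctor f).map ((shriek f).map i) =
          inv ((shriekAdj f).unit.app A) ≫ i ≫ (shriekAdj f).unit.app B := by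
          rw [IsIso.eq_inv_comp]
          exact h3.symm
        rw [h4]
        infer_instance
      rw [IsZero.iff_id_eq_zero]
      rw [← cancel_mono ((Scheme.Modules.restrictFunctor f).map (kernel.ι ((shriek f).map i))),
        ← cancel_mono ((Scheme.Modules.restrictFunctor f).map ((shriek f).map i))]
      rw [Category.id_comp, ← Functor.map_comp, kernel.condition]
      simp
    · have h0 : IsZero ((stalkF z).obj ((shriek f).obj A)) := isZero_stalk_shriek f hz A
      have hm : Mono ((stalkF z).map (kernel.ι ((shriek f).map i))) := inferInstance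
      rw [IsZero.iff_id_eq_zero, ← cancel_mono ((stalkF z).map (kernel.ι ((shriek f).map i)))]
      exact h0.eq_of_tgt _ _

instance shriek_preservesHomology : (shriek f).PreservesHomology :=
  (shriek f).preservesHomology_of_preservesMonos_and_cokernels

instance shriek_preservesFiniteLimits : PreservesFiniteLimits (shriek f) :=
  (shriek f).preservesFiniteLimits_of_preservesHomology

end Pool.Agent.Lib.MP_777c16_ag
end

section
open CategoryTheory Limits Pretriangulated RingTheory.Sequence Pointwise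

universe u

set_option linter.unusedVariables false
set_option linter.unusedSectionVars false

namespace Pool.Agent.Lib.MP_777c16_ag

section

variable {R : Type u} [CommRing R]

/-- the quotient complex -/
noncomputable def quotCx (g : R) (L : CochainComplex (ModuleCat.{u} R) ℤ) :
    CochainComplex (ModuleCat.{u} R) ℤ where
  X i := ModuleCat.of R (QuotSMulTop g (L.X i))
  d i j := ModuleCat.ofHom (QuotSMulTop.map g (L.d i j).hom)
  shape i j h := by
    rw [L.shape i j h]
    ext1
    exact LinearMap.map_zero (QuotSMulTop.map g (M := L.X i) (M' := L.X j))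
  d_comp_d' i j k _ _ := by
    ext1
    rw [ModuleCat.hom_comp, ModuleCat.hom_ofHom, ModuleCat.hom_ofHom, ← QuotSMulTop.map_comp,
      ← ModuleCat.hom_comp, L.d_comp_d]
    exact LinearMap.map_zero (QuotSMulTop.map g (M := L.X i) (M' := L.X k))

/-- the projection to the quotient complex -/
noncomputable def quotCxπ (g : R) (L : CochainComplex (ModuleCat.{u} R) ℤ) : L ⟶ quotCx g L where
  f i := ModuleCat.ofHom (Submodule.mkQ (g • (⊤ : Submodule R (L.X i))))
  comm' i j _ := by
    ext1
    exact QuotSMulTop.map_comp_mkQ g (L.d i j).hom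

lemma quotCxπ_zero (g : R) (L : CochainComplex (ModuleCat.{u} R) ℤ) :
    (g • 𝟙 L) ≫ quotCxπ g L = 0 := by
  ext i : 1
  exact (ModuleCat.smulShortComplex (L.X i) g).zero

lemma quotCx_shortExact (g : R) (L : CochainComplex (ModuleCat.{u} R) ℤ)
    (hL : ∀ i, IsSMulRegular (L.X i) g) :
    (ShortComplex.mk (g • 𝟙 L) (quotCxπ g L) (quotCxπ_zero g L)).ShortExact := by
  apply HomologicalComplex.shortExact_of_degreewise_shortExact
  intro i
  exact (hL i).smulShortComplex_shortExact

variable [HasDerivedCategory (ModuleCat.{u} R)]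

lemma isCone_quotCx (g : R) (L : CochainComplex (ModuleCat.{u} R) ℤ)
    (hL : ∀ i, IsSMulRegular (L.X i) g) :
    IsCone g (DerivedCategory.Q.obj L) (DerivedCategory.Q.obj (quotCx g L)) := by
  have h := DerivedCategory.triangleOfSES_distinguished (quotCx_shortExact g L hL)
  have h1 : DerivedCategory.triangleOfSES (quotCx_shortExact g L hL) =
    Triangle.mk (DerivedCategory.Q.map (g • 𝟙 L)) (DerivedCategory.Q.map (quotCxπ g L))
      (DerivedCategory.triangleOfSESδ (quotCx_shortExact g L hL)) := rfl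
  rw [h1, Functor.map_smul, CategoryTheory.Functor.map_id] at h
  exact ⟨_, _, h⟩

end

section

variable {S : Type*} [CommRing S] {T : Type*} [Category T] [Preadditive T] [HasZeroObject T]
  [HasShift T ℤ] [∀ n : ℤ, (shiftFunctor T n).Additive] [Pretriangulated T]
  [CategoryTheory.Linear S T] [∀ n : ℤ, Functor.Linear S (shiftFunctor T n)]

lemma IsCone.unique {g : S} {A B B' : T} (h : IsCone g A B) (h' : IsCone g A B') :
    Nonempty (B ≅ B') := by
  obtain ⟨i, p, hT⟩ := h
  obtain ⟨i', p', hT'⟩ := h'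
  exact ⟨Triangle.π₃.mapIso (isoTriangleOfIso₁₂ _ _ hT hT' (Iso.refl A) (Iso.refl A)
    ((Category.comp_id (g • 𝟙 A)).trans (Category.id_comp (g • 𝟙 A)).symm))⟩

lemma isKosR_cons_append {l : List S} {g : S} {A A' B : T} (h : IsCone g A A')
    (h2 : IsKosR l A' B) : IsKosR (l ++ [g]) A B := by
  induction l generalizing B with
  | nil =>
    obtain ⟨e⟩ := h2
    exact ⟨A, ⟨Iso.refl _⟩, h.of_iso (Iso.refl _) e.symm⟩
  | cons g' l ih =>
    obtain ⟨B', h3, h4⟩ := h2
    exact ⟨B', ih h3, h4⟩

lemma isKos_append_singleton {l : List S} {g : S} {A A' B : T} (h : IsKos l A A')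
    (h2 : IsCone g A' B) : IsKos (l ++ [g]) A B := by
  induction l generalizing A with
  | nil =>
    obtain ⟨e⟩ := h
    exact ⟨B, h2.of_iso e (Iso.refl _), ⟨Iso.refl _⟩⟩
  | cons g' l ih =>
    obtain ⟨C, h3, h4⟩ := h
    exact ⟨C, h3, ih h4⟩

lemma IsKosR.isKos_reverse {l : List S} {A B : T} (h : IsKosR l A B) : IsKos l.reverse A B := by
  induction l generalizing B with
  | nil => exact h
  | cons g l ih =>
    obtain ⟨B', h1, h2⟩ := h
    rw [List.reverse_cons]
    exact isKos_append_singleton (ih h1) h2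

end

section

variable {R : Type u} [CommRing R] [HasDerivedCategory (ModuleCat.{u} R)]

/-- The Koszul object of a complex on which the sequence is weakly regular is the quotient. -/
lemma IsKos.exists_quotient {l : List R} {L : CochainComplex (ModuleCat.{u} R) ℤ}
    {B : DerivedCategory (ModuleCat.{u} R)} (h : IsKos l (DerivedCategory.Q.obj L) B)
    (hL : ∀ i, IsWeaklyRegular (L.X i) l) :
    ∃ (L' : CochainComplex (ModuleCat.{u} R) ℤ) (π : L ⟶ L'),
      Nonempty (B ≅ DerivedCategory.Q.obj L') ∧ (∀ i, Function.Surjective (π.f i).hom) ∧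
      (∀ i, Nontrivial (L.X i) → Module.Finite R (L.X i) → (IsLocalRing R) →
        (∀ g ∈ l, g ∈ Ring.jacobson R) → Nontrivial (L'.X i)) := by
  induction l generalizing L B with
  | nil =>
    obtain ⟨e⟩ := h
    exact ⟨L, 𝟙 L, ⟨e.symm⟩, fun i => Function.surjective_id, fun i h _ _ _ => h⟩
  | cons g l ih =>
    obtain ⟨A', h1, h2⟩ := h
    have hL1 : ∀ i, IsSMulRegular (L.X i) g := fun i =>
      ((isWeaklyRegular_cons_iff _ _ _).1 (hL i)).1
    have hL2 : ∀ i, IsWeaklyRegular ((quotCx g L).X i) l := fun i =>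
      ((isWeaklyRegular_cons_iff _ _ _).1 (hL i)).2
    obtain ⟨e⟩ := (isCone_quotCx g L hL1).unique h1
    obtain ⟨L', π, hB, hπ, hn⟩ := ih (h2.of_iso_left e) hL2
    refine ⟨L', quotCxπ g L ≫ π, hB, fun i => ?_, fun i h1 h3 h4 h5 => ?_⟩
    · exact (hπ i).comp (Submodule.mkQ_surjective _)
    · have h6 : g ∈ IsLocalRing.maximalIdeal R := by
        rw [← IsLocalRing.ringJacobson_eq_maximalIdeal]
        exact h5 g List.mem_cons_self
      refine hn i ?_ ?_ h4 (fun g' hg' => h5 g' (List.mem_cons_of_mem _ hg'))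
      · exact nontrivial_quotSMulTop_of_mem_maximalIdeal (L.X i) h6
      · exact Module.Finite.quotient _ _

end

end Pool.Agent.Lib.MP_777c16_ag
end

section
open CategoryTheory Limits Pretriangulated RingTheory.Sequence Pointwise HomologicalComplex

universe u

set_option linter.unusedVariables false
set_option linter.unusedSectionVars false

namespace Pool.Agent.Lib.MP_777c16_ag

section kproj

variable {C : Type*} [Category C] [Abelian C] [HasDerivedCategory C]

lemma exists_chain_map (F L : CochainComplex C ℤ) [F.IsKProjective]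
    (φ : DerivedCategory.Q.obj F ⟶ DerivedCategory.Q.obj L) :
    ∃ ψ : F ⟶ L, DerivedCategory.Q.map ψ = φ := by
  obtain ⟨g, hg⟩ := (CochainComplex.IsKProjective.Qh_map_bijective F
    ((HomotopyCategory.quotient _ _).obj L)).surjective
    ((DerivedCategory.quotientCompQhIso C).hom.app F ≫ φ ≫
      (DerivedCategory.quotientCompQhIso C).inv.app L)
  obtain ⟨ψ, rfl⟩ := (HomotopyCategory.quotient _ _).map_surjective g
  refine ⟨ψ, ?_⟩
  rw [← cancel_epi ((DerivedCategory.quotientCompQhIso C).hom.app F),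
    ← DerivedCategory.quotientCompQhIso_hom_naturality, hg]
  simp

lemma homotopy_of_map_eq_zero {F L : CochainComplex C ℤ} [F.IsKProjective] (ψ : F ⟶ L)
    (h : DerivedCategory.Q.map ψ = 0) : Nonempty (Homotopy ψ 0) := by
  have h1 : DerivedCategory.Qh.map ((HomotopyCategory.quotient _ _).map ψ) =
      DerivedCategory.Qh.map ((HomotopyCategory.quotient C (ComplexShape.up ℤ)).map (0 : F ⟶ L)) := by
    rw [← cancel_mono ((DerivedCategory.quotientCompQhIso C).hom.app L),
      DerivedCategory.quotientCompQhIso_hom_naturality,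
      DerivedCategory.quotientCompQhIso_hom_naturality, h, Functor.map_zero]
  have h2 := (CochainComplex.IsKProjective.Qh_map_bijective F
    ((HomotopyCategory.quotient _ _).obj L)).injective h1
  exact ⟨HomotopyCategory.homotopyOfEq _ _ h2⟩

end kproj

section

variable {R : Type u} [CommRing R]

/-- Bounded complexes of finitely generated projective modules. -/
structure IsGoodCx (F : CochainComplex (ModuleCat.{u} R) ℤ) (a b : ℤ) : Prop where
  fin : ∀ i, Module.Finite R (F.X i)
  proj : ∀ i, Module.Projective R (F.X i)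
  ge : F.IsStrictlyGE a
  le : F.IsStrictlyLE b

lemma IsGoodCx.isKProjective {F : CochainComplex (ModuleCat.{u} R) ℤ} {a b : ℤ}
    (h : IsGoodCx F a b) : F.IsKProjective := by
  have := h.le
  have h2 := h.proj
  have : ∀ n, Projective (F.X n) := fun n => inferInstance
  exact CochainComplex.isKProjective_of_projective F b

/-- opcycles of a split monomorphism -/
lemma opcycles_of_split (F : CochainComplex (ModuleCat.{u} R) ℤ) (a : ℤ)
    (s : F.X (a + 1) ⟶ F.X a) (hs : F.d a (a + 1) ≫ s = 𝟙 _) [Module.Finite R (F.X (a + 1))]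
    [Module.Projective R (F.X (a + 1))] :
    Module.Finite R (F.opcycles (a + 1)) ∧ Module.Projective R (F.opcycles (a + 1)) := by
  let t : F.opcycles (a + 1) ⟶ F.X (a + 1) :=
    F.descOpcycles (𝟙 _ - s ≫ F.d a (a + 1)) a (by simp) (by
      rw [Preadditive.comp_sub, Category.comp_id, reassoc_of% hs, sub_self])
  have ht : t ≫ F.pOpcycles (a + 1) = 𝟙 _ := by
    rw [← cancel_epi (F.pOpcycles (a + 1))]
    rw [HomologicalComplex.p_descOpcycles_assoc, Preadditive.sub_comp, Category.assoc,
      HomologicalComplex.d_pOpcycles]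
    simp
  constructor
  · exact Module.Finite.of_surjective (F.pOpcycles (a + 1)).hom
      ((ModuleCat.epi_iff_surjective _).1 inferInstance)
  · refine Module.Projective.of_split t.hom (F.pOpcycles (a + 1)).hom ?_
    rw [← ModuleCat.hom_comp, ht]
    rfl

lemma IsGoodCx.truncGE {F : CochainComplex (ModuleCat.{u} R) ℤ} {a b : ℤ}
    (h : IsGoodCx F a b) (s : F.X (a + 1) ⟶ F.X a) (hs : F.d a (a + 1) ≫ s = 𝟙 _) :
    IsGoodCx (F.truncGE (a + 1)) (a + 1) b ∧ QuasiIso (F.πTruncGE (a + 1)) := by
  have := h.ge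
  have := h.le
  have h1 := h.fin (a + 1)
  have h2 := h.proj (a + 1)
  obtain ⟨h3, h4⟩ := opcycles_of_split F a s hs
  refine ⟨⟨fun i => ?_, fun i => ?_, inferInstance, inferInstance⟩, ?_⟩
  · rcases lt_trichotomy i (a + 1) with hi | rfl | hi
    · have : Subsingleton ((F.truncGE (a + 1)).X i) :=
        ModuleCat.subsingleton_of_isZero (CochainComplex.isZero_of_isStrictlyGE _ (a + 1) i hi)
      infer_instance
    · exact Module.Finite.equiv (F.truncGEXIsoOpcycles (a + 1)).symm.toLinearEquiv
    · have := h.fin i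
      exact Module.Finite.equiv (F.truncGEXIso (a + 1) i hi).symm.toLinearEquiv
  · rcases lt_trichotomy i (a + 1) with hi | rfl | hi
    · have : Subsingleton ((F.truncGE (a + 1)).X i) :=
        ModuleCat.subsingleton_of_isZero (CochainComplex.isZero_of_isStrictlyGE _ (a + 1) i hi)
      infer_instance
    · exact Module.Projective.of_equiv (F.truncGEXIsoOpcycles (a + 1)).symm.toLinearEquiv
    · have := h.proj i
      exact Module.Projective.of_equiv (F.truncGEXIso (a + 1) i hi).symm.toLinearEquiv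
  · rw [CochainComplex.quasiIso_πTruncGE_iff, CochainComplex.isGE_iff]
    intro i hi
    rcases lt_or_eq_of_le (show i ≤ a by omega) with hi | rfl
    · exact ExactAt.of_isZero (CochainComplex.isZero_of_isStrictlyGE _ a i hi)
    · rw [HomologicalComplex.exactAt_iff' F (i - 1) i (i + 1) (by simp) (by simp)]
      have hz : (F.sc' (i - 1) i (i + 1)).f = 0 :=
        (CochainComplex.isZero_of_isStrictlyGE F i (i - 1) (by omega)).eq_of_src _ _
      rw [ShortComplex.exact_iff_mono _ hz]
      have : Mono (F.d i (i + 1) ≫ s) := by rw [hs]; infer_instance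
      exact mono_of_mono (F.d i (i + 1)) s

end

end Pool.Agent.Lib.MP_777c16_ag
end

section
open CategoryTheory Limits Pretriangulated RingTheory.Sequence Pointwise HomologicalComplex

universe u

set_option linter.unusedVariables false
set_option linter.unusedSectionVars false

namespace Pool.Agent.Lib.MP_777c16_ag

section

variable {R : Type u} [CommRing R] [IsLocalRing R]

/-- If every map from `P` to a nonzero cyclic module extends along `d : P ⟶ P'`, then `d` is a
split monomorphism. -/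
lemma exists_retraction {P P' M : Type u} [AddCommGroup P] [Module R P] [AddCommGroup P']
    [Module R P'] [AddCommGroup M] [Module R M] [Module.Finite R P] [Module.Projective R P]
    [Module.Projective R P'] [Nontrivial M] (p : R →ₗ[R] M) (hp : Function.Surjective p)
    (d : P →ₗ[R] P') (hd : ∀ φ : P →ₗ[R] M, ∃ h : P' →ₗ[R] M, h ∘ₗ d = φ) :
    ∃ s : P' →ₗ[R] P, s ∘ₗ d = LinearMap.id := by
  have : Module.Free R P := Module.free_of_flat_of_isLocalRing
  let ι := Module.Free.ChooseBasisIndex R P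
  let b : Module.Basis ι R P := Module.Free.chooseBasis R P
  have : Fintype ι := inferInstance
  choose h hh using fun i : ι => hd (p ∘ₗ b.coord i)
  choose h' hh' using fun i : ι => Module.projective_lifting_property p (h i) hp
  let s0 : P' →ₗ[R] P := ∑ i, (LinearMap.toSpanSingleton R P (b i)) ∘ₗ h' i
  have hs0 : ∀ y, s0 y = ∑ i, h' i y • b i := by
    intro y
    simp [s0]
  have hker : ∀ r : R, p r = 0 → r ∈ IsLocalRing.maximalIdeal R := by
    intro r hr
    rw [IsLocalRing.mem_maximalIdeal]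
    intro hu
    obtain ⟨v, rfl⟩ := hu
    have h1 : p 1 = 0 := by
      have : (1 : R) = (↑v⁻¹ : R) • (v : R) := by simp
      rw [this, map_smul, hr, smul_zero]
    obtain ⟨m, hm⟩ := exists_ne (0 : M)
    obtain ⟨r, rfl⟩ := hp m
    apply hm
    have : r = r • (1 : R) := by simp
    rw [this, map_smul, h1, smul_zero]
  let A : P →ₗ[R] P := s0 ∘ₗ d
  have hA : Function.Surjective A := by
    rw [← LinearMap.range_eq_top, ← top_le_iff]
    apply Submodule.le_of_le_smul_of_le_jacobson_bot (I := IsLocalRing.maximalIdeal R)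
      (Module.Finite.fg_top) (IsLocalRing.maximalIdeal_le_jacobson _)
    intro x _
    have hx : x = A x + (x - A x) := by simp
    rw [hx]
    refine Submodule.add_mem_sup (LinearMap.mem_range_self A x) ?_
    have h1 : x - A x = ∑ i, (b.coord i x - h' i (d x)) • b i := by
      conv_lhs => rw [← b.sum_repr x]
      simp only [A, LinearMap.comp_apply, hs0, sub_smul, Finset.sum_sub_distrib, b.sum_repr,
        Module.Basis.coord_apply]
    rw [h1]
    apply Submodule.sum_mem
    intro i _
    apply Submodule.smul_mem_smul _ Submodule.mem_top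
    apply hker
    rw [map_sub, sub_eq_zero]
    have h2 := LinearMap.congr_fun (hh i) x
    have h3 := LinearMap.congr_fun (hh' i) (d x)
    simp only [LinearMap.comp_apply] at h2 h3
    rw [h3, h2]
  have hA2 : Function.Bijective A :=
    ⟨OrzechProperty.injective_of_surjective_endomorphism A hA, hA⟩
  let e := LinearEquiv.ofBijective A hA2
  refine ⟨e.symm.toLinearMap ∘ₗ s0, ?_⟩
  ext x
  simp only [LinearMap.comp_apply, LinearMap.id_apply]
  exact e.symm_apply_apply x

variable [HasDerivedCategory (ModuleCat.{u} R)]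

/-- The ring placed in degree zero. -/
noncomputable abbrev R0 (R : Type u) [CommRing R] : CochainComplex (ModuleCat.{u} R) ℤ :=
  (HomologicalComplex.single (ModuleCat.{u} R) (ComplexShape.up ℤ) 0).obj (ModuleCat.of R R)

instance R0_isKProjective : (R0 R).IsKProjective := by
  have : ∀ n, Projective ((R0 R).X n) := by
    intro n
    by_cases hn : n = 0
    · subst hn
      exact Projective.of_iso (singleObjXSelf (ComplexShape.up ℤ) 0 (ModuleCat.of R R)).symm
        (inferInstanceAs (Projective (ModuleCat.of R R)))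
    · exact (isZero_single_obj_X (ComplexShape.up ℤ) 0 (ModuleCat.of R R) n hn).projective
  exact CochainComplex.isKProjective_of_projective _ 0

lemma isWeaklyRegular_of_flat (l : List R) (hl : IsWeaklyRegular R l) (P : Type u)
    [AddCommGroup P] [Module R P] [Module.Flat R P] : IsWeaklyRegular P l :=
  ((TensorProduct.rid R P).isWeaklyRegular_congr l).1 (hl.isWeaklyRegular_lTensor (M₂ := P))

lemma isWeaklyRegular_of_isZero (l : List R) (P : Type u)
    [AddCommGroup P] [Module R P] [Subsingleton P] : IsWeaklyRegular P l :=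
  ⟨fun i hi a b _ => Subsingleton.elim _ _⟩

/-- maps out of `R[0]` vanish if the degree zero term vanishes -/
lemma eq_zero_of_isZero_X (L : CochainComplex (ModuleCat.{u} R) ℤ) (hL : IsZero (L.X 0))
    (φ : DerivedCategory.Q.obj (R0 R) ⟶ DerivedCategory.Q.obj L) : φ = 0 := by
  obtain ⟨ψ, rfl⟩ := exists_chain_map _ _ φ
  have : ψ = 0 := by
    apply HomologicalComplex.hom_ext
    intro i
    by_cases hi : i = 0
    · subst hi
      exact hL.eq_of_tgt _ _
    · exact (isZero_single_obj_X (ComplexShape.up ℤ) 0 (ModuleCat.of R R) i hi).eq_of_src _ _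
  rw [this, Functor.map_zero]

/-- Second step of the local computation. -/
lemma localA_step2 [IsNoetherianRing R] (l : List R) (hl : IsWeaklyRegular R l)
    (hlm : ∀ g ∈ l, g ∈ IsLocalRing.maximalIdeal R)
    {N : DerivedCategory (ModuleCat.{u} R)} (hN : IsKos l (DerivedCategory.Q.obj (R0 R)) N)
    (F : CochainComplex (ModuleCat.{u} R) ℤ) (hflat : ∀ i, Module.Flat R (F.X i))
    (hF : ∀ i, i ≤ -(l.length : ℤ) → IsZero (F.X i))
    (φ : N ⟶ DerivedCategory.Q.obj F) : φ = 0 := by
  let n : ℤ := (l.length : ℤ)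
  let F' : CochainComplex (ModuleCat.{u} R) ℤ := F⟦-n⟧
  obtain ⟨H, hH⟩ := exists_isKosR l (DerivedCategory.Q.obj F')
  have h1 := IsKos.vanish_iff hN hH
  have hrev : IsWeaklyRegular R l.reverse :=
    IsLocalRing.isWeaklyRegular_of_perm_of_subset_maximalIdeal hl (List.reverse_perm l).symm hlm
  obtain ⟨L', π, ⟨e⟩, hπ, _⟩ := hH.isKos_reverse.exists_quotient (L := F') (by
    intro i
    have := hflat (i + -n)
    exact isWeaklyRegular_of_flat l.reverse hrev (F.X (i + -n)))
  have hL' : IsZero (L'.X 0) := by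
    have hz : IsZero (F.X (0 + -n)) := hF _ (by simp [n])
    have hz' : Subsingleton (F'.X 0) := ModuleCat.subsingleton_of_isZero hz
    have : Subsingleton (L'.X 0) := (hπ 0).subsingleton
    exact ModuleCat.isZero_of_subsingleton _
  have h2 : ∀ f : DerivedCategory.Q.obj (R0 R) ⟶ H, f = 0 :=
    (vanish_iff_of_iso (Iso.refl _) e).2 (fun f => eq_zero_of_isZero_X L' hL' f)
  have h3 := h1.2 h2
  let e2 : (DerivedCategory.Q.obj F')⟦n⟧ ≅ DerivedCategory.Q.obj F :=
    ((DerivedCategory.Q.commShiftIso n).app F').symm ≪≫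
      DerivedCategory.Q.mapIso ((shiftFunctorCompIsoId _ (-n) n (by simp)).app F)
  exact (vanish_iff_of_iso (Iso.refl _) e2).1 h3 φ

end

end Pool.Agent.Lib.MP_777c16_ag
end

section
open CategoryTheory Limits Pretriangulated RingTheory.Sequence Pointwise HomologicalComplex

universe u

set_option linter.unusedVariables false
set_option linter.unusedSectionVars false

namespace Pool.Agent.Lib.MP_777c16_ag

section

variable {R : Type u} [CommRing R] [IsLocalRing R] [HasDerivedCategory (ModuleCat.{u} R)]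

lemma localA_repr (l : List R) (hl : IsWeaklyRegular R l)
    (hlm : ∀ g ∈ l, g ∈ IsLocalRing.maximalIdeal R)
    {N : DerivedCategory (ModuleCat.{u} R)} (hN : IsKos l (DerivedCategory.Q.obj (R0 R)) N) :
    ∃ (M : ModuleCat.{u} R) (p : R →ₗ[R] M), Function.Surjective p ∧ Nontrivial M ∧
      Nonempty (N ≅ DerivedCategory.Q.obj
        ((HomologicalComplex.single (ModuleCat.{u} R) (ComplexShape.up ℤ) 0).obj M)) := by
  let e0 := singleObjXSelf (ComplexShape.up ℤ) (0 : ℤ) (ModuleCat.of R R)
  obtain ⟨L', π, ⟨e⟩, hπ, hnt⟩ := hN.exists_quotient (L := R0 R) (by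
    intro i
    by_cases hi : i = 0
    · subst hi
      exact (e0.toLinearEquiv.isWeaklyRegular_congr l).2 hl
    · have : Subsingleton ((R0 R).X i) := ModuleCat.subsingleton_of_isZero
        (isZero_single_obj_X (ComplexShape.up ℤ) 0 (ModuleCat.of R R) i hi)
      exact isWeaklyRegular_of_isZero _ _)
  have hz : ∀ i, i ≠ 0 → IsZero (L'.X i) := by
    intro i hi
    have : Subsingleton ((R0 R).X i) := ModuleCat.subsingleton_of_isZero
        (isZero_single_obj_X (ComplexShape.up ℤ) 0 (ModuleCat.of R R) i hi)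
    have : Subsingleton (L'.X i) := (hπ i).subsingleton
    exact ModuleCat.isZero_of_subsingleton _
  have : L'.IsStrictlyGE 0 := by
    rw [CochainComplex.isStrictlyGE_iff]
    intro i hi
    exact hz i (by omega)
  have : L'.IsStrictlyLE 0 := by
    rw [CochainComplex.isStrictlyLE_iff]
    intro i hi
    exact hz i (by omega)
  obtain ⟨M, ⟨e1⟩⟩ := CochainComplex.exists_iso_single L' 0
  let e2 := singleObjXSelf (ComplexShape.up ℤ) (0 : ℤ) M
  let e3 : L'.X 0 ≅ M := (HomologicalComplex.eval _ _ 0).mapIso e1 ≪≫ e2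
  refine ⟨M, (e0.inv ≫ π.f 0 ≫ e3.hom).hom, ?_, ?_, ⟨e ≪≫ DerivedCategory.Q.mapIso e1⟩⟩
  · rw [ModuleCat.hom_comp, ModuleCat.hom_comp]
    exact (e3.toLinearEquiv.surjective.comp (hπ 0)).comp e0.symm.toLinearEquiv.surjective
  · have h1 : Nontrivial ((R0 R).X 0) := by
      have : Nontrivial (ModuleCat.of R R) := inferInstanceAs (Nontrivial R)
      exact e0.toLinearEquiv.toEquiv.nontrivial
    have h2 : Module.Finite R ((R0 R).X 0) := Module.Finite.equiv e0.symm.toLinearEquiv
    have h3 : Nontrivial (L'.X 0) := hnt 0 h1 h2 inferInstance (by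
      rw [IsLocalRing.ringJacobson_eq_maximalIdeal]
      exact hlm)
    exact e3.symm.toLinearEquiv.toEquiv.nontrivial

lemma localA_step1 {M : ModuleCat.{u} R} (p : R →ₗ[R] M) (hp : Function.Surjective p)
    [Nontrivial M] {N : DerivedCategory (ModuleCat.{u} R)}
    (eN : N ≅ DerivedCategory.Q.obj
      ((HomologicalComplex.single (ModuleCat.{u} R) (ComplexShape.up ℤ) 0).obj M))
    {F : CochainComplex (ModuleCat.{u} R) ℤ} {a b : ℤ} (hF : IsGoodCx F a b)
    (h : ∀ φ : DerivedCategory.Q.obj F ⟶ N⟦-a⟧, φ = 0) :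
    ∃ s : F.X (a + 1) ⟶ F.X a, F.d a (a + 1) ≫ s = 𝟙 _ := by
  have h1 := hF.fin a
  have h2 := hF.proj a
  have h3 := hF.proj (a + 1)
  have := hF.isKProjective
  obtain ⟨s, hs⟩ := exists_retraction p hp (F.d a (a + 1)).hom (by
    intro φ
    have := hF.ge
    let Φ : F ⟶ (HomologicalComplex.single (ModuleCat.{u} R) (ComplexShape.up ℤ) a).obj M :=
      HomologicalComplex.mkHomToSingle (ModuleCat.ofHom φ) (by
        intro i hi
        have hi' : i + 1 = a := hi
        exact (CochainComplex.isZero_of_isStrictlyGE F a i (by omega)).eq_of_src _ _)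
    let e4 : N⟦-a⟧ ≅ DerivedCategory.Q.obj
      ((HomologicalComplex.single (ModuleCat.{u} R) (ComplexShape.up ℤ) a).obj M) :=
      (shiftFunctor _ (-a)).mapIso eN ≪≫
        ((DerivedCategory.singleFunctors (ModuleCat.{u} R)).shiftIso (-a) a 0 (by omega)).app M
    have h0 : DerivedCategory.Q.map Φ = 0 := (vanish_iff_of_iso (Iso.refl _) e4).1 h _
    obtain ⟨H⟩ := homotopy_of_map_eq_zero Φ h0
    have hc := H.comm a
    rw [dNext_eq _ (show (ComplexShape.up ℤ).Rel a (a + 1) from rfl),
      prevD_eq _ (show (ComplexShape.up ℤ).Rel (a - 1) a from by simp)] at hc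
    simp only [HomologicalComplex.single_obj_d, comp_zero, add_zero,
      HomologicalComplex.zero_f] at hc
    have hc2 : Φ.f a = ModuleCat.ofHom φ ≫ (singleObjXSelf (ComplexShape.up ℤ) a M).inv :=
      HomologicalComplex.mkHomToSingle_f _ _
    refine ⟨(H.hom (a + 1) a ≫ (singleObjXSelf (ComplexShape.up ℤ) a M).hom).hom, ?_⟩
    rw [← ModuleCat.hom_comp, ← Category.assoc, ← hc, hc2]
    simp)
  refine ⟨ModuleCat.ofHom s, ?_⟩
  ext1
  exact hs

/-- The local computation for part (A). -/
theorem localA [IsNoetherianRing R] (l : List R) (hl : IsWeaklyRegular R l)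
    (hlm : ∀ g ∈ l, g ∈ IsLocalRing.maximalIdeal R)
    {N : DerivedCategory (ModuleCat.{u} R)} (hN : IsKos l (DerivedCategory.Q.obj (R0 R)) N)
    {F : CochainComplex (ModuleCat.{u} R) ℤ} {a b : ℤ} (hF : IsGoodCx F a b)
    (h : ∀ i : ℤ, (l.length : ℤ) ≤ i → ∀ φ : DerivedCategory.Q.obj F ⟶ N⟦i⟧, φ = 0)
    (φ : N ⟶ DerivedCategory.Q.obj F) : φ = 0 := by
  obtain ⟨M, p, hp, hnt, ⟨eN⟩⟩ := localA_repr l hl hlm hN
  suffices H : ∀ (k : ℕ) (a : ℤ) (F : CochainComplex (ModuleCat.{u} R) ℤ), IsGoodCx F a b →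
      -(l.length : ℤ) + 1 ≤ a + k →
      (∀ i : ℤ, (l.length : ℤ) ≤ i → ∀ φ : DerivedCategory.Q.obj F ⟶ N⟦i⟧, φ = 0) →
      ∀ φ : N ⟶ DerivedCategory.Q.obj F, φ = 0 from
    H (-(l.length : ℤ) + 1 - a).toNat a F hF (by omega) h φ
  intro k
  induction k with
  | zero =>
    intro a F hF hk h φ
    have := hF.ge
    refine localA_step2 l hl hlm hN F (fun i => ?_) (fun i hi => ?_) φ
    · have := hF.proj i
      infer_instance
    · exact CochainComplex.isZero_of_isStrictlyGE F a i (by push_cast at hk; omega)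
  | succ k ih =>
    intro a F hF hk h
    by_cases ha : -(l.length : ℤ) + 1 ≤ a
    · intro φ
      have := hF.ge
      refine localA_step2 l hl hlm hN F (fun i => ?_) (fun i hi => ?_) φ
      · have := hF.proj i
        infer_instance
      · exact CochainComplex.isZero_of_isStrictlyGE F a i (by omega)
    · obtain ⟨s, hs⟩ := localA_step1 p hp eN hF (h (-a) (by omega))
      obtain ⟨hF', hq⟩ := hF.truncGE s hs
      let e : DerivedCategory.Q.obj F ≅ DerivedCategory.Q.obj (F.truncGE (a + 1)) :=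
        asIso (DerivedCategory.Q.map (F.πTruncGE (a + 1)))
      have h1 := ih (a + 1) (F.truncGE (a + 1)) hF' (by push_cast at hk; omega)
        (fun i hi => (vanish_iff_of_iso e (Iso.refl _)).1 (h i hi))
      exact (vanish_iff_of_iso (Iso.refl _) e).2 h1

end

end Pool.Agent.Lib.MP_777c16_ag
end

section
open CategoryTheory Limits Pretriangulated RingTheory.Sequence Pointwise HomologicalComplex

universe u

set_option linter.unusedVariables false
set_option linter.unusedSectionVars false

namespace Pool.Agent.Lib.MP_777c16_ag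

section realize

variable {C : Type*} [Category C] [Abelian C]

/-- a map of complexes inducing a given map in the top/bottom degree -/
lemma exists_map_of_homology_cx (K₁ K₂ : CochainComplex C ℤ) (t : ℤ) [K₁.IsStrictlyLE t]
    [K₂.IsStrictlyGE t] (φ : K₁.homology t ⟶ K₂.homology t) :
    ∃ ψ : K₁ ⟶ K₂, homologyMap ψ t = φ := by
  have hz1 : IsZero (K₁.X (t + 1)) := CochainComplex.isZero_of_isStrictlyLE K₁ t _ (by omega)
  have hz2 : IsZero (K₂.X (t - 1)) := CochainComplex.isZero_of_isStrictlyGE K₂ t _ (by omega)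
  have : IsIso (K₁.homologyι t) :=
    K₁.isIso_homologyι t (t + 1) (by simp) (hz1.eq_of_tgt _ _)
  have : IsIso (K₂.homologyπ t) :=
    K₂.isIso_homologyπ (t - 1) t (by simp) (hz2.eq_of_src _ _)
  let α : K₁.X t ⟶ K₁.homology t := K₁.pOpcycles t ≫ inv (K₁.homologyι t)
  let β : K₂.homology t ⟶ K₂.X t := inv (K₂.homologyπ t) ≫ K₂.iCycles t
  let H := (HomologicalComplex.single C (ComplexShape.up ℤ) t).obj (K₁.homology t)
  let ψ₁ : K₁ ⟶ H := mkHomToSingle α (by
    intro i hi
    simp [α])
  let ψ₂ : H ⟶ K₂ := mkHomFromSingle (φ ≫ β) (by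
    intro i hi
    simp [β])
  refine ⟨ψ₁ ≫ ψ₂, ?_⟩
  have hf : (ψ₁ ≫ ψ₂).f t = α ≫ φ ≫ β := by
    simp [ψ₁, ψ₂, mkHomToSingle_f, mkHomFromSingle_f]
  have hα : K₁.iCycles t ≫ α = K₁.homologyπ t := by
    simp only [α]
    rw [← Category.assoc, ← K₁.homology_π_ι, Category.assoc, IsIso.hom_inv_id, Category.comp_id]
  have h1 : cyclesMap (ψ₁ ≫ ψ₂) t = K₁.homologyπ t ≫ φ ≫ inv (K₂.homologyπ t) := by
    rw [← cancel_mono (K₂.iCycles t), cyclesMap_i, hf, reassoc_of% hα]
    simp [β]
  rw [← cancel_epi (K₁.homologyπ t), homologyπ_naturality, h1]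
  simp

variable [HasDerivedCategory C]

lemma exists_map_of_homology (X Y : DerivedCategory C) (t : ℤ) [X.IsLE t] [Y.IsGE t]
    (φ : (DerivedCategory.homologyFunctor C t).obj X ⟶
      (DerivedCategory.homologyFunctor C t).obj Y) :
    ∃ ψ : X ⟶ Y, (DerivedCategory.homologyFunctor C t).map ψ = φ := by
  obtain ⟨K₁, _, ⟨e₁⟩⟩ := X.exists_iso_Q_obj_of_isLE t
  obtain ⟨K₂, _, ⟨e₂⟩⟩ := Y.exists_iso_Q_obj_of_isGE t
  let Hf := DerivedCategory.homologyFunctor C t
  let c₁ : Hf.obj (DerivedCategory.Q.obj K₁) ≅ K₁.homology t :=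
    (DerivedCategory.homologyFunctorFactors C t).app K₁
  let c₂ : Hf.obj (DerivedCategory.Q.obj K₂) ≅ K₂.homology t :=
    (DerivedCategory.homologyFunctorFactors C t).app K₂
  obtain ⟨ψ, hψ⟩ := exists_map_of_homology_cx K₁ K₂ t
    (c₁.inv ≫ Hf.map e₁.inv ≫ φ ≫ Hf.map e₂.hom ≫ c₂.hom)
  refine ⟨e₁.hom ≫ DerivedCategory.Q.map ψ ≫ e₂.inv, ?_⟩
  have h : Hf.map (DerivedCategory.Q.map ψ) ≫ c₂.hom = c₁.hom ≫ homologyMap ψ t :=
    (DerivedCategory.homologyFunctorFactors C t).hom.naturality ψ
  rw [hψ, Iso.hom_inv_id_assoc] at h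
  have h2 : Hf.map (DerivedCategory.Q.map ψ) = Hf.map e₁.inv ≫ φ ≫ Hf.map e₂.hom := by
    rw [← cancel_mono c₂.hom, h]
    simp
  change Hf.map _ = φ
  rw [Functor.map_comp, Functor.map_comp, h2]
  simp [← Functor.map_comp, ← Functor.map_comp_assoc]
  exact Category.comp_id φ

end realize


section nilp

variable {S : Type*} [CommRing S] {T : Type*} [Category T] [Preadditive T] [HasZeroObject T]
  [HasShift T ℤ] [∀ n : ℤ, (shiftFunctor T n).Additive] [Pretriangulated T]
  [CategoryTheory.Linear S T] [∀ n : ℤ, Functor.Linear S (shiftFunctor T n)]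

lemma IsCone.nilpotent {h g : S} {A B : T} (hc : IsCone h A B)
    (hi : ∀ (i : A ⟶ B) (p : B ⟶ A⟦(1 : ℤ)⟧), Triangle.mk (h • 𝟙 A) i p ∈ distTriang T →
      i ≫ (g • 𝟙 B) = 0 ∧ p ≫ (g • 𝟙 (A⟦(1 : ℤ)⟧)) = 0) : (g * g) • 𝟙 B = 0 := by
  obtain ⟨i, p, hT⟩ := hc
  obtain ⟨h2, h3⟩ := hi i p hT
  obtain ⟨ψ, hψ⟩ := dt_yo3 hT (g • 𝟙 B) h2
  calc (g * g) • 𝟙 B = (g • 𝟙 B) ≫ (g • 𝟙 B) := by
        rw [Linear.smul_comp, Linear.comp_smul, smul_smul, Category.id_comp]
    _ = p ≫ ψ ≫ (g • 𝟙 B) := by rw [hψ, Category.assoc, ← hψ]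
    _ = p ≫ (g • 𝟙 (A⟦(1 : ℤ)⟧)) ≫ ψ := by rw [← smul_comm_hom]
    _ = 0 := by rw [← Category.assoc, h3, zero_comp]

lemma IsCone.nilpotent_self {g : S} {A B : T} (hc : IsCone g A B) : (g * g) • 𝟙 B = 0 := by
  refine hc.nilpotent (fun i p hT => ⟨?_, ?_⟩)
  · rw [← smul_comm_hom]
    exact dt_zero12 hT
  · have := dt_zero31 hT
    rwa [Functor.map_smul, CategoryTheory.Functor.map_id] at this

lemma IsCone.nilpotent_of {h g : S} {A B : T} (hc : IsCone h A B) (hg : g • 𝟙 A = 0) :
    (g * g) • 𝟙 B = 0 := by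
  refine hc.nilpotent (fun i p hT => ⟨?_, ?_⟩)
  · rw [← smul_comm_hom, hg, zero_comp]
  · have : g • 𝟙 (A⟦(1 : ℤ)⟧) = 0 := by
      rw [← CategoryTheory.Functor.map_id, ← Functor.map_smul, hg, Functor.map_zero]
    rw [this, comp_zero]

lemma IsKos.nilpotent {l : List S} {A B : T} (h : IsKos l A B) (g : S) (hg : g ∈ l) :
    ∃ k : ℕ, (g ^ k) • 𝟙 B = 0 := by
  induction l generalizing A with
  | nil => simp at hg
  | cons g' l ih =>
    obtain ⟨A', h1, h2⟩ := h
    rcases List.mem_cons.1 hg with rfl | hg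
    · refine h2.prop (fun X => ∃ k : ℕ, (g ^ k) • 𝟙 X = 0) ?_ ?_ ?_
      · rintro X Y e ⟨k, hk⟩
        refine ⟨k, ?_⟩
        rw [← cancel_epi e.hom, ← smul_comm_hom, hk, zero_comp, comp_zero]
      · rintro X Y g' _ hc ⟨k, hk⟩
        refine ⟨k + k, ?_⟩
        rw [pow_add]
        exact hc.nilpotent_of hk
      · refine ⟨2, ?_⟩
        rw [pow_two]
        exact h1.nilpotent_self
    · exact ih h2 hg

end nilp

section tstr

variable {C : Type*} [Category C] [Abelian C] [HasDerivedCategory C] {S : Type*} [CommRing S]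
  [CategoryTheory.Linear S C]

lemma IsCone.isLE {g : S} {A B : DerivedCategory C} (h : IsCone g A B) (n : ℤ) [hA : A.IsLE n] :
    B.IsLE n := by
  obtain ⟨i, p, hT⟩ := h
  have h1 := rot_of_distTriang _ hT
  have h3 : (A⟦(1 : ℤ)⟧).IsLE (n - 1) := DerivedCategory.TStructure.t.isLE_shift A n 1 (n - 1)
  have h4 : (A⟦(1 : ℤ)⟧).IsLE n :=
    DerivedCategory.TStructure.t.isLE_of_le _ (n - 1) n (by omega)
  exact DerivedCategory.TStructure.t.isLE₂ _ h1 n hA h4

lemma IsCone.isGE {g : S} {A B : DerivedCategory C} (h : IsCone g A B) (n : ℤ) [A.IsGE n] :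
    B.IsGE (n - 1) := by
  obtain ⟨i, p, hT⟩ := h
  have h1 := rot_of_distTriang _ hT
  have h3 : (A⟦(1 : ℤ)⟧).IsGE (n - 1) := DerivedCategory.TStructure.t.isGE_shift A n 1 (n - 1)
  have h4 : A.IsGE (n - 1) :=
    DerivedCategory.TStructure.t.isGE_of_ge _ (n - 1) n (by omega)
  exact DerivedCategory.TStructure.t.isGE₂ _ h1 (n - 1) h4 h3

lemma IsKos.isLE {l : List S} {A B : DerivedCategory C} (h : IsKos l A B) (n : ℤ)
    (hA : A.IsLE n) : B.IsLE n :=
  h.prop (fun X => X.IsLE n) (fun e h => DerivedCategory.TStructure.t.isLE_of_iso e n)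
    (fun g _ hc h => hc.isLE n) hA

lemma IsKos.exists_isGE {l : List S} {A B : DerivedCategory C} (h : IsKos l A B) (n : ℤ)
    (hA : A.IsGE n) : ∃ m, B.IsGE m :=
  h.prop (fun X => ∃ m, X.IsGE m)
    (fun e ⟨m, h⟩ => ⟨m, DerivedCategory.TStructure.t.isGE_of_iso e m⟩)
    (fun g _ hc ⟨m, h⟩ => ⟨m - 1, hc.isGE m⟩) ⟨n, hA⟩

/-- vanishing of homs into very negative objects -/
lemma IsKos.vanish_of_isLE {l : List S} {A B : DerivedCategory C} (h : IsKos l A B) (m : ℤ)
    (hA : ∀ (Z : DerivedCategory C), Z.IsLE m → ∀ φ : A ⟶ Z, φ = 0) :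
    ∀ (Z : DerivedCategory C), Z.IsLE (m - (l.length : ℤ)) → ∀ φ : B ⟶ Z, φ = 0 := by
  induction l generalizing A m with
  | nil =>
    obtain ⟨e⟩ := h
    intro Z hZ
    have hZ' : Z.IsLE m := by simpa using hZ
    exact (vanish_iff_of_iso e (Iso.refl _)).1 (hA Z hZ')
  | cons g l ih =>
    obtain ⟨A', h1, h2⟩ := h
    intro Z hZ
    refine ih h2 (m - 1) ?_ Z ?_
    · intro Z hZ φ
      obtain ⟨i, p, hT⟩ := h1
      have hZ1 : Z.IsLE m := DerivedCategory.TStructure.t.isLE_of_le _ (m - 1) m (by omega)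
      obtain ⟨ψ, rfl⟩ := dt_yo3 hT φ (hA Z hZ1 _)
      have hZ2 : (Z⟦(-1 : ℤ)⟧).IsLE m :=
        DerivedCategory.TStructure.t.isLE_shift Z (m - 1) (-1) m
      have h5 : ∀ φ : A⟦(1 : ℤ)⟧ ⟶ Z⟦(-1 : ℤ)⟧⟦(1 : ℤ)⟧, φ = 0 := by
        intro φ
        obtain ⟨φ', rfl⟩ := (shiftFunctor _ (1 : ℤ)).map_surjective φ
        rw [hA _ hZ2 φ', Functor.map_zero]
      have h6 := (vanish_iff_of_iso (Iso.refl _)
        ((shiftFunctorCompIsoId _ (-1 : ℤ) 1 (by simp)).app Z)).1 h5
      rw [h6 ψ, comp_zero]
    · have : m - 1 - (l.length : ℤ) = m - ((g :: l).length : ℤ) := by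
        simp only [List.length_cons]
        push_cast
        ring
      rw [this]
      exact hZ

end tstr

end Pool.Agent.Lib.MP_777c16_ag
end

section
open CategoryTheory Limits Pretriangulated RingTheory.Sequence Pointwise HomologicalComplex

universe u

set_option linter.unusedVariables false
set_option linter.unusedSectionVars false

namespace Pool.Agent.Lib.MP_777c16_ag

section

variable {R : Type u} [CommRing R] [HasDerivedCategory (ModuleCat.{u} R)]

lemma R0_vanish (Z : DerivedCategory (ModuleCat.{u} R)) (hZ : Z.IsLE (-1))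
    (φ : DerivedCategory.Q.obj (R0 R) ⟶ Z) : φ = 0 := by
  have : (R0 R).IsKProjective := by
    have : ∀ n, Projective ((R0 R).X n) := by
      intro n
      by_cases hn : n = 0
      · subst hn
        exact Projective.of_iso (singleObjXSelf (ComplexShape.up ℤ) 0 (ModuleCat.of R R)).symm
          (inferInstanceAs (Projective (ModuleCat.of R R)))
      · exact (isZero_single_obj_X (ComplexShape.up ℤ) 0 (ModuleCat.of R R) n hn).projective
    exact CochainComplex.isKProjective_of_projective _ 0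
  obtain ⟨K, _, ⟨e⟩⟩ := Z.exists_iso_Q_obj_of_isLE (-1)
  have h1 : ∀ φ : DerivedCategory.Q.obj (R0 R) ⟶ DerivedCategory.Q.obj K, φ = 0 := by
    intro φ
    obtain ⟨ψ, rfl⟩ := exists_chain_map _ _ φ
    have : ψ = 0 := by
      apply HomologicalComplex.hom_ext
      intro i
      by_cases hi : i = 0
      · subst hi
        exact (CochainComplex.isZero_of_isStrictlyLE K (-1) 0 (by omega)).eq_of_tgt _ _
      · exact (isZero_single_obj_X (ComplexShape.up ℤ) 0 (ModuleCat.of R R) i hi).eq_of_src _ _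
    rw [this, Functor.map_zero]
  exact (vanish_iff_of_iso (Iso.refl _) e).2 h1 φ

lemma not_isZero_of_isKos [IsLocalRing R] (l : List R)
    (hlm : ∀ g ∈ l, g ∈ IsLocalRing.maximalIdeal R)
    {N : DerivedCategory (ModuleCat.{u} R)} (hN : IsKos l (DerivedCategory.Q.obj (R0 R)) N) :
    ¬ IsZero N := by
  let κ := ModuleCat.of R (R ⧸ IsLocalRing.maximalIdeal R)
  let K0 := (DerivedCategory.singleFunctor (ModuleCat.{u} R) 0).obj κ
  have hg0 : ∀ g ∈ l, g • 𝟙 K0 = 0 := by
    intro g hg
    have h1 : g • 𝟙 κ = 0 := by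
      apply ModuleCat.hom_ext
      apply LinearMap.ext
      intro x
      obtain ⟨x, rfl⟩ := Ideal.Quotient.mk_surjective x
      change g • (Ideal.Quotient.mk _ x) = 0
      rw [Algebra.smul_def]
      have : algebraMap R (R ⧸ IsLocalRing.maximalIdeal R) g = 0 :=
        Ideal.Quotient.eq_zero_iff_mem.2 (hlm g hg)
      rw [this, zero_mul]
    have h2 := (DerivedCategory.singleFunctor (ModuleCat.{u} R) 0).map_smul g (𝟙 κ)
    rw [h1, Functor.map_zero, CategoryTheory.Functor.map_id] at h2
    exact h2.symm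
  have key : ∃ ψ : N ⟶ K0, ψ ≠ 0 := by
    refine hN.prop (fun X => ∃ ψ : X ⟶ K0, ψ ≠ 0) ?_ ?_ ?_
    · rintro X Y e ⟨ψ, hψ⟩
      refine ⟨e.inv ≫ ψ, fun h => hψ ?_⟩
      rw [← cancel_epi e.inv, h, comp_zero]
    · rintro X Y g hg ⟨i, p, hT⟩ ⟨ψ, hψ⟩
      obtain ⟨ψ', hψ'⟩ := dt_yo2 hT ψ (by rw [smul_comm_hom, hg0 g hg, comp_zero])
      refine ⟨ψ', fun h => hψ ?_⟩
      rw [hψ', h, comp_zero]
    · refine ⟨(DerivedCategory.singleFunctor (ModuleCat.{u} R) 0).map
        (ModuleCat.ofHom (Submodule.mkQ (IsLocalRing.maximalIdeal R)) :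
          ModuleCat.of R R ⟶ κ), fun h => ?_⟩
      have h1 : (ModuleCat.ofHom (Submodule.mkQ (IsLocalRing.maximalIdeal R)) :
          ModuleCat.of R R ⟶ κ) = 0 := by
        apply (DerivedCategory.singleFunctor (ModuleCat.{u} R) 0).map_injective
        rw [Functor.map_zero]
        exact h
      have h2 : Submodule.mkQ (IsLocalRing.maximalIdeal R) (1 : R) = 0 := by
        have := congrArg (fun f => f.hom (1 : R)) h1
        exact this
      rw [Submodule.mkQ_apply, Submodule.Quotient.mk_eq_zero] at h2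
      exact (Ideal.ne_top_iff_one _).1 (IsLocalRing.maximalIdeal.isMaximal R).ne_top h2
  obtain ⟨ψ, hψ⟩ := key
  exact fun h => hψ (h.eq_of_src _ _)

/-- existence of a top degree -/
lemma exists_top {C : Type*} [Category C] [Abelian C] [HasDerivedCategory C]
    (X : DerivedCategory C) (hX : ¬ IsZero X) (b : ℤ) [hb : X.IsLE b] :
    ∃ t, X.IsLE t ∧ ¬ IsZero ((DerivedCategory.homologyFunctor C t).obj X) := by
  have h1 : ∃ t, ¬ IsZero ((DerivedCategory.homologyFunctor C t).obj X) := by
    by_contra h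
    exact hX ((isZero_iff_homology X).2 (fun n => not_not.1 (fun hn => h ⟨n, hn⟩)))
  obtain ⟨t, ht, ht2⟩ := Int.exists_greatest_of_bdd
    (P := fun t => ¬ IsZero ((DerivedCategory.homologyFunctor C t).obj X))
    ⟨b, fun z hz => by
      by_contra hzb
      exact hz (X.isZero_of_isLE b z (by omega))⟩ h1
  refine ⟨t, ?_, ht⟩
  rw [DerivedCategory.isLE_iff]
  intro i hi
  by_contra h
  exact absurd (ht2 i h) (by omega)

/-- existence of a bottom degree -/
lemma exists_bot {C : Type*} [Category C] [Abelian C] [HasDerivedCategory C]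
    (X : DerivedCategory C) (hX : ¬ IsZero X) (b : ℤ) [hb : X.IsGE b] :
    ∃ t, X.IsGE t ∧ ¬ IsZero ((DerivedCategory.homologyFunctor C t).obj X) := by
  have h1 : ∃ t, ¬ IsZero ((DerivedCategory.homologyFunctor C t).obj X) := by
    by_contra h
    exact hX ((isZero_iff_homology X).2 (fun n => not_not.1 (fun hn => h ⟨n, hn⟩)))
  obtain ⟨t, ht, ht2⟩ := Int.exists_least_of_bdd
    (P := fun t => ¬ IsZero ((DerivedCategory.homologyFunctor C t).obj X))
    ⟨b, fun z hz => by
      by_contra hzb
      exact hz (X.isZero_of_isGE b z (by omega))⟩ h1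
  refine ⟨t, ?_, ht⟩
  rw [DerivedCategory.isGE_iff]
  intro i hi
  by_contra h
  exact absurd (ht2 i h) (by omega)

lemma homologyMap_smul_Q (g : R) (K : CochainComplex (ModuleCat.{u} R) ℤ) (n : ℤ) :
    HomologicalComplex.homologyMap (g • 𝟙 K) n = g • 𝟙 _ := by
  have : HomologicalComplex.homologyMap (g • 𝟙 K) n =
    ShortComplex.homologyMap (g • 𝟙 (K.sc n)) := rfl
  rw [this, ShortComplex.homologyMap_smul, ShortComplex.homologyMap_id]
  rfl

/-- homology is linear on scalar endomorphisms -/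
lemma homology_smul_id (g : R) (X : DerivedCategory (ModuleCat.{u} R)) (n : ℤ) :
    (DerivedCategory.homologyFunctor (ModuleCat.{u} R) n).map (g • 𝟙 X) = g • 𝟙 _ := by
  suffices H : ∀ K : CochainComplex (ModuleCat.{u} R) ℤ,
      (DerivedCategory.homologyFunctor (ModuleCat.{u} R) n).map
        (g • 𝟙 (DerivedCategory.Q.obj K)) = g • 𝟙 _ by
    have e := DerivedCategory.Q.objObjPreimageIso X
    have h1 := H (DerivedCategory.Q.objPreimage X)
    have h2 : g • 𝟙 X = e.inv ≫ (g • 𝟙 (DerivedCategory.Q.obj (DerivedCategory.Q.objPreimage X))) ≫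
        e.hom := by simp
    rw [h2, Functor.map_comp, Functor.map_comp, h1]
    simp [← Functor.map_comp]
  intro K
  let c : (DerivedCategory.homologyFunctor (ModuleCat.{u} R) n).obj (DerivedCategory.Q.obj K) ≅
      K.homology n := (DerivedCategory.homologyFunctorFactors _ n).app K
  have h := (DerivedCategory.homologyFunctorFactors (ModuleCat.{u} R) n).hom.naturality (g • 𝟙 K)
  have h' : (DerivedCategory.homologyFunctor (ModuleCat.{u} R) n).map
      (DerivedCategory.Q.map (g • 𝟙 K)) ≫ c.hom = c.hom ≫ HomologicalComplex.homologyMap (g • 𝟙 K) n :=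
    h
  rw [homologyMap_smul_Q, Functor.map_smul, CategoryTheory.Functor.map_id] at h'
  rw [← cancel_mono c.hom, h']
  simp

end

end Pool.Agent.Lib.MP_777c16_ag
end

section
open CategoryTheory Limits Pretriangulated RingTheory.Sequence Pointwise HomologicalComplex

universe u

set_option linter.unusedVariables false
set_option linter.unusedSectionVars false

namespace Pool.Agent.Lib.MP_777c16_ag

section

variable {R : Type u} [CommRing R]

/-- a finitely generated nonzero module over a local ring surjects onto the residue field -/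
lemma exists_surj_residue [IsLocalRing R] (M : Type u) [AddCommGroup M] [Module R M]
    [Module.Finite R M] [Nontrivial M] :
    ∃ f : M →ₗ[R] R ⧸ IsLocalRing.maximalIdeal R, Function.Surjective f := by
  obtain ⟨K, hK⟩ := IsCoatomic.exists_coatom (α := Submodule R M)
  have : IsSimpleModule R (M ⧸ K) := isSimpleModule_iff_isCoatom.2 hK
  obtain ⟨I, hI, ⟨e⟩⟩ := isSimpleModule_iff_quot_maximal.1 this
  obtain rfl : I = IsLocalRing.maximalIdeal R := IsLocalRing.eq_maximalIdeal hI
  exact ⟨e.toLinearMap ∘ₗ K.mkQ, e.surjective.comp (Submodule.mkQ_surjective _)⟩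

/-- a module on which the elements of a list generating an ideal with radical the maximal ideal
are nilpotent contains the residue field -/
lemma exists_inj_residue [IsLocalRing R] [IsNoetherianRing R] (l : List R)
    (hrad : ∀ p : Ideal R, p.IsPrime → (∀ g ∈ l, g ∈ p) → p = IsLocalRing.maximalIdeal R)
    (M : Type u) [AddCommGroup M] [Module R M] [Nontrivial M]
    (hnil : ∀ g ∈ l, ∃ k : ℕ, ∀ x : M, g ^ k • x = 0) :
    ∃ f : (R ⧸ IsLocalRing.maximalIdeal R) →ₗ[R] M, Function.Injective f := by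
  obtain ⟨x, hx⟩ := exists_ne (0 : M)
  obtain ⟨P, hP, _⟩ := exists_le_isAssociatedPrime_of_isNoetherianRing R x hx
  have hP' := (isAssociatedPrime_iff_exists_injective_linearMap P M).1 hP
  obtain ⟨hprime, f, hf⟩ := hP'
  have : P = IsLocalRing.maximalIdeal R := by
    apply hrad P hprime
    intro g hg
    obtain ⟨k, hk⟩ := hnil g hg
    have h1 : f (g ^ k • (1 : R ⧸ P)) = 0 := by rw [map_smul]; exact hk _
    have h2 : g ^ k • (1 : R ⧸ P) = 0 := by
      apply hf
      rw [h1, map_zero]
    have h3 : g ^ k ∈ P := by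
      rw [Algebra.smul_def, mul_one] at h2
      exact Ideal.Quotient.eq_zero_iff_mem.1 h2
    exact hprime.mem_of_pow_mem k h3
  subst this
  exact ⟨f, hf⟩

variable [HasDerivedCategory (ModuleCat.{u} R)]

lemma finite_homology [IsNoetherianRing R] (F : CochainComplex (ModuleCat.{u} R) ℤ)
    (hF : ∀ i, Module.Finite R (F.X i)) (t : ℤ) :
    Module.Finite R ((DerivedCategory.homologyFunctor (ModuleCat.{u} R) t).obj
      (DerivedCategory.Q.obj F)) := by
  have h1 : Module.Finite R (F.cycles t) := by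
    have := hF t
    exact Module.Finite.of_injective (F.iCycles t).hom
      ((ModuleCat.mono_iff_injective _).1 inferInstance)
  have h2 : Module.Finite R (F.homology t) :=
    Module.Finite.of_surjective (F.homologyπ t).hom
      ((ModuleCat.epi_iff_surjective _).1 inferInstance)
  let e : F.homology t ≅ (DerivedCategory.homologyFunctor (ModuleCat.{u} R) t).obj
      (DerivedCategory.Q.obj F) :=
    ((DerivedCategory.homologyFunctorFactors (ModuleCat.{u} R) t).app F).symm
  exact Module.Finite.equiv e.toLinearEquiv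

/-- The local computation for part (B). -/
theorem localB [IsLocalRing R] [IsNoetherianRing R] (l : List R)
    (hlm : ∀ g ∈ l, g ∈ IsLocalRing.maximalIdeal R)
    (hrad : ∀ p : Ideal R, p.IsPrime → (∀ g ∈ l, g ∈ p) → p = IsLocalRing.maximalIdeal R)
    {N : DerivedCategory (ModuleCat.{u} R)} (hN : IsKos l (DerivedCategory.Q.obj (R0 R)) N)
    {F : CochainComplex (ModuleCat.{u} R) ℤ} {a b : ℤ} (hF : IsGoodCx F a b)
    (hne : ¬ IsZero (DerivedCategory.Q.obj F)) :
    ∃ j : ℤ, (∃ φ : DerivedCategory.Q.obj F ⟶ N⟦j⟧, φ ≠ 0) ∧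
      ∀ i : ℤ, (l.length : ℤ) < i →
        ∀ φ : N⟦j⟧ ⟶ (DerivedCategory.Q.obj F)⟦i⟧, φ = 0 := by
  have := hF.le
  obtain ⟨t, ht, ht2⟩ := exists_top (DerivedCategory.Q.obj F) hne b
  have h0 : (DerivedCategory.Q.obj (R0 R)).IsLE 0 := inferInstance
  have h0' : (DerivedCategory.Q.obj (R0 R)).IsGE 0 := inferInstance
  have hNle : N.IsLE 0 := hN.isLE 0 h0
  obtain ⟨m, hNge⟩ := hN.exists_isGE 0 h0'
  obtain ⟨c, hc, hc2⟩ := exists_bot N (not_isZero_of_isKos l hlm hN) m
  have hc0 : c ≤ 0 := by
    by_contra h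
    exact hc2 (N.isZero_of_isLE 0 c (by omega))
  let j : ℤ := c - t
  have hY : (N⟦j⟧).IsGE t := DerivedCategory.TStructure.t.isGE_shift N c j t (by simp [j])
  let e : (DerivedCategory.homologyFunctor (ModuleCat.{u} R) t).obj (N⟦j⟧) ≅
      (DerivedCategory.homologyFunctor (ModuleCat.{u} R) c).obj N :=
    ((DerivedCategory.homologyFunctor (ModuleCat.{u} R) 0).shiftIso j t c (by simp [j])).app N
  let M1 := (DerivedCategory.homologyFunctor (ModuleCat.{u} R) t).obj (DerivedCategory.Q.obj F)
  let M2 := (DerivedCategory.homologyFunctor (ModuleCat.{u} R) c).obj N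
  have hM1 : Nontrivial M1 := by
    rw [← not_subsingleton_iff_nontrivial]
    intro h
    exact ht2 (ModuleCat.isZero_of_subsingleton _)
  have hM2 : Nontrivial M2 := by
    rw [← not_subsingleton_iff_nontrivial]
    intro h
    exact hc2 (ModuleCat.isZero_of_subsingleton _)
  have hM1f : Module.Finite R M1 := finite_homology F hF.fin t
  obtain ⟨f1, hf1⟩ := exists_surj_residue (R := R) M1
  obtain ⟨f2, hf2⟩ := exists_inj_residue l hrad M2 (by
    intro g hg
    obtain ⟨k, hk⟩ := hN.nilpotent g hg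
    refine ⟨k, fun x => ?_⟩
    have h1 := homology_smul_id (g ^ k) N c
    rw [hk, Functor.map_zero] at h1
    have h2 := congrArg (fun f => f.hom x) h1
    exact h2.symm)
  let φ0 : M1 ⟶ (DerivedCategory.homologyFunctor (ModuleCat.{u} R) t).obj (N⟦j⟧) :=
    ModuleCat.ofHom (f2 ∘ₗ f1) ≫ e.inv
  obtain ⟨ψ, hψ⟩ := exists_map_of_homology (DerivedCategory.Q.obj F) (N⟦j⟧) t φ0
  refine ⟨j, ⟨ψ, ?_⟩, ?_⟩
  · rintro rfl
    rw [Functor.map_zero] at hψ
    have h1 : ModuleCat.ofHom (f2 ∘ₗ f1) = 0 := by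
      rw [← cancel_mono e.inv, zero_comp]
      exact hψ.symm
    obtain ⟨y, hy⟩ := hf1 1
    have h2 : f2 (f1 y) = 0 := congrArg (fun f => f.hom y) h1
    rw [hy] at h2
    have h3 : (1 : R ⧸ IsLocalRing.maximalIdeal R) = 0 := hf2 (by rw [h2, map_zero])
    exact one_ne_zero h3
  · intro i hi
    have hZ1 : ((DerivedCategory.Q.obj F)⟦i⟧).IsLE (t - i) :=
      DerivedCategory.TStructure.t.isLE_shift _ t i (t - i) (by simp)
    have hZ2 : ((DerivedCategory.Q.obj F)⟦i⟧⟦-j⟧).IsLE (t - i + j) :=
      DerivedCategory.TStructure.t.isLE_shift _ (t - i) (-j) (t - i + j) (by simp)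
    have hZ3 : ((DerivedCategory.Q.obj F)⟦i⟧⟦-j⟧).IsLE (-1 - (l.length : ℤ)) :=
      DerivedCategory.TStructure.t.isLE_of_le _ (t - i + j) _ (by simp only [j]; omega)
    have h1 := hN.vanish_of_isLE (-1) (fun Z hZ φ => R0_vanish Z hZ φ) _ hZ3
    have h2 : ∀ φ : N⟦j⟧ ⟶ (DerivedCategory.Q.obj F)⟦i⟧⟦-j⟧⟦j⟧, φ = 0 := by
      intro φ
      obtain ⟨φ', rfl⟩ := (shiftFunctor _ j).map_surjective φ
      rw [h1 φ', Functor.map_zero]
    exact (vanish_iff_of_iso (Iso.refl _)
      ((shiftFunctorCompIsoId _ (-j) j (by simp)).app _)).1 h2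

end

end Pool.Agent.Lib.MP_777c16_ag
end
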