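import Pool.Agent.Lib.MP_777c16_ag.DStalk
import Pool.Agent.Lib.MP_777c16_ag.LocalAlg7
import Mathlib.AlgebraicGeometry.Morphisms.FiniteType
import Mathlib.Algebra.Category.ModuleCat.Sheaf.Free
import Mathlib.Algebra.Category.ModuleCat.Products

section
open CategoryTheory AlgebraicGeometry Limits TopologicalSpace Opposite Pretriangulated

universe u

set_option linter.unusedVariables false
set_option linter.unusedSectionVars false

namespace Pool.Agent.Lib.MP_777c16_ag

section

variable {U X : Scheme.{u}} (f : U ⟶ X) [IsOpenImmersion f]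

/-- derived extension by zero -/
noncomputable abbrev DJ : DerivedCategory U.Modules ⥤ DerivedCategory X.Modules :=
  (shriek f).mapDerivedCategory

/-- derived restriction -/
noncomputable abbrev DR : DerivedCategory X.Modules ⥤ DerivedCategory U.Modules :=
  (Scheme.Modules.restrictFunctor f).mapDerivedCategory

/-- the derived adjunction -/
noncomputable abbrev DJR : DJ f ⊣ DR f := adjDerived (shriekAdj f)

instance isIso_DJR_unit : IsIso (DJR f).unit := isIso_adjDerived_unit _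

/-- the derived functor of the composition of extension by zero and stalk -/
noncomputable abbrev DT (z : X) :
    DerivedCategory U.Modules ⥤ DerivedCategory (ModuleCat.{u} (X.presheaf.stalk z)) :=
  (shriek f ⋙ stalkF z).mapDerivedCategory

noncomputable def DTiso (z : X) : DT f z ≅ DJ f ⋙ DST z := mapDerivedComp _ _

lemma isZero_DST_DJ {z : X} (hz : z ∉ f.opensRange) (M : DerivedCategory U.Modules) :
    IsZero ((DST z).obj ((DJ f).obj M)) := by
  rw [isZero_mapDerived_iff]
  intro n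
  obtain ⟨e⟩ := nonempty_homology_mapDerived (shriek f) M n
  exact ((stalkF z).mapIso e).isZero_iff.2 (isZero_stalk_shriek f hz _)

lemma isZero_DST_of_DR {z : X} (hz : z ∈ f.opensRange) {N : DerivedCategory X.Modules}
    (hN : IsZero ((DR f).obj N)) : IsZero ((DST z).obj N) := by
  rw [isZero_mapDerived_iff] at hN ⊢
  intro n
  exact isZero_stalk_of_restrict f (hN n) hz

lemma isIso_DR_counit (G : DerivedCategory X.Modules) :
    IsIso ((DR f).map ((DJR f).counit.app G)) := by
  have h2 : (DR f).map ((DJR f).counit.app G) =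
      inv ((DJR f).unit.app ((DR f).obj G)) :=
    IsIso.eq_inv_of_hom_inv_id ((DJR f).right_triangle_components G)
  rw [h2]
  infer_instance

lemma isIso_DST_counit {z : X} (hz : z ∈ f.opensRange) (G : DerivedCategory X.Modules) :
    IsIso ((DST z).map ((DJR f).counit.app G)) := by
  obtain ⟨C, i, p, hT⟩ := distinguished_cocone_triangle ((DJR f).counit.app G)
  rw [isIso_map_iff_isZero_cone (DST z) hT]
  apply isZero_DST_of_DR f hz
  rw [← isIso_map_iff_isZero_cone (DR f) hT]
  exact isIso_DR_counit f G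

/-- the stalk of `G` can be computed on an open containing the point -/
noncomputable def DTRiso {z : X} (hz : z ∈ f.opensRange) (G : DerivedCategory X.Modules) :
    (DT f z).obj ((DR f).obj G) ≅ (DST z).obj G :=
  (DTiso f z).app _ ≪≫
    @asIso _ _ _ _ ((DST z).map ((DJR f).counit.app G)) (isIso_DST_counit f hz G)

/-- vanishing of homs into an object supported at a closed point can be tested on stalks -/
lemma vanish_iff_DST {x : X} (hx : IsClosed ({x} : Set X)) (P G : DerivedCategory X.Modules)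
    (hG : ∀ z : X, z ≠ x → IsZero ((DST z).obj G)) :
    (∀ φ : P ⟶ G, φ = 0) ↔ (∀ φ : (DST x).obj P ⟶ (DST x).obj G, φ = 0) := by
  have := isIso_DADJ_unit hx G hG
  rw [vanish_iff_equiv (DADJ x)]
  exact vanish_iff_of_iso (Iso.refl _) (asIso ((DADJ x).unit.app G))

lemma vanish_iff_DJ (P G : DerivedCategory U.Modules) :
    (∀ φ : P ⟶ G, φ = 0) ↔ (∀ φ : (DJ f).obj P ⟶ (DJ f).obj G, φ = 0) := by
  rw [vanish_iff_equiv (DJR f)]
  exact vanish_iff_of_iso (Iso.refl _) (asIso ((DJR f).unit.app G))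

/-- the variant on an open subscheme -/
lemma vanish_iff_DT {x : X} (hx : IsClosed ({x} : Set X)) (P G : DerivedCategory U.Modules)
    (hG : ∀ z : X, z ∈ f.opensRange → z ≠ x → IsZero ((DT f z).obj G)) :
    (∀ φ : P ⟶ G, φ = 0) ↔ (∀ φ : (DT f x).obj P ⟶ (DT f x).obj G, φ = 0) := by
  rw [vanish_iff_DJ f, vanish_iff_DST hx]
  · exact vanish_iff_of_iso ((DTiso f x).app P).symm ((DTiso f x).app G).symm
  · intro z hz
    by_cases hzf : z ∈ f.opensRange
    · exact (((DTiso f z).app G).isZero_iff).1 (hG z hzf hz)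
    · exact isZero_DST_DJ f hzf G

variable {f}

lemma mem_image_top {z : X} (hz : z ∈ f.opensRange) : z ∈ f ''ᵁ ⊤ := by
  rw [Scheme.Hom.image_top_eq_opensRange]
  exact hz

variable (f)

/-- The Koszul object is supported where all functions vanish. -/
def IsolatedZero (l : List Γ(U, ⊤)) (x : X) : Prop :=
  ∀ (z : X) (hz : z ∈ f ''ᵁ ⊤), z ≠ x → ∃ g ∈ l, IsUnit (rho f hz g)

lemma isIso_of_isUnit {S : Type*} [CommRing S] {T : Type*} [Category T] [Preadditive T]
    [CategoryTheory.Linear S T] {g : S} (hg : IsUnit g) (A : T) : IsIso (g • 𝟙 A) := by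
  obtain ⟨v, rfl⟩ := hg
  refine ⟨(↑v⁻¹ : S) • 𝟙 A, ?_, ?_⟩
  · rw [Linear.smul_comp, Linear.comp_smul, smul_smul, Category.id_comp, Units.mul_inv, one_smul]
  · rw [Linear.smul_comp, Linear.comp_smul, smul_smul, Category.id_comp, Units.inv_mul, one_smul]

lemma semilin_DT {z : X} (hz : z ∈ f ''ᵁ ⊤) : IsSemilin (rho f hz) (DT f z) :=
  IsSemilin.mapDerived _ (semilin_stalk f hz)

lemma isZero_DT_of_isKos {l : List Γ(U, ⊤)} {x : X} (hl : IsolatedZero f l x)
    {A B : DerivedCategory U.Modules} (h : IsKos l A B) (z : X) (hz : z ∈ f.opensRange)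
    (hzx : z ≠ x) : IsZero ((DT f z).obj B) := by
  obtain ⟨g, hg, hu⟩ := hl z (mem_image_top hz) hzx
  exact (h.mapSemi (DT f z) (semilin_DT f (mem_image_top hz))).isZero_of_mem
    (List.mem_map_of_mem hg) (fun A => isIso_of_isUnit hu A)

lemma isZero_DT_of_isKosR {l : List Γ(U, ⊤)} {x : X} (hl : IsolatedZero f l x)
    {A B : DerivedCategory U.Modules} (h : IsKosR l A B) (z : X) (hz : z ∈ f.opensRange)
    (hzx : z ≠ x) : IsZero ((DT f z).obj B) := by
  obtain ⟨g, hg, hu⟩ := hl z (mem_image_top hz) hzx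
  exact (h.mapSemi (DT f z) (semilin_DT f (mem_image_top hz))).isZero_of_mem
    (List.mem_map_of_mem hg) (fun A => isIso_of_isUnit hu A)

/-- Key lemma: homs out of a Koszul object supported at a closed point can be tested on stalks. -/
lemma kos_vanish_iff_DT {l : List Γ(U, ⊤)} {x : X} (hx : IsClosed ({x} : Set X))
    (hxU : x ∈ f ''ᵁ ⊤) (hl : IsolatedZero f l x)
    {O K : DerivedCategory U.Modules} (hK : IsKos l O K) (G : DerivedCategory U.Modules) :
    (∀ φ : K ⟶ G, φ = 0) ↔ (∀ φ : (DT f x).obj K ⟶ (DT f x).obj G, φ = 0) := by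
  let n : ℤ := (l.length : ℤ)
  let G' := G⟦-n⟧
  let e : G'⟦n⟧ ≅ G := (shiftFunctorCompIsoId _ (-n) n (by simp)).app G
  obtain ⟨H, hH⟩ := exists_isKosR l G'
  have h1 : (∀ φ : K ⟶ G, φ = 0) ↔ (∀ φ : K ⟶ G'⟦n⟧, φ = 0) :=
    vanish_iff_of_iso (Iso.refl _) e.symm
  have h2 : (∀ φ : K ⟶ G'⟦n⟧, φ = 0) ↔ (∀ φ : O ⟶ H, φ = 0) := IsKos.vanish_iff hK hH
  have h3 : (∀ φ : O ⟶ H, φ = 0) ↔ (∀ φ : (DT f x).obj O ⟶ (DT f x).obj H, φ = 0) :=
    vanish_iff_DT f hx O H (isZero_DT_of_isKosR f hl hH)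
  have hK' := hK.mapSemi (DT f x) (semilin_DT f hxU)
  have hH' := hH.mapSemi (DT f x) (semilin_DT f hxU)
  have h4 := IsKos.vanish_iff hK' hH'
  rw [List.length_map] at h4
  have h5 : (∀ φ : (DT f x).obj K ⟶ (DT f x).obj G, φ = 0) ↔
      (∀ φ : (DT f x).obj K ⟶ ((DT f x).obj G')⟦n⟧, φ = 0) :=
    vanish_iff_of_iso (Iso.refl _)
      ((DT f x).mapIso e.symm ≪≫ ((DT f x).commShiftIso n).app G')
  rw [h1, h2, h3, h5]
  exact h4.symm

end

end Pool.Agent.Lib.MP_777c16_ag
end

section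
open CategoryTheory AlgebraicGeometry Limits TopologicalSpace Opposite RingTheory.Sequence

universe u

set_option linter.unusedVariables false
set_option linter.unusedSectionVars false

namespace Pool.Agent.Lib.MP_777c16_ag

/-- an element isolating a minimal prime which is maximal -/
lemma exists_isolating {A : Type u} [CommRing A] [IsNoetherianRing A] (m : Ideal A)
    (hm : m.IsMaximal) (I : Ideal A) (hmin : m ∈ I.minimalPrimes) :
    ∃ f : A, f ∉ m ∧ ∀ p : Ideal A, p.IsPrime → f ∉ p → I ≤ p → p = m := by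
  have hfin : (I.minimalPrimes \ {m}).Finite :=
    (Ideal.finite_minimalPrimes_of_isNoetherianRing A I).subset Set.sdiff_subset
  have h1 : ¬ (hfin.toFinset.inf id ≤ m) := by
    intro h
    obtain ⟨q, hq, hqm⟩ := (hm.isPrime.inf_le' (s := hfin.toFinset) (f := id)).1 h
    have hq' := hfin.mem_toFinset.1 hq
    have h2 : m ≤ q := hmin.2 hq'.1.1 hqm
    exact hq'.2 (le_antisymm hqm h2)
  obtain ⟨f, hf, hfm⟩ := SetLike.not_le_iff_exists.1 h1
  refine ⟨f, hfm, fun p hp hfp hIp => ?_⟩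
  obtain ⟨q, hq, hqp⟩ := Ideal.exists_minimalPrimes_le hIp
  by_cases hqm : q = m
  · subst hqm
    exact (hm.eq_of_le hp.ne_top hqp).symm
  · exfalso
    apply hfp
    apply hqp
    have : hfin.toFinset.inf id ≤ q := Finset.inf_le (f := id) (hfin.mem_toFinset.2 ⟨hq, hqm⟩)
    exact this hf

section

variable {X : Scheme.{u}}

/-- restriction of functions to an open subscheme -/
noncomputable def sig {U U₀ : X.Opens} (h : U ≤ U₀) : Γ(X, U₀) →+* Γ(U, ⊤) :=
  (U.ι.appIso ⊤).hom.hom.comp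
    (X.presheaf.map (homOfLE (show U.ι ''ᵁ ⊤ ≤ U₀ by
      rw [Scheme.Hom.image_top_eq_opensRange, Scheme.Opens.opensRange_ι]
      exact h)).op).hom

lemma rho_sig {U U₀ : X.Opens} (h : U ≤ U₀) {z : X} (hz : z ∈ U.ι ''ᵁ ⊤) (hz₀ : z ∈ U₀)
    (g : Γ(X, U₀)) : rho U.ι hz (sig h g) = X.presheaf.germ U₀ z hz₀ g := by
  have h1 : ∀ s : Γ(X, U.ι ''ᵁ ⊤), (U.ι.appIso ⊤).inv ((U.ι.appIso ⊤).hom s) = s :=
    fun s => (U.ι.appIso ⊤).hom_inv_id_apply s
  change X.presheaf.germ (U.ι ''ᵁ ⊤) z hz ((U.ι.appIso ⊤).inv ((U.ι.appIso ⊤).hom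
    (X.presheaf.map (homOfLE _).op g))) = _
  rw [h1]
  exact TopCat.Presheaf.germ_res_apply X.presheaf _ z hz g

lemma mem_primeIdealOf_iff {U₀ : X.Opens} (hU₀ : IsAffineOpen U₀) {z : X} (hz : z ∈ U₀)
    (g : Γ(X, U₀)) : g ∈ (hU₀.primeIdealOf ⟨z, hz⟩).asIdeal ↔
      ¬ IsUnit (X.presheaf.germ U₀ z hz g) := by
  rw [hU₀.primeIdealOf_eq_map_closedPoint]
  exact IsLocalRing.mem_maximalIdeal _

/-- The geometric data attached to a sequence of functions having an isolated zero at a closed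
point. -/
theorem geomData {x : X} (hx : IsClosed ({x} : Set X)) {U₀ : X.Opens} (hU₀ : IsAffineOpen U₀)
    (hxU₀ : x ∈ U₀) [IsNoetherianRing Γ(X, U₀)] (l : List Γ(X, U₀))
    (hmin : (hU₀.primeIdealOf ⟨x, hxU₀⟩).asIdeal ∈ (Ideal.ofList l).minimalPrimes) :
    ∃ (U : X.Opens) (hxU : x ∈ U.ι ''ᵁ ⊤) (l' : List Γ(U, ⊤)), l'.length = l.length ∧
      IsolatedZero U.ι l' x ∧ IsNoetherianRing (X.presheaf.stalk x) ∧
      (IsWeaklyRegular Γ(X, U₀) l →
        IsWeaklyRegular (X.presheaf.stalk x) (l'.map (rho U.ι hxU))) ∧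
      (∀ g ∈ l', rho U.ι hxU g ∈ IsLocalRing.maximalIdeal (X.presheaf.stalk x)) ∧
      (∀ p : Ideal (X.presheaf.stalk x), p.IsPrime → (∀ g ∈ l', rho U.ι hxU g ∈ p) →
        p = IsLocalRing.maximalIdeal (X.presheaf.stalk x)) := by
  have hmax := hU₀.primeIdealOf_isMaximal_of_isClosed ⟨x, hxU₀⟩ hx
  obtain ⟨f, hf, hiso⟩ := exists_isolating _ hmax _ hmin
  let U : X.Opens := X.basicOpen f
  have hUU₀ : U ≤ U₀ := X.basicOpen_le f
  have hxU' : x ∈ U := by
    rw [mem_primeIdealOf_iff, not_not] at hf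
    exact (X.mem_basicOpen' f ⟨x, hxU₀⟩).2 hf
  have himg : U.ι ''ᵁ ⊤ = U := by
    rw [Scheme.Hom.image_top_eq_opensRange, Scheme.Opens.opensRange_ι]
  have hxU : x ∈ U.ι ''ᵁ ⊤ := himg.symm ▸ hxU'
  have hlm : ∀ g ∈ l, g ∈ (hU₀.primeIdealOf ⟨x, hxU₀⟩).asIdeal := fun g hg =>
    hmin.1.2 (Ideal.subset_span hg)
  let : Algebra Γ(X, U₀) (X.presheaf.stalk x) :=
    TopCat.Presheaf.algebra_section_stalk X.presheaf ⟨x, hxU₀⟩
  have hloc : IsLocalization.AtPrime (X.presheaf.stalk x)
    (hU₀.primeIdealOf ⟨x, hxU₀⟩).asIdeal := hU₀.isLocalization_stalk ⟨x, hxU₀⟩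
  have hrho : (l.map (sig hUU₀)).map (rho U.ι hxU) =
      l.map (algebraMap Γ(X, U₀) (X.presheaf.stalk x)) := by
    rw [List.map_map]
    apply List.map_congr_left
    intro g hg
    exact rho_sig hUU₀ hxU hxU₀ g
  refine ⟨U, hxU, l.map (sig hUU₀), by simp, ?_, ?_, ?_, ?_, ?_⟩
  · intro z hz hzx
    by_contra hcon
    push Not at hcon
    have hzU : z ∈ U := himg ▸ hz
    have hzU₀ : z ∈ U₀ := hUU₀ hzU
    apply hzx
    have h1 : f ∉ (hU₀.primeIdealOf ⟨z, hzU₀⟩).asIdeal := by
      rw [mem_primeIdealOf_iff, not_not]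
      exact (X.mem_basicOpen' f ⟨z, hzU₀⟩).1 hzU
    have h2 : Ideal.ofList l ≤ (hU₀.primeIdealOf ⟨z, hzU₀⟩).asIdeal := by
      rw [Ideal.ofList, Ideal.span_le]
      intro g hg
      have h3 := hcon (sig hUU₀ g) (List.mem_map_of_mem hg)
      rw [rho_sig hUU₀ hz hzU₀ g] at h3
      exact (mem_primeIdealOf_iff hU₀ hzU₀ g).2 h3
    have h4 := hiso _ (hU₀.primeIdealOf ⟨z, hzU₀⟩).isPrime h1 h2
    have h5 : hU₀.primeIdealOf ⟨z, hzU₀⟩ = hU₀.primeIdealOf ⟨x, hxU₀⟩ := PrimeSpectrum.ext h4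
    have h6 := hU₀.fromSpec_primeIdealOf ⟨z, hzU₀⟩
    rw [h5, hU₀.fromSpec_primeIdealOf] at h6
    exact h6.symm
  · exact IsLocalization.isNoetherianRing (hU₀.primeIdealOf ⟨x, hxU₀⟩).asIdeal.primeCompl
      (X.presheaf.stalk x) inferInstance
  · intro hreg
    rw [hrho]
    exact IsWeaklyRegular.of_isLocalization (X.presheaf.stalk x)
      (hU₀.primeIdealOf ⟨x, hxU₀⟩).asIdeal.primeCompl hreg
  · intro g hg
    obtain ⟨g', hg', rfl⟩ := List.mem_map.1 hg
    rw [rho_sig hUU₀ hxU hxU₀ g']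
    exact (mem_primeIdealOf_iff hU₀ hxU₀ g').1 (hlm g' hg')
  · intro p hp hgp
    have h1 : p ≤ IsLocalRing.maximalIdeal (X.presheaf.stalk x) :=
      IsLocalRing.le_maximalIdeal hp.ne_top
    have h2 : (IsLocalRing.maximalIdeal (X.presheaf.stalk x)).comap
        (algebraMap Γ(X, U₀) (X.presheaf.stalk x)) =
        (hU₀.primeIdealOf ⟨x, hxU₀⟩).asIdeal := by
      rw [hU₀.primeIdealOf_eq_map_closedPoint]
      rfl
    have h3 : p.comap (algebraMap Γ(X, U₀) (X.presheaf.stalk x)) ≤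
        (hU₀.primeIdealOf ⟨x, hxU₀⟩).asIdeal := by
      rw [← h2]
      exact Ideal.comap_mono h1
    have h4 : Ideal.ofList l ≤ p.comap (algebraMap Γ(X, U₀) (X.presheaf.stalk x)) := by
      rw [Ideal.ofList, Ideal.span_le]
      intro g hg
      have h5 := hgp (sig hUU₀ g) (List.mem_map_of_mem hg)
      rw [rho_sig hUU₀ hxU hxU₀ g] at h5
      exact h5
    have h6 := hmin.2 ⟨hp.comap _, h4⟩ h3
    have h7 := le_antisymm h3 h6
    rw [← IsLocalization.map_under (hU₀.primeIdealOf ⟨x, hxU₀⟩).asIdeal.primeCompl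
      (X.presheaf.stalk x) p, ← IsLocalization.map_under
        (hU₀.primeIdealOf ⟨x, hxU₀⟩).asIdeal.primeCompl (X.presheaf.stalk x)
        (IsLocalRing.maximalIdeal (X.presheaf.stalk x))]
    exact congrArg (Ideal.map (algebraMap Γ(X, U₀) (X.presheaf.stalk x))) (h7.trans h2.symm)

end

end Pool.Agent.Lib.MP_777c16_ag
end

section
open CategoryTheory AlgebraicGeometry Limits TopologicalSpace Opposite Pretriangulated

universe u

set_option linter.unusedVariables false
set_option linter.unusedSectionVars false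

namespace Pool.Agent.Lib.MP_777c16_ag

section

/-- the structure sheaf as a module -/
noncomputable abbrev unitX (X : Scheme.{u}) : X.Modules := SheafOfModules.unit X.ringCatSheaf

variable {X : Scheme.{u}}

/-- a function as a section of the structure sheaf -/
noncomputable def toUnit (V : X.Opens) (r : Γ(X, V)) : Γ(unitX X, V) := r

/-- a section of the structure sheaf as a function -/
noncomputable def ofUnit (V : X.Opens) (r : Γ(unitX X, V)) : Γ(X, V) := r

lemma toUnit_ofUnit (V : X.Opens) (r : Γ(unitX X, V)) : toUnit V (ofUnit V r) = r := rfl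

lemma toUnit_smul_one (V : X.Opens) (r : Γ(X, V)) : r • toUnit V 1 = toUnit V r :=
  (mul_one r : r * 1 = r)

lemma toUnit_res {V W : X.Opens} (i : V ⟶ W) (r : Γ(X, W)) :
    (unitX X).presheaf.map i.op (toUnit W r) = toUnit V (X.presheaf.map i.op r) := rfl

lemma germF_toUnit (x : X) (V : X.Opens) (hx : x ∈ V) (r : Γ(X, V)) :
    germF x (unitX X) V hx (toUnit V r) =
      X.presheaf.germ V x hx r • germF x (unitX X) ⊤ trivial (toUnit ⊤ 1) := by
  have h1 : germF x (unitX X) ⊤ trivial (toUnit ⊤ 1) = germF x (unitX X) V hx (toUnit V 1) := by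
    rw [← germF_res x (unitX X) (homOfLE (le_top : V ≤ ⊤)) hx, toUnit_res]
    congr 2
    exact map_one (X.presheaf.map (homOfLE (le_top : V ≤ ⊤)).op).hom
  rw [h1, ← germF_smul, toUnit_smul_one]

/-- the stalk of the structure sheaf is free on the germ of one -/
noncomputable def stalkUnitLin (x : X) :
    X.presheaf.stalk x →ₗ[X.presheaf.stalk x] (stalkF x).obj (unitX X) :=
  LinearMap.toSpanSingleton _ _ (germF x (unitX X) ⊤ trivial (toUnit ⊤ 1))

lemma stalkUnitLin_bijective (x : X) : Function.Bijective (stalkUnitLin x) := by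
  constructor
  · rw [injective_iff_map_eq_zero]
    intro r hr
    obtain ⟨V, hV, r', rfl⟩ := X.presheaf.exists_germ_eq r
    have h1 : germF x (unitX X) V hV (toUnit V r') = 0 := by
      rw [germF_toUnit]
      exact hr
    have h2 : germF x (unitX X) V hV (toUnit V r') = germF x (unitX X) V hV (toUnit V 0) := by
      rw [h1]
      exact (map_zero (ConcreteCategory.hom
        (TopCat.Presheaf.germ (unitX X).presheaf V x hV))).symm
    obtain ⟨W, hW, iU, iV, h3⟩ := TopCat.Presheaf.germ_eq (unitX X).presheaf x hV hV _ _ h2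
    have h4 : X.presheaf.map iU.op r' = X.presheaf.map iV.op 0 := h3
    rw [map_zero] at h4
    rw [← TopCat.Presheaf.germ_res_apply X.presheaf iU x hW r', h4, map_zero]
  · intro m
    obtain ⟨V, hV, m', rfl⟩ := exists_germF x (unitX X) m
    refine ⟨X.presheaf.germ V x hV (ofUnit V m'), ?_⟩
    exact (germF_toUnit x V hV (ofUnit V m')).symm

/-- the stalk of the structure sheaf is the local ring -/
noncomputable def stalkUnitIso (x : X) :
    ModuleCat.of (X.presheaf.stalk x) (X.presheaf.stalk x) ≅ (stalkF x).obj (unitX X) :=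
  (LinearEquiv.ofBijective (stalkUnitLin x) (stalkUnitLin_bijective x)).toModuleIso

variable {U : Scheme.{u}} (f : U ⟶ X) [IsOpenImmersion f]

/-- restriction and structure sheaves -/
noncomputable def restrictUnit : (Scheme.Modules.restrictFunctor f).obj (unitX X) ≅ unitX U :=
  Scheme.Modules.restrictUnitIso f

/-- the stalk of the extension by zero of the structure sheaf -/
noncomputable def stalkShriekUnit {x : X} (hx : x ∈ f.opensRange) :
    (stalkF x).obj ((shriek f).obj (unitX U)) ≅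
      ModuleCat.of (X.presheaf.stalk x) (X.presheaf.stalk x) :=
  (stalkF x).mapIso ((shriek f).mapIso (restrictUnit f).symm) ≪≫
    @asIso _ _ _ _ ((stalkF x).map ((shriekAdj f).counit.app (unitX X)))
      (isIso_stalk_shriek_counit f _ hx) ≪≫ (stalkUnitIso x).symm

end

end Pool.Agent.Lib.MP_777c16_ag
end

section
open CategoryTheory AlgebraicGeometry Limits TopologicalSpace Opposite Pretriangulated

universe u

set_option linter.unusedVariables false
set_option linter.unusedSectionVars false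

namespace Pool.Agent.Lib.MP_777c16_ag

/-- finitely generated projective modules -/
def IsFP {R : Type u} [CommRing R] (M : ModuleCat.{u} R) : Prop :=
  Module.Finite R M ∧ Module.Projective R M

lemma IsFP.of_iso {R : Type u} [CommRing R] {M N : ModuleCat.{u} R} (h : IsFP M) (e : M ≅ N) :
    IsFP N := by
  obtain ⟨h1, h2⟩ := h
  exact ⟨Module.Finite.equiv e.toLinearEquiv, Module.Projective.of_equiv e.toLinearEquiv⟩

lemma isFP_sigma {R : Type u} [CommRing R] (I : Type u) [Finite I] :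
    IsFP (∐ fun (_ : I) => ModuleCat.of R R) := by
  have : Fintype I := Fintype.ofFinite I
  classical
  refine IsFP.of_iso ?_ (ModuleCat.coprodIsoDirectSum (fun (_ : I) => ModuleCat.of R R)).symm
  let e := DirectSum.linearEquivFunOnFintype R I (fun _ => R)
  exact ⟨Module.Finite.equiv e.symm, Module.Projective.of_equiv e.symm⟩

section

variable {U X : Scheme.{u}} (f : U ⟶ X) [IsOpenImmersion f]

/-- the stalk of the extension by zero of a free module -/
lemma isFP_stalk_shriek_free {x : X} (hx : x ∈ f.opensRange) {M : U.Modules}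
    (hM : IsFiniteFree M) : IsFP ((stalkF x).obj ((shriek f).obj M)) := by
  obtain ⟨I, hI, ⟨e⟩⟩ := hM
  have h1 : (stalkF x).obj ((shriek f).obj M) ≅
      ∐ fun (_ : I) => (shriek f ⋙ stalkF x).obj (unitX U) :=
    (shriek f ⋙ stalkF x).mapIso e ≪≫
      PreservesCoproduct.iso (shriek f ⋙ stalkF x) (fun (_ : I) => unitX U)
  have h2 : (∐ fun (_ : I) => (shriek f ⋙ stalkF x).obj (unitX U)) ≅
      ∐ fun (_ : I) => ModuleCat.of (X.presheaf.stalk x) (X.presheaf.stalk x) :=
    Sigma.mapIso (fun _ => stalkShriekUnit f hx)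
  exact (isFP_sigma I).of_iso (h1 ≪≫ h2).symm

lemma isFP_stalk_of_restrict_free {x : X} (hx : x ∈ f.opensRange) {N : X.Modules}
    (hN : IsFiniteFree ((Scheme.Modules.restrictFunctor f).obj N)) : IsFP ((stalkF x).obj N) :=
  (isFP_stalk_shriek_free f hx hN).of_iso
    (@asIso _ _ _ _ ((stalkF x).map ((shriekAdj f).counit.app N))
      (isIso_stalk_shriek_counit f _ hx))

lemma IsFiniteFree.of_iso {X : Scheme.{u}} {M N : X.Modules} (h : IsFiniteFree M) (e : M ≅ N) :
    IsFiniteFree N := by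
  obtain ⟨I, hI, ⟨e'⟩⟩ := h
  exact ⟨I, hI, ⟨e.symm ≪≫ e'⟩⟩

/-- the stalk of the extension by zero of a finite locally free module -/
lemma isFP_stalk_shriek {x : X} (hx : x ∈ f.opensRange) {M : U.Modules}
    (hM : IsFiniteLocallyFree M) : IsFP ((stalkF x).obj ((shriek f).obj M)) := by
  obtain ⟨y, rfl⟩ := hx
  obtain ⟨V, hV, hfree⟩ := hM y
  have h1 : f y ∈ (V.ι ≫ f).opensRange := ⟨⟨y, hV⟩, rfl⟩
  apply isFP_stalk_of_restrict_free (V.ι ≫ f) h1
  have e : (Scheme.Modules.restrictFunctor (V.ι ≫ f)).obj ((shriek f).obj M) ≅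
      (Scheme.Modules.restrictFunctor V.ι).obj M :=
    (Scheme.Modules.restrictFunctorComp V.ι f).app _ ≪≫
      (Scheme.Modules.restrictFunctor V.ι).mapIso (asIso ((shriekAdj f).unit.app M)).symm
  exact hfree.of_iso e.symm

end

end Pool.Agent.Lib.MP_777c16_ag
end

section
open CategoryTheory AlgebraicGeometry Limits TopologicalSpace Opposite Pretriangulated

universe u

set_option linter.unusedVariables false
set_option linter.unusedSectionVars false

namespace Pool.Agent.Lib.MP_777c16_ag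

section

variable {X : Scheme.{u}}

/-- stalks of perfect complexes are given by bounded complexes of finite projective modules -/
lemma IsPerfect.exists_good {P : DerivedCategory X.Modules} (hP : IsPerfect P) (x : X) :
    ∃ (F : CochainComplex (ModuleCat.{u} (X.presheaf.stalk x)) ℤ) (a b : ℤ),
      IsGoodCx F a b ∧ Nonempty ((DST x).obj P ≅ DerivedCategory.Q.obj F) := by
  obtain ⟨U, hxU, K, ⟨⟨a, b, ha, hb⟩, hK⟩, ⟨e⟩⟩ := hP x
  have hx : x ∈ U.ι.opensRange := by
    rw [Scheme.Opens.opensRange_ι]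
    exact hxU
  let G := shriek U.ι ⋙ stalkF x
  let F := (G.mapHomologicalComplex (ComplexShape.up ℤ)).obj K
  refine ⟨F, a, b, ⟨fun i => ?_, fun i => ?_, ?_, ?_⟩, ⟨?_⟩⟩
  · exact (isFP_stalk_shriek U.ι hx (hK i)).1
  · exact (isFP_stalk_shriek U.ι hx (hK i)).2
  · rw [CochainComplex.isStrictlyGE_iff]
    intro i hi
    exact G.map_isZero (CochainComplex.isZero_of_isStrictlyGE K a i hi)
  · rw [CochainComplex.isStrictlyLE_iff]
    intro i hi
    exact G.map_isZero (CochainComplex.isZero_of_isStrictlyLE K b i hi)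
  · exact (DTRiso U.ι hx P).symm ≪≫ (DT U.ι x).mapIso e ≪≫
      G.mapDerivedCategoryFactors.app K

/-- the structure sheaf in degree zero -/
noncomputable abbrev O0 (X : Scheme.{u}) : CochainComplex X.Modules ℤ :=
  (HomologicalComplex.single X.Modules (ComplexShape.up ℤ) 0).obj (unitX X)

variable {U : Scheme.{u}} (f : U ⟶ X) [IsOpenImmersion f]

/-- the stalk of the structure sheaf in degree zero -/
noncomputable def DTunit {x : X} (hx : x ∈ f.opensRange) :
    (DT f x).obj (DerivedCategory.Q.obj (O0 U)) ≅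
      DerivedCategory.Q.obj (R0 (X.presheaf.stalk x)) :=
  ((shriek f ⋙ stalkF x).mapDerivedCategorySingleFunctor 0).app (unitX U) ≪≫
    (DerivedCategory.singleFunctor _ 0).mapIso (stalkShriekUnit f hx)

/-- free modules as objects of the category of sheaves of modules on a scheme -/
noncomputable abbrev freeX (X : Scheme.{u}) (I : Type u) : X.Modules :=
  SheafOfModules.free (R := X.ringCatSheaf) I

/-- the sum of free modules is free -/
noncomputable def freeXSum (I J : Type u) : freeX X I ⨿ freeX X J ≅ freeX X (I ⊕ J) :=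
  SheafOfModules.freeSumIso (R := X.ringCatSheaf) I J

lemma IsFiniteFree.biprod {M N : X.Modules} (hM : IsFiniteFree M) (hN : IsFiniteFree N) :
    IsFiniteFree (M ⊞ N) := by
  obtain ⟨I, hI, ⟨e⟩⟩ := hM
  obtain ⟨J, hJ, ⟨e'⟩⟩ := hN
  have e1 : M ≅ freeX X I := e
  have e2 : N ≅ freeX X J := e'
  refine ⟨I ⊕ J, inferInstance, ⟨?_⟩⟩
  exact biprod.mapIso e1 e2 ≪≫ biprod.isoCoprod _ _ ≪≫ freeXSum I J

lemma isFiniteFree_of_isZero {M : X.Modules} (hM : IsZero M) : IsFiniteFree M := by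
  refine ⟨PEmpty, inferInstance, ⟨?_⟩⟩
  have h : IsZero (freeX X PEmpty) := by
    rw [IsZero.iff_id_eq_zero]
    exact Cofan.IsColimit.hom_ext (SheafOfModules.isColimitFreeCofan PEmpty) _ _ (fun i => i.elim)
  exact hM.iso h

end

end Pool.Agent.Lib.MP_777c16_ag
end

section
open CategoryTheory AlgebraicGeometry Limits TopologicalSpace Opposite Pretriangulated

universe u

set_option linter.unusedVariables false
set_option linter.unusedSectionVars false

namespace Pool.Agent.Lib.MP_777c16_ag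

section

variable {X : Scheme.{u}}

/-- bounded complexes of free modules of finite rank -/
structure IsFreeCx (K : CochainComplex X.Modules ℤ) : Prop where
  bounded : ∃ a b : ℤ, K.IsStrictlyGE a ∧ K.IsStrictlyLE b
  free : ∀ i : ℤ, IsFiniteFree (K.X i)

lemma isFiniteFree_unit : IsFiniteFree (unitX X) := by
  refine ⟨PUnit, inferInstance, ⟨?_⟩⟩
  have e : (∐ fun (_ : PUnit.{u + 1}) => unitX X) ≅ unitX X :=
    coproductUniqueIso (fun (_ : PUnit.{u + 1}) => unitX X)
  exact e.symm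

lemma IsFiniteFree.restrict {U : Scheme.{u}} (f : U ⟶ X) [IsOpenImmersion f] {M : X.Modules}
    (hM : IsFiniteFree M) : IsFiniteFree ((Scheme.Modules.restrictFunctor f).obj M) := by
  obtain ⟨I, hI, ⟨e⟩⟩ := hM
  have e1 : M ≅ freeX X I := e
  have e2 : freeX U I ≅ (Scheme.Modules.restrictFunctor f).obj (freeX X I) :=
    (Sigma.mapIso (fun _ => (restrictUnit f).symm)) ≪≫
      (PreservesCoproduct.iso (Scheme.Modules.restrictFunctor f) (fun (_ : I) => unitX X)).symm
  exact ⟨I, hI, ⟨(Scheme.Modules.restrictFunctor f).mapIso e1 ≪≫ e2.symm⟩⟩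

lemma IsFiniteFree.locallyFree {M : X.Modules} (hM : IsFiniteFree M) : IsFiniteLocallyFree M :=
  fun x => ⟨⊤, trivial, hM.restrict _⟩

lemma IsFreeCx.isStrictlyPerfect {K : CochainComplex X.Modules ℤ} (hK : IsFreeCx K) :
    IsStrictlyPerfect K :=
  ⟨hK.bounded, fun i => (hK.free i).locallyFree⟩

lemma isFreeCx_O0 : IsFreeCx (O0 X) := by
  refine ⟨⟨0, 0, inferInstance, inferInstance⟩, fun i => ?_⟩
  by_cases hi : i = 0
  · subst hi
    exact isFiniteFree_unit.of_iso (HomologicalComplex.singleObjXSelf _ _ _).symm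
  · exact isFiniteFree_of_isZero (HomologicalComplex.isZero_single_obj_X _ _ _ _ hi)

lemma IsFreeCx.mappingCone {K L : CochainComplex X.Modules ℤ} (hK : IsFreeCx K) (hL : IsFreeCx L)
    (φ : K ⟶ L) : IsFreeCx (CochainComplex.mappingCone φ) := by
  obtain ⟨⟨a, b, ha, hb⟩, hK⟩ := hK
  obtain ⟨⟨a', b', ha', hb'⟩, hL⟩ := hL
  have e : ∀ i, (CochainComplex.mappingCone φ).X i ≅ K.X (i + 1) ⊞ L.X i := fun i =>
    HomologicalComplex.homotopyCofiber.XIsoBiprod φ i (i + 1) (by simp)
  refine ⟨⟨min (a - 1) a', max b b', ?_, ?_⟩, fun i => ((hK (i + 1)).biprod (hL i)).of_iso (e i).symm⟩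
  · rw [CochainComplex.isStrictlyGE_iff]
    intro i hi
    refine IsZero.of_iso ?_ (e i)
    rw [biprod_isZero_iff]
    exact ⟨CochainComplex.isZero_of_isStrictlyGE K a _ (by omega),
      CochainComplex.isZero_of_isStrictlyGE L a' _ (by omega)⟩
  · rw [CochainComplex.isStrictlyLE_iff]
    intro i hi
    refine IsZero.of_iso ?_ (e i)
    rw [biprod_isZero_iff]
    exact ⟨CochainComplex.isZero_of_isStrictlyLE K b _ (by omega),
      CochainComplex.isZero_of_isStrictlyLE L b' _ (by omega)⟩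

/-- Koszul complexes -/
lemma exists_kosCx (l : List Γ(X, ⊤)) (K : CochainComplex X.Modules ℤ) (hK : IsFreeCx K) :
    ∃ L : CochainComplex X.Modules ℤ, IsFreeCx L ∧
      IsKos l (DerivedCategory.Q.obj K) (DerivedCategory.Q.obj L) := by
  induction l generalizing K with
  | nil => exact ⟨K, hK, ⟨Iso.refl _⟩⟩
  | cons g l ih =>
    obtain ⟨L, hL, hkos⟩ := ih _ (hK.mappingCone hK (g • 𝟙 K))
    refine ⟨L, hL, _, ?_, hkos⟩
    have h := DerivedCategory.mappingCone_triangle_distinguished (g • 𝟙 K)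
    have h1 : DerivedCategory.Q.mapTriangle.obj (CochainComplex.mappingCone.triangle (g • 𝟙 K)) =
      Triangle.mk (DerivedCategory.Q.map (g • 𝟙 K))
        (DerivedCategory.Q.map (CochainComplex.mappingCone.triangle (g • 𝟙 K)).mor₂)
        (DerivedCategory.Q.map (CochainComplex.mappingCone.triangle (g • 𝟙 K)).mor₃ ≫
          (DerivedCategory.Q.commShiftIso (1 : ℤ)).hom.app K) := rfl
    rw [h1, Functor.map_smul, CategoryTheory.Functor.map_id] at h
    exact ⟨_, _, h⟩

end

end Pool.Agent.Lib.MP_777c16_ag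
end

section
open CategoryTheory AlgebraicGeometry Limits TopologicalSpace Opposite Pretriangulated ZeroObject

universe u

set_option linter.unusedVariables false
set_option linter.unusedSectionVars false

namespace Pool.Agent.Lib.MP_777c16_ag

section

variable {X : Scheme.{u}}

lemma mem_opensRange_ι {U : X.Opens} {x : X} : x ∈ U.ι.opensRange ↔ x ∈ U := by
  rw [Scheme.Opens.opensRange_ι]

lemma isStrictlyPerfect_zero : IsStrictlyPerfect (0 : CochainComplex X.Modules ℤ) := by
  have hz : ∀ i, IsZero ((0 : CochainComplex X.Modules ℤ).X i) := fun i =>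
    (HomologicalComplex.eval _ _ i).map_isZero (isZero_zero _)
  refine ⟨⟨0, 0, ?_, ?_⟩, fun i => (isFiniteFree_of_isZero (hz i)).locallyFree⟩
  · rw [CochainComplex.isStrictlyGE_iff]
    exact fun i _ => hz i
  · rw [CochainComplex.isStrictlyLE_iff]
    exact fun i _ => hz i

/-- an object with vanishing stalks on an open restricts to zero -/
lemma isZero_DR_of_stalks {U : Scheme.{u}} (f : U ⟶ X) [IsOpenImmersion f]
    (G : DerivedCategory X.Modules)
    (hG : ∀ z ∈ f.opensRange, IsZero ((DST z).obj G)) : IsZero ((DR f).obj G) := by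
  have h1 : IsZero ((DJ f).obj ((DR f).obj G)) := by
    rw [isZero_iff_DST]
    intro z
    by_cases hz : z ∈ f.opensRange
    · exact IsZero.of_iso (hG z hz) (@asIso _ _ _ _ ((DST z).map ((DJR f).counit.app G))
        (isIso_DST_counit f hz G))
    · exact isZero_DST_DJ f hz _
  exact IsZero.of_iso ((DR f).map_isZero h1) (asIso ((DJR f).unit.app _))

lemma isPerfect_of_iso {P Q : DerivedCategory X.Modules} (e : P ≅ Q) (h : IsPerfect P) :
    IsPerfect Q := by
  intro x
  obtain ⟨U, hx, K, hK, ⟨e'⟩⟩ := h x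
  exact ⟨U, hx, K, hK, ⟨(DR U.ι).mapIso e.symm ≪≫ e'⟩⟩

/-- extension by zero of a strictly perfect complex supported at a closed point is perfect -/
lemma isPerfect_DJ (U : X.Opens) {x : X} (hx : IsClosed ({x} : Set X))
    {L : CochainComplex (U : Scheme.{u}).Modules ℤ} (hL : IsStrictlyPerfect L)
    (hsupp : ∀ z : X, z ≠ x → IsZero ((DST z).obj ((DJ U.ι).obj (DerivedCategory.Q.obj L))))
    (hxU : x ∈ U) :
    IsPerfect ((DJ U.ι).obj (DerivedCategory.Q.obj L)) := by
  intro z
  by_cases hz : z ∈ U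
  · exact ⟨U, hz, L, hL, ⟨(asIso ((DJR U.ι).unit.app _)).symm⟩⟩
  · let V : X.Opens := ⟨{x}ᶜ, hx.isOpen_compl⟩
    have hzV : z ∈ V := fun h => hz (by rw [Set.mem_singleton_iff] at h; rw [h]; exact hxU)
    refine ⟨V, hzV, 0, isStrictlyPerfect_zero, ⟨?_⟩⟩
    have h1 : IsZero ((DR V.ι).obj ((DJ U.ι).obj (DerivedCategory.Q.obj L))) := by
      apply isZero_DR_of_stalks
      intro w hw
      rw [mem_opensRange_ι] at hw
      exact hsupp w hw
    exact h1.iso (DerivedCategory.Q.map_isZero (isZero_zero _))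

lemma isPerfect_shift {P : DerivedCategory X.Modules} (h : IsPerfect P) (n : ℤ) :
    IsPerfect (P⟦n⟧) := by
  intro x
  obtain ⟨U, hx, K, ⟨⟨a, b, ha, hb⟩, hK⟩, ⟨e⟩⟩ := h x
  refine ⟨U, hx, K⟦n⟧, ⟨⟨a - n, b - n, ?_, ?_⟩, fun i => hK (i + n)⟩, ⟨?_⟩⟩
  · exact K.isStrictlyGE_shift a n (a - n) (by omega)
  · exact K.isStrictlyLE_shift b n (b - n) (by omega)
  · exact ((DR U.ι).commShiftIso n).app P ≪≫ (shiftFunctor _ n).mapIso e ≪≫
      (DerivedCategory.Q.commShiftIso n).symm.app K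

/-- The property of an object of the category of perfect complexes which detects an upper bound
for the dimension. -/
def Star (d : ℤ) (K : DerivedCategory X.Modules) : Prop :=
  ∀ P : DerivedCategory X.Modules, IsPerfect P →
    (∀ i : ℤ, d ≤ i → ∀ φ : P ⟶ K⟦i⟧, φ = 0) → ∀ φ : K ⟶ P, φ = 0

/-- Part (A) : existence of an object with property `Star`. -/
theorem partA (U : X.Opens) {x : X} (hx : IsClosed ({x} : Set X)) (hxU : x ∈ U.ι ''ᵁ ⊤)
    (l : List Γ(U, ⊤)) (hl : IsolatedZero U.ι l x) [IsNoetherianRing (X.presheaf.stalk x)]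
    (hreg : RingTheory.Sequence.IsWeaklyRegular (X.presheaf.stalk x) (l.map (rho U.ι hxU)))
    (hlm : ∀ g ∈ l, rho U.ι hxU g ∈ IsLocalRing.maximalIdeal (X.presheaf.stalk x)) :
    ∃ K : DerivedCategory X.Modules, IsPerfect K ∧ ¬ IsZero K ∧ Star (l.length : ℤ) K := by
  have hxr : x ∈ U.ι.opensRange := U.ι.image_le_opensRange _ hxU
  obtain ⟨L, hL, hkos⟩ := exists_kosCx l (O0 (U : Scheme.{u})) isFreeCx_O0
  let K := (DJ U.ι).obj (DerivedCategory.Q.obj L)
  let eK : (DT U.ι x).obj (DerivedCategory.Q.obj L) ≅ (DST x).obj K := (DTiso U.ι x).app _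
  have hkos' : IsKos (l.map (rho U.ι hxU)) (DerivedCategory.Q.obj (R0 (X.presheaf.stalk x)))
      ((DT U.ι x).obj (DerivedCategory.Q.obj L)) :=
    (hkos.mapSemi (DT U.ι x) (semilin_DT U.ι hxU)).of_iso_left (DTunit U.ι hxr).symm
  have hlm' : ∀ g ∈ l.map (rho U.ι hxU), g ∈ IsLocalRing.maximalIdeal (X.presheaf.stalk x) := by
    intro g hg
    obtain ⟨g', hg', rfl⟩ := List.mem_map.1 hg
    exact hlm g' hg'
  have hsupp : ∀ z : X, z ≠ x → IsZero ((DST z).obj K) := by
    intro z hz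
    by_cases hzU : z ∈ U.ι.opensRange
    · exact IsZero.of_iso (isZero_DT_of_isKos U.ι hl hkos z hzU hz) ((DTiso U.ι z).app _).symm
    · exact isZero_DST_DJ U.ι hzU _
  refine ⟨K, isPerfect_DJ U hx hL.isStrictlyPerfect hsupp (mem_opensRange_ι.1 hxr), ?_, ?_⟩
  · intro h
    exact not_isZero_of_isKos _ hlm' hkos' (IsZero.of_iso ((DST x).map_isZero h) eK)
  · intro P hP hvan
    obtain ⟨F, a, b, hF, ⟨eF⟩⟩ := hP.exists_good x
    -- transfer the hypothesis to the local ring
    have h1 : ∀ i : ℤ, ((l.map (rho U.ι hxU)).length : ℤ) ≤ i →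
        ∀ φ : DerivedCategory.Q.obj F ⟶ ((DT U.ι x).obj (DerivedCategory.Q.obj L))⟦i⟧, φ = 0 := by
      intro i hi
      rw [List.length_map] at hi
      have h2 := hvan i hi
      rw [vanish_iff_DST hx P (K⟦i⟧) (fun z hz => IsZero.of_iso
        ((shiftFunctor _ i).map_isZero (hsupp z hz)) (((DST z).commShiftIso i).app K))] at h2
      exact (vanish_iff_of_iso eF (((DST x).commShiftIso i).app K ≪≫
        (shiftFunctor _ i).mapIso eK.symm)).1 h2
    have h3 := localA _ hreg hlm' hkos' hF h1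
    have h4 : ∀ φ : (DT U.ι x).obj (DerivedCategory.Q.obj L) ⟶
        (DT U.ι x).obj ((DR U.ι).obj P), φ = 0 :=
      (vanish_iff_of_iso (Iso.refl _) (DTRiso U.ι hxr P ≪≫ eF)).2 h3
    rw [← kos_vanish_iff_DT U.ι hx hxU hl hkos] at h4
    rwa [vanish_iff_equiv (DJR U.ι)]

end

end Pool.Agent.Lib.MP_777c16_ag
end

section
open CategoryTheory AlgebraicGeometry Limits TopologicalSpace Opposite Pretriangulated

universe u

set_option linter.unusedVariables false
set_option linter.unusedSectionVars false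

namespace Pool.Agent.Lib.MP_777c16_ag

lemma vanish_shift_iff {T : Type*} [Category T] [Preadditive T] [HasZeroObject T] [HasShift T ℤ]
    [∀ n : ℤ, (shiftFunctor T n).Additive] [Pretriangulated T] (A B : T) (j : ℤ) :
    (∀ φ : A⟦j⟧ ⟶ B, φ = 0) ↔ (∀ φ : A ⟶ B⟦-j⟧, φ = 0) := by
  have e : B⟦-j⟧⟦j⟧ ≅ B := (shiftFunctorCompIsoId T (-j) j (by simp)).app B
  constructor
  · intro h φ
    apply (shiftFunctor T j).map_injective
    rw [Functor.map_zero]
    exact (vanish_iff_of_iso (Iso.refl _) e).2 h _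
  · intro h
    refine (vanish_iff_of_iso (Iso.refl _) e).1 (fun φ => ?_)
    obtain ⟨φ', rfl⟩ := (shiftFunctor T j).map_surjective φ
    rw [h φ', Functor.map_zero]

section

variable {X : Scheme.{u}}

/-- Part (B) : an object with property `Star` bounds the length of systems of parameters. -/
theorem partB (U : X.Opens) {x : X} (hx : IsClosed ({x} : Set X)) (hxU : x ∈ U.ι ''ᵁ ⊤)
    (l : List Γ(U, ⊤)) (hl : IsolatedZero U.ι l x) [IsNoetherianRing (X.presheaf.stalk x)]
    (hlm : ∀ g ∈ l, rho U.ι hxU g ∈ IsLocalRing.maximalIdeal (X.presheaf.stalk x))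
    (hrad : ∀ p : Ideal (X.presheaf.stalk x), p.IsPrime → (∀ g ∈ l, rho U.ι hxU g ∈ p) →
      p = IsLocalRing.maximalIdeal (X.presheaf.stalk x))
    {K : DerivedCategory X.Modules} (hK : IsPerfect K) (d : ℤ) (hstar : Star d K)
    (hne : ¬ IsZero ((DST x).obj K)) : d ≤ (l.length : ℤ) := by
  by_contra hd
  have hxr : x ∈ U.ι.opensRange := U.ι.image_le_opensRange _ hxU
  obtain ⟨L, hL, hkos⟩ := exists_kosCx l (O0 (U : Scheme.{u})) isFreeCx_O0
  let K1 := (DJ U.ι).obj (DerivedCategory.Q.obj L)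
  let N := (DT U.ι x).obj (DerivedCategory.Q.obj L)
  let eK : N ≅ (DST x).obj K1 := (DTiso U.ι x).app _
  have hkos' : IsKos (l.map (rho U.ι hxU)) (DerivedCategory.Q.obj (R0 (X.presheaf.stalk x))) N :=
    (hkos.mapSemi (DT U.ι x) (semilin_DT U.ι hxU)).of_iso_left (DTunit U.ι hxr).symm
  have hlm' : ∀ g ∈ l.map (rho U.ι hxU), g ∈ IsLocalRing.maximalIdeal (X.presheaf.stalk x) := by
    intro g hg
    obtain ⟨g', hg', rfl⟩ := List.mem_map.1 hg
    exact hlm g' hg'
  have hrad' : ∀ p : Ideal (X.presheaf.stalk x), p.IsPrime →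
      (∀ g ∈ l.map (rho U.ι hxU), g ∈ p) →
      p = IsLocalRing.maximalIdeal (X.presheaf.stalk x) := by
    intro p hp h
    exact hrad p hp (fun g hg => h _ (List.mem_map_of_mem hg))
  have hsupp : ∀ z : X, z ≠ x → IsZero ((DST z).obj K1) := by
    intro z hz
    by_cases hzU : z ∈ U.ι.opensRange
    · exact IsZero.of_iso (isZero_DT_of_isKos U.ι hl hkos z hzU hz) ((DTiso U.ι z).app _).symm
    · exact isZero_DST_DJ U.ι hzU _
  have hK1 : IsPerfect K1 :=
    isPerfect_DJ U hx hL.isStrictlyPerfect hsupp (mem_opensRange_ι.1 hxr)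
  obtain ⟨F, a, b, hF, ⟨eF⟩⟩ := hK.exists_good x
  obtain ⟨j, ⟨φ, hφ⟩, hvan⟩ := localB _ hlm' hrad' hkos' hF
    (fun h => hne (IsZero.of_iso h eF))
  apply hφ
  -- homs from `K` to `K1⟦j⟧` vanish
  have h1 : ∀ φ : K ⟶ K1⟦j⟧, φ = 0 := by
    refine hstar (K1⟦j⟧) (isPerfect_shift hK1 j) ?_
    intro i hi
    rw [vanish_shift_iff]
    have h2 := hvan i (by rw [List.length_map]; omega)
    rw [vanish_shift_iff] at h2
    have e3 : (DT U.ι x).obj ((DR U.ι).obj (K⟦i⟧⟦-j⟧)) ≅
        (DerivedCategory.Q.obj F)⟦i⟧⟦-j⟧ :=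
      DTRiso U.ι hxr _ ≪≫ ((DST x).commShiftIso (-j)).app _ ≪≫
        (shiftFunctor _ (-j)).mapIso (((DST x).commShiftIso i).app _ ≪≫
          (shiftFunctor _ i).mapIso eF)
    have h4 := (vanish_iff_of_iso (Iso.refl N) e3).2 h2
    rw [← kos_vanish_iff_DT U.ι hx hxU hl hkos] at h4
    exact (vanish_iff_equiv (DJR U.ι)).2 h4
  rw [vanish_iff_DST hx K (K1⟦j⟧) (fun z hz => IsZero.of_iso
    ((shiftFunctor _ j).map_isZero (hsupp z hz)) (((DST z).commShiftIso j).app K1))] at h1
  exact (vanish_iff_of_iso eF (((DST x).commShiftIso j).app K1 ≪≫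
    (shiftFunctor _ j).mapIso eK.symm)).1 h1 φ

end

end Pool.Agent.Lib.MP_777c16_ag
end
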