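import Pool.Agent.Lib.MP_777c16_ag.LocalAlg7
import Pool.Agent.Lib.MP_777c16_ag.LinearMod

open CategoryTheory AlgebraicGeometry Limits TopologicalSpace Opposite Pretriangulated

universe u

set_option linter.unusedVariables false
set_option linter.unusedSectionVars false

namespace Pool.Agent.Lib.MP_777c16_ag

/-- A functor between linear categories over different rings is compatible with a ring map. -/
def IsSemilin {S R : Type*} [Ring S] [Ring R] {C₁ C₂ : Type*} [Category C₁] [Category C₂]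
    [Preadditive C₁] [Preadditive C₂] [CategoryTheory.Linear S C₁] [CategoryTheory.Linear R C₂]
    (ρ : S →+* R) (F : C₁ ⥤ C₂) : Prop :=
  ∀ (g : S) (A : C₁), F.map (g • 𝟙 A) = ρ g • 𝟙 (F.obj A)

section Kos

variable {S : Type*} [CommRing S] {T : Type*} [Category T] [Preadditive T] [HasZeroObject T]
  [HasShift T ℤ] [∀ n : ℤ, (shiftFunctor T n).Additive] [Pretriangulated T]
  [CategoryTheory.Linear S T] [∀ n : ℤ, Functor.Linear S (shiftFunctor T n)]
  {R : Type*} [CommRing R] {T' : Type*} [Category T'] [Preadditive T'] [HasZeroObject T']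
    [HasShift T' ℤ] [∀ n : ℤ, (shiftFunctor T' n).Additive] [Pretriangulated T']
    [CategoryTheory.Linear R T'] [∀ n : ℤ, Functor.Linear R (shiftFunctor T' n)]
    (F : T ⥤ T') [F.CommShift ℤ] [F.IsTriangulated] {ρ : S →+* R} (hF : IsSemilin ρ F)

include hF

lemma IsCone.mapSemi {g : S} {A B : T} (h : IsCone g A B) :
    IsCone (ρ g) (F.obj A) (F.obj B) := by
  obtain ⟨i, p, hT⟩ := h
  have : Triangle.mk (F.map (g • 𝟙 A)) (F.map i) (F.map p ≫ (F.commShiftIso (1 : ℤ)).hom.app A) ∈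
    distTriang T' := F.map_distinguished _ hT
  rw [hF] at this
  exact ⟨_, _, this⟩

lemma IsKos.mapSemi {l : List S} {A B : T} (h : IsKos l A B) :
    IsKos (l.map ρ) (F.obj A) (F.obj B) := by
  induction l generalizing A with
  | nil => obtain ⟨e⟩ := h; exact ⟨F.mapIso e⟩
  | cons g l ih =>
    obtain ⟨A', h1, h2⟩ := h
    exact ⟨F.obj A', h1.mapSemi F hF, ih h2⟩

lemma IsKosR.mapSemi {l : List S} {A B : T} (h : IsKosR l A B) :
    IsKosR (l.map ρ) (F.obj A) (F.obj B) := by
  induction l generalizing B with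
  | nil => obtain ⟨e⟩ := h; exact ⟨F.mapIso e⟩
  | cons g l ih =>
    obtain ⟨B', h1, h2⟩ := h
    exact ⟨F.obj B', ih h1, h2.mapSemi F hF⟩

end Kos

section derived

variable {S R : Type*} [Ring S] [Ring R] {C₁ C₂ : Type*} [Category C₁] [Category C₂]
    [Abelian C₁] [Abelian C₂] [CategoryTheory.Linear S C₁] [CategoryTheory.Linear R C₂]
    [HasDerivedCategory C₁] [HasDerivedCategory C₂]
    {ρ : S →+* R} (F : C₁ ⥤ C₂) [F.Additive] [PreservesFiniteLimits F] [PreservesFiniteColimits F]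
    (hF : IsSemilin ρ F)

include hF

lemma IsSemilin.mapDerived : IsSemilin ρ F.mapDerivedCategory := by
  intro g A
  suffices H : ∀ K : CochainComplex C₁ ℤ, F.mapDerivedCategory.map (g • 𝟙 (DerivedCategory.Q.obj K))
      = ρ g • 𝟙 (F.mapDerivedCategory.obj (DerivedCategory.Q.obj K)) by
    have e := DerivedCategory.Q.objObjPreimageIso A
    have h1 := H (DerivedCategory.Q.objPreimage A)
    have h2 : g • 𝟙 A = e.inv ≫ (g • 𝟙 (DerivedCategory.Q.obj (DerivedCategory.Q.objPreimage A))) ≫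
        e.hom := by simp
    rw [h2, Functor.map_comp, Functor.map_comp, h1]
    simp [← Functor.map_comp]
  intro K
  have h1 : g • 𝟙 (DerivedCategory.Q.obj K) = DerivedCategory.Q.map (g • 𝟙 K) := by
    rw [Functor.map_smul, CategoryTheory.Functor.map_id]
  have h2 : (F.mapHomologicalComplex (ComplexShape.up ℤ)).map (g • 𝟙 K) = ρ g • 𝟙 _ := by
    ext i
    exact hF g (K.X i)
  have h3 := F.mapDerivedCategoryFactors.hom.naturality (g • 𝟙 K)
  dsimp only [Functor.comp_map] at h3
  rw [← h1, h2] at h3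
  rw [← cancel_mono (F.mapDerivedCategoryFactors.hom.app K), h3, Functor.map_smul,
    CategoryTheory.Functor.map_id]
  simp

end derived

section sheaf

variable {U X : Scheme.{u}} (f : U ⟶ X) [IsOpenImmersion f]

/-- the map from global functions on an open to the stalk -/
noncomputable def rho {z : X} (hz : z ∈ f ''ᵁ ⊤) : Γ(U, ⊤) →+* X.presheaf.stalk z :=
  (X.presheaf.germ (f ''ᵁ ⊤) z hz).hom.comp (f.appIso ⊤).inv.hom

lemma rho_eq {z : X} (hz : z ∈ f ''ᵁ ⊤) (V : U.Opens) (hV : z ∈ f ''ᵁ V) (g : Γ(U, ⊤)) :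
    X.presheaf.germ (f ''ᵁ V) z hV ((f.appIso V).inv (gres V g)) = rho f hz g := by
  have h := (f.appIso_inv_naturality (homOfLE (le_top : V ≤ ⊤)).op)
  have h2 := congrArg (fun φ => X.presheaf.germ (f ''ᵁ V) z hV (φ.hom g)) h
  refine h2.trans ?_
  exact TopCat.Presheaf.germ_res_apply X.presheaf _ z _ _

lemma semilin_sky {z : X} (hz : z ∈ f ''ᵁ ⊤) (g : Γ(U, ⊤))
    (N : ModuleCat.{u} (X.presheaf.stalk z)) :
    (skyF z ⋙ Scheme.Modules.restrictFunctor f).map (rho f hz g • 𝟙 N) =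
      g • 𝟙 ((skyF z ⋙ Scheme.Modules.restrictFunctor f).obj N) := by
  apply modHom_ext'
  intro V s
  apply sky_ext
  intro hx
  rw [← rho_eq f hz V hx]
  rfl

lemma semilin_stalk {z : X} (hz : z ∈ f ''ᵁ ⊤) : IsSemilin (rho f hz) (shriek f ⋙ stalkF z) := by
  intro g M
  apply (((shriekAdj f).comp (stalkSkyAdj z)).homEquiv _ _).injective
  have h1 := ((shriekAdj f).comp (stalkSkyAdj z)).homEquiv_naturality_left (g • 𝟙 M)
    (𝟙 ((shriek f ⋙ stalkF z).obj M))
  have h2 := ((shriekAdj f).comp (stalkSkyAdj z)).homEquiv_naturality_right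
    (𝟙 ((shriek f ⋙ stalkF z).obj M)) (rho f hz g • 𝟙 ((shriek f ⋙ stalkF z).obj M))
  rw [Category.comp_id] at h1
  rw [Category.id_comp, semilin_sky] at h2
  rw [h1, h2]
  simp

end sheaf

end Pool.Agent.Lib.MP_777c16_ag
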