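import Pool.Agent.Lib.MP_777c16_ag.PartB
import Mathlib.Algebra.Category.ModuleCat.ChangeOfRings

open CategoryTheory AlgebraicGeometry Limits TopologicalSpace Opposite Pretriangulated

universe u

set_option linter.unusedVariables false
set_option linter.unusedSectionVars false

namespace Pool.Agent.Lib.MP_777c16_ag

section

variable {X : Scheme.{u}}

lemma ev_bijective (x : X) (N : ModuleCat.{u} (X.presheaf.stalk x)) :
    Function.Bijective (fun φ : (stalkF x).obj (unitX X) ⟶ N =>
      φ.hom (germF x (unitX X) ⊤ trivial (toUnit ⊤ 1))) := by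
  constructor
  · intro φ ψ h
    ext m
    obtain ⟨r, rfl⟩ := (stalkUnitLin_bijective x).surjective m
    have h1 : stalkUnitLin x r = r • germF x (unitX X) ⊤ trivial (toUnit ⊤ 1) := rfl
    rw [h1, map_smul, map_smul]
    exact congrArg (fun t => r • t) h
  · intro n
    refine ⟨(stalkUnitIso x).inv ≫ ModuleCat.ofHom (LinearMap.toSpanSingleton _ _ n), ?_⟩
    have h1 : (stalkUnitIso x).hom.hom (1 : X.presheaf.stalk x) =
      germF x (unitX X) ⊤ trivial (toUnit ⊤ 1) :=
      one_smul (X.presheaf.stalk x) (germF x (unitX X) ⊤ trivial (toUnit ⊤ 1))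
    have h2 : (stalkUnitIso x).inv.hom (germF x (unitX X) ⊤ trivial (toUnit ⊤ 1)) =
        (1 : X.presheaf.stalk x) := by
      rw [← h1]
      exact congrArg (fun f => f.hom (1 : X.presheaf.stalk x)) (stalkUnitIso x).hom_inv_id
    change (LinearMap.toSpanSingleton _ _ n)
      ((stalkUnitIso x).inv.hom (germF x (unitX X) ⊤ trivial (toUnit ⊤ 1))) = n
    rw [h2]
    exact one_smul _ _

variable {z y : X} (h : z ⤳ y)

/-- the ring map between stalks -/
noncomputable def spRing : X.presheaf.stalk y →+* X.presheaf.stalk z :=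
  (X.presheaf.stalkSpecializes h).hom

lemma spRing_germ (V : X.Opens) (hy : y ∈ V) (r : Γ(X, V)) :
    spRing h (X.presheaf.germ V y hy r) = X.presheaf.germ V z (h.mem_open V.2 hy) r :=
  TopCat.Presheaf.germ_stalkSpecializes_apply X.presheaf hy h r

/-- the map on stalks as a map of modules -/
noncomputable def spPre (M : X.Modules) : (stalkF y).obj M ⟶
    (ModuleCat.restrictScalars (spRing h)).obj ((stalkF z).obj M) :=
  stalkDesc y M _ (fun V hy m => germF z M V (h.mem_open V.2 hy) m)
    (fun V hy a b => germF_add z M V _ a b)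
    (fun V hy r a => by
      rw [germF_smul]
      rw [← spRing_germ h V hy r]
      rfl)
    (fun i hx a => germF_res z M i _ a)

lemma spPre_germ (M : X.Modules) (V : X.Opens) (hy : y ∈ V) (m : Γ(M, V)) :
    (spPre h M).hom (germF y M V hy m) = germF z M V (h.mem_open V.2 hy) m :=
  stalkDesc_germF y M _ _ _ _ (fun i hx a => germF_res z M i _ a) V hy m

lemma spPre_naturality {M N : X.Modules} (φ : M ⟶ N) :
    (stalkF y).map φ ≫ spPre h N = spPre h M ≫
      (ModuleCat.restrictScalars (spRing h)).map ((stalkF z).map φ) := by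
  apply stalkF_hom_ext
  intro V hy m
  change (spPre h N).hom (((stalkF y).map φ).hom (germF y M V hy m)) =
    ((stalkF z).map φ).hom ((spPre h M).hom (germF y M V hy m))
  rw [stalkF_map_germF, spPre_germ, spPre_germ]
  exact (stalkF_map_germF z φ V _ m).symm

/-- the comparison of stalks after extension of scalars -/
noncomputable def spNat : stalkF y ⋙ ModuleCat.extendScalars (spRing h) ⟶ stalkF z where
  app M := (ModuleCat.extendScalars (spRing h)).map (spPre h M) ≫
    (ModuleCat.extendRestrictScalarsAdj (spRing h)).counit.app ((stalkF z).obj M)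
  naturality M N φ := by
    dsimp only [Functor.comp_map]
    rw [← Category.assoc, ← Functor.map_comp, spPre_naturality, Functor.map_comp, Category.assoc,
      Category.assoc]
    congr 1
    exact (ModuleCat.extendRestrictScalarsAdj (spRing h)).counit.naturality _

lemma isIso_spNat_unit : IsIso ((spNat h).app (unitX X)) := by
  apply isIso_of_coyoneda_map_bijective
  intro N
  let adj := ModuleCat.extendRestrictScalarsAdj (spRing h)
  have key : ∀ φ : (stalkF z).obj (unitX X) ⟶ N,
      adj.homEquiv _ _ ((spNat h).app (unitX X) ≫ φ) =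
        spPre h (unitX X) ≫ (ModuleCat.restrictScalars (spRing h)).map φ := by
    intro φ
    rw [← Equiv.eq_symm_apply, adj.homEquiv_counit, Functor.map_comp, Category.assoc]
    change ((ModuleCat.extendScalars (spRing h)).map (spPre h (unitX X)) ≫
      adj.counit.app ((stalkF z).obj (unitX X))) ≫ φ = _
    rw [Category.assoc]
    congr 1
    exact (adj.counit.naturality φ).symm
  have h1 : Function.Bijective (fun φ : (stalkF z).obj (unitX X) ⟶ N =>
      spPre h (unitX X) ≫ (ModuleCat.restrictScalars (spRing h)).map φ) := by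
    have hy := ev_bijective y ((ModuleCat.restrictScalars (spRing h)).obj N)
    have hz := ev_bijective z N
    refine (Function.Bijective.of_comp_iff' hy _).1 ?_
    have he : ∀ φ : (stalkF z).obj (unitX X) ⟶ N,
        φ.hom ((spPre h (unitX X)).hom (germF y (unitX X) ⊤ trivial (toUnit ⊤ 1))) =
          φ.hom (germF z (unitX X) ⊤ trivial (toUnit ⊤ 1)) := by
      intro φ
      exact congrArg (fun t => φ.hom t) (spPre_germ h (unitX X) ⊤ trivial (toUnit ⊤ 1))
    have he2 : (fun φ : (stalkF z).obj (unitX X) ⟶ N =>
        φ.hom (germF z (unitX X) ⊤ trivial (toUnit ⊤ 1))) = fun φ => φ.hom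
          ((spPre h (unitX X)).hom (germF y (unitX X) ⊤ trivial (toUnit ⊤ 1))) :=
      funext (fun φ => (he φ).symm)
    rw [he2] at hz
    exact hz
  have h2 : Function.Bijective (fun φ : (stalkF z).obj (unitX X) ⟶ N =>
      adj.homEquiv _ _ ((spNat h).app (unitX X) ≫ φ)) := by
    have he : (fun φ : (stalkF z).obj (unitX X) ⟶ N =>
        adj.homEquiv _ _ ((spNat h).app (unitX X) ≫ φ)) = fun φ =>
          spPre h (unitX X) ≫ (ModuleCat.restrictScalars (spRing h)).map φ := funext key
    rw [he]
    exact h1
  exact (Function.Bijective.of_comp_iff' (adj.homEquiv _ _).bijective _).1 h2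

end

end Pool.Agent.Lib.MP_777c16_ag
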